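import Pool.Agent.LibGC20.A3

/-!
[GC20 Q1] (MEDIUM) STABILITY of an injective linear map. `L` is continuous (`LinearMap.continuous_of_finiteDimensional`), so `‖L u‖` has a positive minimum `μ₀` on the compact sphere `‖u‖ = c` (if `d = 0` the sphere is empty; take `μ₀ = 1`). Suppose `‖v‖ > c` and put `u = (c / ‖v‖) • v`: `‖u‖ = c`, `‖L' u‖ ≤ ‖L' v‖ ≤ μ` (F-norm), and
`‖L u‖ ≤ ‖L' u‖ + ∑ i, ‖u i • (L e_i - L' e_i)‖ ≤ μ + d * N * ν` with a natural number `N ≥ c` (`norm_smul_le_nat`, `|u i| ≤ c`). Take `μ = μ₀ / 4`, `ν = μ₀ / (4 * (d * N + 1))`. (`LinearMap.pi_apply_eq_sum_univ` for `L u = ∑ u i • L e_i`.)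
-/

namespace Pool.Agent.LibGC20

theorem stab {E : Type*} [NormedAddCommGroup E] [Module ℝ E] [ContinuousSMul ℝ E]
    (hF : ∀ (t : ℝ) (x : E), |t| ≤ 1 → ‖t • x‖ ≤ ‖x‖) {d : ℕ} {L : (Fin d → ℝ) →ₗ[ℝ] E} (hL : Function.Injective L)
    {c : ℝ} (hc : 0 < c) : ∃ μ > 0, ∃ ν > 0, ∀ L' : (Fin d → ℝ) →ₗ[ℝ] E,
      (∀ i, ‖L' (Pi.single i 1) - L (Pi.single i 1)‖ ≤ ν) → ∀ v, ‖L' v‖ ≤ μ → ‖v‖ ≤ c := by
  have hLc : Continuous L := L.continuous_of_finiteDimensional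
  obtain ⟨μ₀, hμ₀, hmin⟩ : ∃ μ₀ > 0, ∀ u : Fin d → ℝ, ‖u‖ = c → μ₀ ≤ ‖L u‖ := by
    have hcomp : IsCompact (Metric.sphere (0 : Fin d → ℝ) c) := isCompact_sphere 0 c
    rcases (Metric.sphere (0 : Fin d → ℝ) c).eq_empty_or_nonempty with he | hne
    · refine ⟨1, one_pos, fun u hu => ?_⟩
      have h1 : u ∈ Metric.sphere (0 : Fin d → ℝ) c := by simpa using hu
      rw [he] at h1
      exact h1.elim
    · obtain ⟨u₀, hu₀, hm⟩ := hcomp.exists_isMinOn hne (hLc.norm.continuousOn)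
      refine ⟨‖L u₀‖, ?_, fun u hu => hm (by simpa using hu)⟩
      rw [gt_iff_lt, norm_pos_iff]
      intro h0
      have h1 : u₀ = 0 := hL (by rw [h0, map_zero])
      rw [h1] at hu₀
      simp at hu₀
      linarith
  obtain ⟨N, hN⟩ := exists_nat_ge c
  refine ⟨μ₀ / 4, by positivity, μ₀ / (4 * (d * N + 1)), by positivity, fun L' hL' v hv => ?_⟩
  by_contra hcv
  push Not at hcv
  have hvpos : 0 < ‖v‖ := hc.trans hcv
  obtain ⟨u, hu⟩ : ∃ u : Fin d → ℝ, u = (c / ‖v‖) • v := ⟨_, rfl⟩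
  have hun : ‖u‖ = c := by
    rw [hu, norm_smul, Real.norm_eq_abs, abs_of_pos (by positivity)]
    field_simp
  have h1 : ‖L' u‖ ≤ ‖L' v‖ := by
    rw [hu, map_smul]
    apply hF
    rw [abs_of_pos (by positivity), div_le_one hvpos]
    exact hcv.le
  have h3 : L u - L' u = ∑ i, u i • (L (Pi.single i 1) - L' (Pi.single i 1)) := by
    have h4 := LinearMap.pi_apply_eq_sum_univ (L - L') u
    have h5 : ∀ i : Fin d, (fun j => if i = j then (1 : ℝ) else 0) = Pi.single i 1 := by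
      intro i
      funext j
      rw [Pi.single_apply]
      simp only [eq_comm]
    simp only [h5, LinearMap.sub_apply] at h4
    exact h4
  have h2 : ‖L u - L' u‖ ≤ d * (N * (μ₀ / (4 * (d * N + 1)))) := by
    rw [h3]
    refine (norm_sum_le _ _).trans ?_
    have h6 : ∀ i ∈ (Finset.univ : Finset (Fin d)),
        ‖u i • (L (Pi.single i 1) - L' (Pi.single i 1))‖ ≤ N * (μ₀ / (4 * (d * N + 1))) := by
      intro i _
      have h7 : |u i| ≤ (N : ℝ) := by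
        have h8 := norm_le_pi_norm u i
        rw [Real.norm_eq_abs, hun] at h8
        exact h8.trans hN
      refine (norm_smul_le_nat hF N h7 _).trans ?_
      refine mul_le_mul_of_nonneg_left ?_ (Nat.cast_nonneg N)
      rw [norm_sub_rev]
      exact hL' i
    refine (Finset.sum_le_sum h6).trans ?_
    simp
  have h9 : (d : ℝ) * (N * (μ₀ / (4 * (d * N + 1)))) ≤ μ₀ / 4 := by
    have h10 : (0 : ℝ) < 4 * (d * N + 1) := by positivity
    have h11 : (d : ℝ) * (N * (μ₀ / (4 * (d * N + 1)))) = (d * N * μ₀) / (4 * (d * N + 1)) := by ring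
    rw [h11, div_le_iff₀ h10]
    have h12 : (0 : ℝ) ≤ d * N := by positivity
    nlinarith
  have h13 := hmin u hun
  have h14 : ‖L u‖ ≤ ‖L' u‖ + ‖L u - L' u‖ := by
    have h15 := norm_add_le (L' u) (L u - L' u)
    rwa [add_sub_cancel] at h15
  linarith

/-- consequence: such `L'` are injective -/
theorem stab_inj {E : Type*} [NormedAddCommGroup E] [Module ℝ E] {d : ℕ} {L' : (Fin d → ℝ) →ₗ[ℝ] E} {μ c : ℝ}
    (hμ : 0 < μ) (h : ∀ v, ‖L' v‖ ≤ μ → ‖v‖ ≤ c) : Function.Injective L' := by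
  rw [← LinearMap.ker_eq_bot, LinearMap.ker_eq_bot']
  intro v hv
  by_contra hne
  have hvpos : 0 < ‖v‖ := norm_pos_iff.mpr hne
  have h1 := h (((|c| + 1) / ‖v‖) • v) (by rw [map_smul, hv, smul_zero, norm_zero]; exact hμ.le)
  rw [norm_smul, Real.norm_eq_abs, abs_of_pos (by positivity)] at h1
  have h2 : (|c| + 1) / ‖v‖ * ‖v‖ = |c| + 1 := by field_simp
  rw [h2] at h1
  have h3 := le_abs_self c
  linarith

end Pool.Agent.LibGC20
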