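import Pool.Agent.LibGC20.Defs

/-!
[GC20 A3] (SMALL, only Mathlib) F-norm estimates. `E` is a `NormedAddCommGroup` with `‖t • x‖ ≤ ‖x‖` for `|t| ≤ 1`. `norm_sum_smul_le`: `‖∑ c i • y i‖ ≤ ∑ ‖c i • y i‖ ≤ card * r` for `|c i| ≤ 1`. `norm_smul_le_nat`: `‖t • x‖ ≤ n * ‖x‖` for `|t| ≤ n` (`t • x = n • ((t / n) • x)`, `norm_nsmul_le`).
`combo_near`: two convex combinations with the same weights `bc x`.
-/

namespace Pool.Agent.LibGC20

variable {E : Type*} [NormedAddCommGroup E] [Module ℝ E]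

theorem norm_sum_smul_le (hF : ∀ (t : ℝ) (x : E), |t| ≤ 1 → ‖t • x‖ ≤ ‖x‖) {ι : Type*} (s : Finset ι) (c : ι → ℝ)
    (y : ι → E) {r : ℝ} (hc : ∀ i ∈ s, |c i| ≤ 1) (hy : ∀ i ∈ s, ‖y i‖ ≤ r) : ‖∑ i ∈ s, c i • y i‖ ≤ s.card * r := by
  have h1 : ‖∑ i ∈ s, c i • y i‖ ≤ ∑ i ∈ s, ‖c i • y i‖ := norm_sum_le s fun i => c i • y i
  have h2 : ∑ i ∈ s, ‖c i • y i‖ ≤ ∑ _i ∈ s, r :=
    Finset.sum_le_sum fun i hi => (hF (c i) (y i) (hc i hi)).trans (hy i hi)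
  rw [Finset.sum_const, nsmul_eq_mul] at h2
  exact h1.trans h2

theorem norm_smul_le_nat (hF : ∀ (t : ℝ) (x : E), |t| ≤ 1 → ‖t • x‖ ≤ ‖x‖) (n : ℕ) {t : ℝ} (ht : |t| ≤ n) (x : E) :
    ‖t • x‖ ≤ n * ‖x‖ := by
  rcases Nat.eq_zero_or_pos n with rfl | hn
  · have h1 : t = 0 := by
      have h2 : |t| ≤ 0 := by simpa using ht
      exact abs_nonpos_iff.1 h2
    rw [h1, zero_smul]
    simp
  · have hn' : (0 : ℝ) < n := by exact_mod_cast hn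
    have h1 : t • x = (n : ℕ) • ((t / n) • x) := by
      rw [← Nat.cast_smul_eq_nsmul ℝ, smul_smul]
      congr 1
      field_simp
    have h2 : |t / n| ≤ 1 := by
      rw [abs_div, abs_of_pos hn', div_le_one hn']
      exact ht
    rw [h1]
    have h3 : ‖(n : ℕ) • ((t / n) • x)‖ ≤ n * ‖(t / n) • x‖ := norm_nsmul_le
    exact h3.trans (mul_le_mul_of_nonneg_left (hF _ _ h2) hn'.le)

theorem norm_smul_mono (hF : ∀ (t : ℝ) (x : E), |t| ≤ 1 → ‖t • x‖ ≤ ‖x‖) {s t : ℝ} (hs : 0 ≤ s) (hst : s ≤ t) (x : E) :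
    ‖s • x‖ ≤ ‖t • x‖ := by
  rcases hs.eq_or_lt with h0 | h0
  · rw [← h0, zero_smul, norm_zero]
    exact norm_nonneg _
  · have ht : 0 < t := lt_of_lt_of_le h0 hst
    have h1 : s • x = (s / t) • (t • x) := by
      rw [smul_smul]
      congr 1
      field_simp
    rw [h1]
    refine hF _ _ ?_
    rw [abs_of_nonneg (div_nonneg hs ht.le), div_le_one ht]
    exact hst

theorem smul_tendsto [ContinuousSMul ℝ E] (x : E) {ε : ℝ} (hε : 0 < ε) : ∃ c : ℝ, 0 < c ∧ ∀ t : ℝ, |t| ≤ c → ‖t • x‖ < ε := by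
  have h1 : Filter.Tendsto (fun t : ℝ => ‖t • x‖) (nhds 0) (nhds 0) := by
    have h2 : Continuous fun t : ℝ => ‖t • x‖ := (continuous_id.smul continuous_const).norm
    have h3 := h2.tendsto 0
    simpa using h3
  have h4 : ∀ᶠ t in nhds (0 : ℝ), ‖t • x‖ < ε := h1.eventually (gt_mem_nhds hε)
  obtain ⟨d, hd, h5⟩ := Metric.eventually_nhds_iff.1 h4
  refine ⟨d / 2, half_pos hd, fun t ht => h5 ?_⟩
  rw [Real.dist_eq, sub_zero]
  linarith [half_lt_self hd]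

end Pool.Agent.LibGC20
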