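import Mathlib

/-!
[GC20 R3] (SMALL, only Mathlib) HOMOGENEOUS EXTENSION of a continuous map on the unit sphere. `φ w = g w • φ₀ (w / ‖w‖)` for `w ≠ 0`, `φ 0 = 0`. Continuity at `w ≠ 0` clear; at `0`: `φ₀` is bounded on the (compact) sphere and `g` is continuous with `g 0 = 0` (take `s = 0`). Homogeneity: `s > 0` does not change `w / ‖w‖`; `s = 0` gives `0`.
-/

namespace Pool.Agent.LibGC20

private theorem R3_mem {W : Type*} [NormedAddCommGroup W] [NormedSpace ℝ W] {w : W} (hw : w ≠ 0) :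
    ‖w‖⁻¹ • w ∈ Metric.sphere (0 : W) 1 := by
  rw [mem_sphere_zero_iff_norm, norm_smul, norm_inv, norm_norm]
  exact inv_mul_cancel₀ (norm_ne_zero_iff.2 hw)

open Classical in
/-- the map on the rays -/
private noncomputable def R3_psi {W X : Type*} [NormedAddCommGroup W] [NormedSpace ℝ W]
    [NormedAddCommGroup X] [NormedSpace ℝ X] (φ₀ : C(Metric.sphere (0 : W) 1, X)) (w : W) : X :=
  if h : w = 0 then 0 else φ₀ ⟨‖w‖⁻¹ • w, R3_mem h⟩

theorem homog_ext {W X : Type*} [NormedAddCommGroup W] [NormedSpace ℝ W] [FiniteDimensional ℝ W]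
    [NormedAddCommGroup X] [NormedSpace ℝ X] (φ₀ : C(Metric.sphere (0 : W) 1, X)) (g : W → ℝ) (hg : Continuous g)
    (hg0 : ∀ (s : ℝ) (w : W), 0 ≤ s → g (s • w) = s * g w) :
    ∃ φ : W → X, Continuous φ ∧ (∀ (s : ℝ) (w : W), 0 ≤ s → φ (s • w) = s • φ w) ∧
      ∀ (w : W) (hw : w ∈ Metric.sphere (0 : W) 1), φ w = g w • φ₀ ⟨w, hw⟩ := by
  have hg00 : g 0 = 0 := by
    have h := hg0 0 0 le_rfl
    rwa [zero_smul, zero_mul] at h
  have hψ0 : R3_psi φ₀ 0 = 0 := by
    unfold R3_psi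
    rw [dif_pos rfl]
  have hψ1 : ∀ (w : W) (h : w ≠ 0), R3_psi φ₀ w = φ₀ ⟨‖w‖⁻¹ • w, R3_mem h⟩ := by
    intro w h
    unfold R3_psi
    rw [dif_neg h]
  have : ProperSpace W := FiniteDimensional.proper_real W
  have : CompactSpace (Metric.sphere (0 : W) 1) := isCompact_iff_compactSpace.1 (isCompact_sphere _ _)
  have hbd : ∀ w, ‖R3_psi φ₀ w‖ ≤ ‖φ₀‖ := by
    intro w
    by_cases h : w = 0
    · rw [h, hψ0, norm_zero]; exact norm_nonneg _
    · rw [hψ1 w h]; exact φ₀.norm_coe_le_norm _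
  have hcont : ContinuousOn (R3_psi φ₀) {w : W | w ≠ 0} := by
    rw [continuousOn_iff_continuous_domRestrict]
    have h1 : ({w : W | w ≠ 0}.domRestrict (R3_psi φ₀)) =
        fun w : {w : W | w ≠ 0} => φ₀ ⟨‖w.1‖⁻¹ • w.1, R3_mem w.2⟩ := by
      funext w
      exact hψ1 w.1 w.2
    rw [h1]
    refine φ₀.continuous.comp (Continuous.subtype_mk ?_ _)
    refine Continuous.smul ?_ continuous_subtype_val
    exact (continuous_norm.comp continuous_subtype_val).inv₀ fun w => norm_ne_zero_iff.2 w.2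
  refine ⟨fun w => g w • R3_psi φ₀ w, ?_, ?_, ?_⟩
  · rw [continuous_iff_continuousAt]
    intro w
    by_cases h : w = 0
    · subst h
      have h2 : Filter.Tendsto (fun w : W => ‖g w‖ * ‖φ₀‖) (nhds 0) (nhds 0) := by
        have h3 : Continuous fun w : W => ‖g w‖ * ‖φ₀‖ := by fun_prop
        have h4 := h3.tendsto 0
        rwa [hg00, norm_zero, zero_mul] at h4
      have h5 : g 0 • R3_psi φ₀ 0 = 0 := by rw [hg00, zero_smul]
      change Filter.Tendsto (fun w => g w • R3_psi φ₀ w) (nhds 0) (nhds (g 0 • R3_psi φ₀ 0))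
      rw [h5]
      refine squeeze_zero_norm (fun w => ?_) h2
      rw [norm_smul]
      exact mul_le_mul_of_nonneg_left (hbd w) (norm_nonneg _)
    · have hopen : IsOpen {w : W | w ≠ 0} := isOpen_ne
      exact hg.continuousAt.smul (hcont.continuousAt (hopen.mem_nhds h))
  · intro s w hs
    have h1 : g (s • w) • R3_psi φ₀ (s • w) = s • (g w • R3_psi φ₀ w) := by
      rcases hs.eq_or_lt with h | h
      · rw [← h, zero_smul, zero_smul, hg00, zero_smul]
      · by_cases hw : w = 0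
        · rw [hw, smul_zero, hψ0, smul_zero, smul_zero]
        · have hsw : s • w ≠ 0 := smul_ne_zero h.ne' hw
          have h6 : ‖s • w‖⁻¹ • (s • w) = ‖w‖⁻¹ • w := by
            rw [norm_smul, Real.norm_eq_abs, abs_of_pos h, smul_smul]
            congr 1
            rw [mul_inv, mul_comm s⁻¹, mul_assoc, inv_mul_cancel₀ h.ne', mul_one]
          have h7 : R3_psi φ₀ (s • w) = R3_psi φ₀ w := by
            rw [hψ1 _ hsw, hψ1 _ hw]
            congr 1
            exact Subtype.ext h6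
          rw [h7, hg0 s w hs, mul_smul]
    exact h1
  · intro w hw
    have hn : ‖w‖ = 1 := mem_sphere_zero_iff_norm.1 hw
    have hw0 : w ≠ 0 := by
      intro h
      rw [h, norm_zero] at hn
      exact zero_ne_one hn
    have h1 : R3_psi φ₀ w = φ₀ ⟨w, hw⟩ := by
      rw [hψ1 w hw0]
      congr 1
      refine Subtype.ext ?_
      change ‖w‖⁻¹ • w = w
      rw [hn, inv_one, one_smul]
    change g w • R3_psi φ₀ w = _
    rw [h1]

end Pool.Agent.LibGC20
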