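import Pool.Agent.LibGC20.Defs

/-!
[GC20 S2] (SMALL, only Mathlib) The projection `B = Prod.snd '' C` of a compact convex neighbourhood `C` of `0`: compact, convex, a neighbourhood of `0` (`isOpenMap_snd`); its gauge is continuous (`continuous_gauge`), homogeneous, positive off `0` (`gauge_pos`, bounded), `≤ 1` on `B`; and for `w ≠ 0` the end point `(gauge B w)⁻¹ • w` is in `B` (closed: `gauge_le_one_iff_mem_closure` or `mem_of gauge = 1`).
-/

namespace Pool.Agent.LibGC20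

variable {X W : Type*} [NormedAddCommGroup X] [NormedSpace ℝ X] [NormedAddCommGroup W] [NormedSpace ℝ W]

private theorem S2_conv {C : Set (X × W)} (hc : Convex ℝ C) : Convex ℝ (Prod.snd '' C) :=
  hc.linear_image (LinearMap.snd ℝ X W)

private theorem S2_nhds {C : Set (X × W)} (h0 : C ∈ nhds 0) : Prod.snd '' C ∈ nhds (0 : W) := by
  have h := isOpenMap_snd.image_mem_nhds h0
  simpa using h

private theorem S2_comp {C : Set (X × W)} (hC : IsCompact C) : IsCompact (Prod.snd '' C) :=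
  hC.image continuous_snd

theorem gB_cont {C : Set (X × W)} (hc : Convex ℝ C) (h0 : C ∈ nhds 0) : Continuous (gauge (Prod.snd '' C)) :=
  continuous_gauge (S2_conv hc) (S2_nhds h0)

theorem gB_smul (C : Set (X × W)) {s : ℝ} (hs : 0 ≤ s) (w : W) : gauge (Prod.snd '' C) (s • w) = s * gauge (Prod.snd '' C) w := by
  rw [gauge_smul_of_nonneg hs, smul_eq_mul]

theorem gB_pos {C : Set (X × W)} (hC : IsCompact C) (h0 : C ∈ nhds 0) {w : W} (hw : w ≠ 0) : 0 < gauge (Prod.snd '' C) w :=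
  (gauge_pos (absorbent_nhds_zero (S2_nhds h0))
    ((NormedSpace.isVonNBounded_iff ℝ).2 (S2_comp hC).isBounded)).2 hw

theorem gB_le {C : Set (X × W)} {z : X × W} (hz : z ∈ C) : gauge (Prod.snd '' C) z.2 ≤ 1 :=
  gauge_le_one_of_mem ⟨z, hz, rfl⟩

theorem gB_end {C : Set (X × W)} (hC : IsCompact C) (hc : Convex ℝ C) (h0 : C ∈ nhds 0) {w : W} (hw : w ≠ 0) :
    ∃ z ∈ C, z.2 = (gauge (Prod.snd '' C) w)⁻¹ • w := by
  have hp := gB_pos hC h0 hw
  have h1 : gauge (Prod.snd '' C) ((gauge (Prod.snd '' C) w)⁻¹ • w) ≤ 1 := by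
    rw [gB_smul C (inv_nonneg.2 hp.le), inv_mul_cancel₀ hp.ne']
  rw [gauge_le_one_iff_mem_closure (S2_conv hc) (S2_nhds h0), (S2_comp hC).isClosed.closure_eq] at h1
  obtain ⟨z, hz, hz2⟩ := h1
  exact ⟨z, hz, hz2⟩

end Pool.Agent.LibGC20
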