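import Mathlib

/-!
[GC20 R2] (SMALL, only Mathlib) The gauge of a convex set with respect to a moving interior centre is jointly continuous. Write `N a v = gauge {v | a + v ∈ C} v`. Let `closedBall a₀ (2 * ρ) ⊆ C`; for `a` in `closedBall a₀ ρ` the set `C - a` contains `closedBall 0 ρ`, so `N a v ≤ ‖v‖ / ρ` (`gauge_le_of_subset_smul_of_absorbs`, `gauge_mono`, `gauge_closedBall` ..), `|N a v - N a v'| ≤ ‖v - v'‖ / ρ`
(`gauge_add_le`), and `N a' v ≤ N a v * (1 + ‖a - a'‖ / ρ)`: if `v = r • (c - a)`, `c ∈ C`, `r > N a v`, then `v = r • (c - a') + r • (a' - a)`, and `N a' (c - a') ≤ 1`, `N a' (a' - a) ≤ ‖a' - a‖ / ρ`. So `|N a' v' - N a v| ≤ ‖v' - v‖ / ρ + ‖a' - a‖ / ρ * max (N a v) (N a' v)` near `(a₀, v₀)`.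
-/

namespace Pool.Agent.LibGC20

open Set

private lemma R2_nhds {V : Type*} [NormedAddCommGroup V] [NormedSpace ℝ V] {C : Set V} {a : V}
    (ha : a ∈ interior C) : {v | a + v ∈ C} ∈ nhds (0 : V) := by
  have hcont : ContinuousAt (fun v : V => a + v) 0 := by fun_prop
  have hC : C ∈ nhds (a + 0) := by rw [add_zero]; exact mem_interior_iff_mem_nhds.1 ha
  exact hcont hC

private lemma R2_convex {V : Type*} [NormedAddCommGroup V] [NormedSpace ℝ V] {C : Set V} (hc : Convex ℝ C) (a : V) :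
    Convex ℝ {v | a + v ∈ C} := by
  have h := hc.translate_preimage_left a
  have he : {v | a + v ∈ C} = (fun z => z + a) ⁻¹' C := by
    ext v; simp [add_comm]
  rw [he]; exact h

private lemma R2_ball {V : Type*} [NormedAddCommGroup V] [NormedSpace ℝ V] {C : Set V} {a₀ a : V} {ρ : ℝ}
    (hb : Metric.closedBall a₀ (2 * ρ) ⊆ C) (ha : a ∈ Metric.closedBall a₀ ρ) :
    Metric.closedBall (0 : V) ρ ⊆ {v | a + v ∈ C} := by
  intro v hv
  apply hb
  rw [Metric.mem_closedBall, dist_eq_norm] at ha ⊢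
  rw [mem_closedBall_zero_iff] at hv
  calc ‖a + v - a₀‖ = ‖(a - a₀) + v‖ := by congr 1; abel
    _ ≤ ‖a - a₀‖ + ‖v‖ := norm_add_le _ _
    _ ≤ 2 * ρ := by linarith

private lemma R2_le {V : Type*} [NormedAddCommGroup V] [NormedSpace ℝ V] {C : Set V} {a₀ a : V} {ρ : ℝ} (hρ : 0 < ρ)
    (hb : Metric.closedBall a₀ (2 * ρ) ⊆ C) (ha : a ∈ Metric.closedBall a₀ ρ) (v : V) :
    gauge {v | a + v ∈ C} v ≤ ‖v‖ / ρ := by
  have h := gauge_mono (absorbent_nhds_zero (𝕜 := ℝ) (Metric.closedBall_mem_nhds (0 : V) hρ)) (R2_ball hb ha) v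
  rwa [gauge_closedBall hρ.le] at h

private lemma R2_move {V : Type*} [NormedAddCommGroup V] [NormedSpace ℝ V] {C : Set V} (hc : Convex ℝ C) {a₀ a a' : V} {ρ : ℝ}
    (hρ : 0 < ρ) (hb : Metric.closedBall a₀ (2 * ρ) ⊆ C) (ha : a ∈ Metric.closedBall a₀ ρ)
    (ha' : a' ∈ Metric.closedBall a₀ ρ) (v : V) :
    gauge {v | a' + v ∈ C} v ≤ gauge {v | a + v ∈ C} v * (1 + ‖a' - a‖ / ρ) := by
  have habs : ∀ b ∈ Metric.closedBall a₀ ρ, Absorbent ℝ {v | b + v ∈ C} := fun b hb' =>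
    absorbent_nhds_zero (Filter.mem_of_superset (Metric.closedBall_mem_nhds (0 : V) hρ) (R2_ball hb hb'))
  have hδ : 0 < 1 + ‖a' - a‖ / ρ := by positivity
  rw [← div_le_iff₀ hδ]
  refine le_of_forall_gt_imp_ge_of_dense fun r hr => ?_
  obtain ⟨b, hb0, hbr, hvb⟩ := exists_lt_of_gauge_lt (habs a ha) hr
  obtain ⟨w, hw, rfl⟩ := Set.mem_smul_set.1 hvb
  rw [div_le_iff₀ hδ]
  have e : b • w = b • (a + w - a') + b • (a' - a) := by
    rw [← smul_add]; congr 1; abel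
  have h1 : gauge {v | a' + v ∈ C} (a + w - a') ≤ 1 := by
    apply gauge_le_one_of_mem
    show a' + (a + w - a') ∈ C
    have : a' + (a + w - a') = a + w := by abel
    rw [this]; exact hw
  have h2 : gauge {v | a' + v ∈ C} (a' - a) ≤ ‖a' - a‖ / ρ := R2_le hρ hb ha' _
  calc gauge {v | a' + v ∈ C} (b • w) = gauge {v | a' + v ∈ C} (b • (a + w - a') + b • (a' - a)) := by rw [← e]
    _ ≤ gauge {v | a' + v ∈ C} (b • (a + w - a')) + gauge {v | a' + v ∈ C} (b • (a' - a)) :=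
        gauge_add_le (R2_convex hc a') (habs a' ha') _ _
    _ = b * gauge {v | a' + v ∈ C} (a + w - a') + b * gauge {v | a' + v ∈ C} (a' - a) := by
        rw [gauge_smul_of_nonneg hb0.le, gauge_smul_of_nonneg hb0.le, smul_eq_mul, smul_eq_mul]
    _ ≤ b * 1 + b * (‖a' - a‖ / ρ) := by gcongr
    _ = b * (1 + ‖a' - a‖ / ρ) := by ring
    _ ≤ r * (1 + ‖a' - a‖ / ρ) := by gcongr

theorem gauge_joint {V : Type*} [NormedAddCommGroup V] [NormedSpace ℝ V] {C : Set V} (hc : Convex ℝ C) :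
    ContinuousOn (fun p : V × V => gauge {v | p.1 + v ∈ C} p.2) (interior C ×ˢ univ) := by
  rintro ⟨a₀, v₀⟩ ⟨ha₀, -⟩
  refine ContinuousAt.continuousWithinAt ?_
  simp only at ha₀
  obtain ⟨R, hR, hRC⟩ := Metric.nhds_basis_closedBall.mem_iff.1 (mem_interior_iff_mem_nhds.1 ha₀)
  set ρ : ℝ := R / 2 with hρdef
  have hρ : 0 < ρ := by positivity
  have hb : Metric.closedBall a₀ (2 * ρ) ⊆ C := by
    have : 2 * ρ = R := by rw [hρdef]; ring
    rw [this]; exact hRC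
  have ha₀' : a₀ ∈ Metric.closedBall a₀ ρ := Metric.mem_closedBall_self hρ.le
  have key : ∀ p : V × V, p.1 ∈ Metric.closedBall a₀ ρ →
      ‖gauge {v | p.1 + v ∈ C} p.2 - gauge {v | a₀ + v ∈ C} v₀‖ ≤
        ‖p.2 - v₀‖ / ρ + ‖p.1 - a₀‖ / ρ * (‖v₀‖ / ρ) := by
    rintro ⟨a, v⟩ ha
    simp only at ha ⊢
    have habs : Absorbent ℝ {v | a + v ∈ C} :=
      absorbent_nhds_zero (Filter.mem_of_superset (Metric.closedBall_mem_nhds (0 : V) hρ) (R2_ball hb ha))
    have c1 : gauge {v | a + v ∈ C} v ≤ gauge {v | a + v ∈ C} v₀ + ‖v - v₀‖ / ρ := by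
      have h := gauge_add_le (R2_convex hc a) habs v₀ (v - v₀)
      rw [add_sub_cancel] at h
      exact h.trans (by gcongr; exact R2_le hρ hb ha _)
    have c2 : gauge {v | a + v ∈ C} v₀ ≤ gauge {v | a + v ∈ C} v + ‖v - v₀‖ / ρ := by
      have h := gauge_add_le (R2_convex hc a) habs v (v₀ - v)
      rw [add_sub_cancel] at h
      refine h.trans ?_
      have h' := R2_le hρ hb ha (v₀ - v)
      rw [norm_sub_rev] at h'
      linarith
    have c3 := R2_move hc hρ hb ha ha₀' v₀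
    have c4 := R2_move hc hρ hb ha₀' ha v₀
    have c5 := R2_le hρ hb ha v₀
    have c6 := R2_le hρ hb ha₀' v₀
    have hn : ‖a₀ - a‖ = ‖a - a₀‖ := norm_sub_rev _ _
    rw [hn] at c3
    have hδ : 0 ≤ ‖a - a₀‖ / ρ := by positivity
    have c7 : gauge {v | a + v ∈ C} v₀ * (‖a - a₀‖ / ρ) ≤ (‖v₀‖ / ρ) * (‖a - a₀‖ / ρ) := by gcongr
    have c8 : gauge {v | a₀ + v ∈ C} v₀ * (‖a - a₀‖ / ρ) ≤ (‖v₀‖ / ρ) * (‖a - a₀‖ / ρ) := by gcongr
    rw [Real.norm_eq_abs, abs_le]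
    constructor
    · nlinarith
    · nlinarith
  rw [ContinuousAt, tendsto_iff_norm_sub_tendsto_zero]
  have hlim : Filter.Tendsto (fun p : V × V => ‖p.2 - v₀‖ / ρ + ‖p.1 - a₀‖ / ρ * (‖v₀‖ / ρ)) (nhds (a₀, v₀)) (nhds 0) := by
    have hcont : Continuous (fun p : V × V => ‖p.2 - v₀‖ / ρ + ‖p.1 - a₀‖ / ρ * (‖v₀‖ / ρ)) := by fun_prop
    have h := hcont.tendsto (a₀, v₀)
    simpa using h
  refine squeeze_zero' (Filter.Eventually.of_forall fun p => norm_nonneg _) ?_ hlim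
  have hev : ∀ᶠ p : V × V in nhds (a₀, v₀), p.1 ∈ Metric.closedBall a₀ ρ :=
    continuous_fst.continuousAt.eventually (Metric.closedBall_mem_nhds a₀ hρ)
  filter_upwards [hev] with p hp
  exact key p hp

theorem gauge_centre_le_one {V : Type*} [NormedAddCommGroup V] [NormedSpace ℝ V] {C : Set V} (hc : Convex ℝ C)
    (hC : IsClosed C) {a : V} (ha : a ∈ interior C) (v : V) : gauge {v | a + v ∈ C} v ≤ 1 ↔ a + v ∈ C := by
  rw [gauge_le_one_iff_mem_closure (R2_convex hc a) (R2_nhds ha)]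
  have hcl : IsClosed {v | a + v ∈ C} := hC.preimage (by fun_prop)
  rw [hcl.closure_eq]
  rfl

theorem gauge_centre_pos {V : Type*} [NormedAddCommGroup V] [NormedSpace ℝ V] {C : Set V} (hC : IsCompact C) {a : V}
    (ha : a ∈ interior C) {v : V} (hv : v ≠ 0) : 0 < gauge {v | a + v ∈ C} v := by
  have hK : IsCompact ((fun c => c - a) '' C) := hC.image (by fun_prop)
  have he : {v | a + v ∈ C} = (fun c => c - a) '' C := by
    ext w
    constructor
    · intro hw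
      exact ⟨a + w, hw, by simp⟩
    · rintro ⟨c, hc, rfl⟩
      show a + (c - a) ∈ C
      rwa [add_sub_cancel]
  refine (gauge_pos (absorbent_nhds_zero (R2_nhds ha)) ?_).2 hv
  rw [he]
  exact NormedSpace.isVonNBounded_of_isBounded ℝ hK.isBounded

theorem gauge_smul_centre {V : Type*} [NormedAddCommGroup V] [NormedSpace ℝ V] (C : Set V) (a : V) {s : ℝ} (hs : 0 ≤ s) (v : V) :
    gauge {v | a + v ∈ C} (s • v) = s * gauge {v | a + v ∈ C} v := by
  rw [gauge_smul_of_nonneg hs, smul_eq_mul]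

end Pool.Agent.LibGC20
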