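import Mathlib

/-!
[GC20 R1] (MEDIUM, only Mathlib) RADIAL MAPS with a parameter `a ∈ S`, `S` compact. `κ (a, w) = (a, (f / g) (a, w) • w)`. CONTINUITY: at `(a, w)` with `w ≠ 0` clear (`g > 0`). At `(a, 0)`: by homogeneity `f (a, w) / g (a, w) = f (a, w/‖w‖) / g (a, w/‖w‖)` for `w ≠ 0`, which is bounded by a constant `M` on `S × sphere` (compact; the sphere is compact as `W` is finite-dimensional), so `‖(f/g) (a, w) • w‖ ≤ M ‖w‖`; `(f/g)(a, 0) • 0 = 0`.
INJECTIVE: if `κ (a, w) = κ (a, w')` and `w, w' ≠ 0` then `w' = s • w` with `s > 0` (both factors are positive), the ratio `f/g` is the same at `w` and `s • w`, so `s = 1`; `κ (a, w) = (a, 0)` only for `w = 0`. IMAGE: `g (κ (a, w)) = f (a, w)` (homogeneity, also for `w = 0`, where `f (a, 0) = g (a, 0) = 0`), and `(a, w) = κ (a, (g / f) (a, w) • w)`.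
-/

namespace Pool.Agent.LibGC20

open Set

variable {Z W : Type*} [TopologicalSpace Z] [NormedAddCommGroup W] [NormedSpace ℝ W] [FiniteDimensional ℝ W]

/-- the radial map -/
noncomputable def rad (f g : Z × W → ℝ) (p : Z × W) : Z × W := (p.1, (f p / g p) • p.2)

/-- `f` is positively homogeneous and positive in the second variable, over `S` -/
structure Hom (S : Set Z) (f : Z × W → ℝ) : Prop where
  cont : ContinuousOn f (S ×ˢ univ)
  hom : ∀ a ∈ S, ∀ s : ℝ, 0 ≤ s → ∀ w, f (a, s • w) = s * f (a, w)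
  pos : ∀ a ∈ S, ∀ w, w ≠ 0 → 0 < f (a, w)

private theorem R1_zero {S : Set Z} {f : Z × W → ℝ} (hf : Hom S f) {a : Z} (ha : a ∈ S) : f (a, 0) = 0 := by
  have h := hf.hom a ha 0 le_rfl 0
  simpa using h

private theorem R1_ratio {S : Set Z} {f g : Z × W → ℝ} (hf : Hom S f) (hg : Hom S g) {a : Z} (ha : a ∈ S) {s : ℝ}
    (hs : 0 < s) (w : W) : f (a, s • w) / g (a, s • w) = f (a, w) / g (a, w) := by
  rw [hf.hom a ha s hs.le w, hg.hom a ha s hs.le w, mul_div_mul_left _ _ hs.ne']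

private theorem R1_bound {S : Set Z} (hS : IsCompact S) {f g : Z × W → ℝ} (hf : Hom S f) (hg : Hom S g) :
    ∃ M : ℝ, ∀ q ∈ S ×ˢ (univ : Set W), ‖(f q / g q) • q.2‖ ≤ M * ‖q.2‖ := by
  have hK : IsCompact (S ×ˢ Metric.sphere (0 : W) 1) := hS.prod (isCompact_sphere 0 1)
  have hsub : S ×ˢ Metric.sphere (0 : W) 1 ⊆ S ×ˢ (univ : Set W) := prod_mono le_rfl (subset_univ _)
  have hc : ContinuousOn (fun q => f q / g q) (S ×ˢ Metric.sphere (0 : W) 1) := by
    apply ContinuousOn.div (hf.cont.mono hsub) (hg.cont.mono hsub)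
    rintro ⟨a, w⟩ ⟨ha, hw⟩
    have hw0 : w ≠ 0 := by
      rintro rfl
      simp at hw
    exact (hg.pos a ha w hw0).ne'
  obtain ⟨M, hM⟩ := hK.exists_bound_of_continuousOn hc
  refine ⟨M, ?_⟩
  rintro ⟨a, w⟩ ⟨ha, -⟩
  have ha : a ∈ S := ha
  by_cases hw : w = 0
  · subst hw
    simp
  · have hn : 0 < ‖w‖ := norm_pos_iff.2 hw
    have h1 : f (a, w) / g (a, w) = f (a, ‖w‖⁻¹ • w) / g (a, ‖w‖⁻¹ • w) :=
      (R1_ratio hf hg ha (inv_pos.2 hn) w).symm
    have h2 := hM (a, ‖w‖⁻¹ • w) ⟨ha, by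
      rw [mem_sphere_zero_iff_norm, norm_smul, norm_inv, norm_norm, inv_mul_cancel₀ hn.ne']⟩
    show ‖(f (a, w) / g (a, w)) • w‖ ≤ M * ‖w‖
    rw [norm_smul, h1]
    exact mul_le_mul_of_nonneg_right h2 (norm_nonneg _)

theorem rad_cont {S : Set Z} (hS : IsCompact S) {f g : Z × W → ℝ} (hf : Hom S f) (hg : Hom S g) :
    ContinuousOn (rad f g) (S ×ˢ univ) := by
  obtain ⟨M, hM⟩ := R1_bound hS hf hg
  unfold rad
  apply ContinuousOn.prodMk continuousOn_fst
  rintro ⟨a, w⟩ hp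
  have ha : a ∈ S := hp.1
  by_cases hw : w = 0
  · subst hw
    have h1 : ContinuousWithinAt (fun q : Z × W => M * ‖q.2‖) (S ×ˢ univ) (a, 0) := by
      apply Continuous.continuousWithinAt
      fun_prop
    have h2 : Filter.Tendsto (fun q : Z × W => M * ‖q.2‖) (nhdsWithin (a, 0) (S ×ˢ univ)) (nhds 0) := by
      have h3 := h1.tendsto
      simpa using h3
    have h4 : Filter.Tendsto (fun q : Z × W => (f q / g q) • q.2) (nhdsWithin (a, 0) (S ×ˢ univ)) (nhds 0) := by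
      apply squeeze_zero_norm' _ h2
      filter_upwards [self_mem_nhdsWithin] with q hq
      exact hM q hq
    show Filter.Tendsto _ _ _
    simpa using h4
  · have hg0 : g (a, w) ≠ 0 := (hg.pos a ha w hw).ne'
    exact ((hf.cont _ hp).div (hg.cont _ hp) hg0).smul continuousWithinAt_snd

theorem rad_inj {S : Set Z} {f g : Z × W → ℝ} (hf : Hom S f) (hg : Hom S g) : InjOn (rad f g) (S ×ˢ univ) := by
  rintro ⟨a, w⟩ hp ⟨b, w'⟩ hq h
  have ha : a ∈ S := hp.1
  simp only [rad, Prod.mk.injEq] at h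
  obtain ⟨rfl, h⟩ := h
  have hpos : ∀ v : W, v ≠ 0 → 0 < f (a, v) / g (a, v) := fun v hv => div_pos (hf.pos a ha v hv) (hg.pos a ha v hv)
  by_cases hw : w = 0
  · subst hw
    by_cases hw' : w' = 0
    · rw [hw']
    · exfalso
      rw [smul_zero] at h
      exact (smul_ne_zero (hpos w' hw').ne' hw') h.symm
  · by_cases hw' : w' = 0
    · exfalso
      subst hw'
      rw [smul_zero] at h
      exact (smul_ne_zero (hpos w hw).ne' hw) h
    · have hc := hpos w hw
      have hc' := hpos w' hw'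
      set c := f (a, w) / g (a, w) with hcd
      set c' := f (a, w') / g (a, w') with hcd'
      have h1 : w' = (c'⁻¹ * c) • w := by
        rw [mul_smul, h, smul_smul, inv_mul_cancel₀ hc'.ne', one_smul]
      have h2 : c' = c := by
        rw [hcd', h1, R1_ratio hf hg ha (mul_pos (inv_pos.2 hc') hc) w]
      rw [h1, h2, inv_mul_cancel₀ hc.ne', one_smul]

private theorem R1_val {S : Set Z} {f g : Z × W → ℝ} (hf : Hom S f) (hg : Hom S g) {p : Z × W} (hp : p.1 ∈ S) :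
    g (rad f g p) = f p := by
  obtain ⟨a, w⟩ := p
  have ha : a ∈ S := hp
  unfold rad
  by_cases hw : w = 0
  · subst hw
    simp only [smul_zero]
    rw [R1_zero hf ha, R1_zero hg ha]
  · have hf0 := hf.pos a ha w hw
    have hg0 := hg.pos a ha w hw
    show g (a, (f (a, w) / g (a, w)) • w) = f (a, w)
    rw [hg.hom a ha _ (div_pos hf0 hg0).le w, div_mul_cancel₀ _ hg0.ne']

private theorem R1_invol {S : Set Z} {f g : Z × W → ℝ} (hf : Hom S f) (hg : Hom S g) {p : Z × W} (hp : p.1 ∈ S) :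
    rad f g (rad g f p) = p := by
  obtain ⟨a, w⟩ := p
  have ha : a ∈ S := hp
  by_cases hw : w = 0
  · subst hw
    simp [rad]
  · have hf0 := hf.pos a ha w hw
    have hg0 := hg.pos a ha w hw
    show (a, (f (a, (g (a, w) / f (a, w)) • w) / g (a, (g (a, w) / f (a, w)) • w)) • (g (a, w) / f (a, w)) • w) = (a, w)
    rw [R1_ratio hf hg ha (div_pos hg0 hf0) w, smul_smul]
    have h1 : f (a, w) / g (a, w) * (g (a, w) / f (a, w)) = 1 := by
      field_simp
    rw [h1, one_smul]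

theorem rad_image {S : Set Z} {f g : Z × W → ℝ} (hf : Hom S f) (hg : Hom S g) :
    rad f g '' {p | p.1 ∈ S ∧ f p ≤ 1} = {p | p.1 ∈ S ∧ g p ≤ 1} := by
  apply Subset.antisymm
  · rintro _ ⟨p, ⟨hp, hf1⟩, rfl⟩
    refine ⟨hp, ?_⟩
    rw [R1_val hf hg hp]
    exact hf1
  · rintro p ⟨hp, hg1⟩
    refine ⟨rad g f p, ⟨hp, ?_⟩, R1_invol hf hg hp⟩
    rw [R1_val hg hf hp]
    exact hg1

end Pool.Agent.LibGC20
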