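import Mathlib

/-!
[GC20 F2] (SMALL, only Mathlib) Extend an injective linear map `ℝ^d → ℝ^(d+k)` to an isomorphism of `ℝ^d × ℝ^k`: a complement `W` of the range has dimension `k` (`Submodule.exists_isCompl`, `Submodule.prodEquivOfIsCompl`, `LinearEquiv.ofInjective`, `LinearEquiv.ofFinrankEq`).
-/

namespace Pool.Agent.LibGC20

theorem exists_iso {d k : ℕ} (L : (Fin d → ℝ) →ₗ[ℝ] (Fin (d + k) → ℝ)) (hL : Function.Injective L) :
    ∃ J : ((Fin d → ℝ) × (Fin k → ℝ)) ≃ₗ[ℝ] (Fin (d + k) → ℝ), ∀ x, J (x, 0) = L x := by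
  obtain ⟨W, hW⟩ := Submodule.exists_isCompl (LinearMap.range L)
  have h1 : Module.finrank ℝ (LinearMap.range L) = d := by
    rw [LinearMap.finrank_range_of_inj hL]; simp
  have h2 : Module.finrank ℝ (LinearMap.range L) + Module.finrank ℝ W = d + k := by
    rw [Submodule.finrank_add_eq_of_isCompl hW]; simp
  have h3 : Module.finrank ℝ (Fin k → ℝ) = Module.finrank ℝ W := by
    rw [Module.finrank_fin_fun]; omega
  let e1 : (Fin d → ℝ) ≃ₗ[ℝ] LinearMap.range L := LinearEquiv.ofInjective L hL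
  let e2 : (Fin k → ℝ) ≃ₗ[ℝ] W := LinearEquiv.ofFinrankEq _ _ h3
  refine ⟨(e1.prodCongr e2).trans (Submodule.prodEquivOfIsCompl _ _ hW), fun x => ?_⟩
  have h4 : (e1.prodCongr e2) (x, 0) = (e1 x, 0) := by
    ext <;> simp
  rw [LinearEquiv.trans_apply, h4, Submodule.coe_prodEquivOfIsCompl']
  simp [e1]

end Pool.Agent.LibGC20
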