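import Pool.Agent.LibGC20.Defs

/-!
[GC20 F3] (SMALL, only Mathlib) COMPOSITE PARAMETRIZATION. `u ↦ (h u, tm d k u)` is continuous with image `T d ×ˢ closedBall 0 1`: `|2 s - 1| ≤ 1` for `s ∈ [0,1]`; given `x = h u` and `t` in the ball, change the coordinates `d + j`, `j < k`, of `u` to `(t j + 1) / 2` (`h` depends only on the coordinates `< d` by `Good.inj`). Equality at `u` and `v` iff all coordinates `< d + k` agree. Then compose with `g` (`ContinuousOn.comp_continuous`).
-/

namespace Pool.Agent.LibGC20

open Set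

private theorem F3_abs (d k : ℕ) (u : ℕ → unitInterval) : tm d k u ∈ Metric.closedBall (0 : Fin k → ℝ) 1 := by
  rw [mem_closedBall_zero_iff, pi_norm_le_iff_of_nonneg zero_le_one]
  intro j
  have h1 := (u (d + j)).2.1
  have h2 := (u (d + j)).2.2
  simp only [tm, Real.norm_eq_abs]
  rw [abs_le]
  constructor <;> linarith

private theorem F3_cont (d k : ℕ) : Continuous (tm d k) := by
  refine continuous_pi fun j => ?_
  unfold tm
  fun_prop

private theorem F3_range {d k : ℕ} {h : (ℕ → unitInterval) → (Fin d → ℝ)} (hh : Good d h) :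
    range (fun u => (h u, tm d k u)) = T d ×ˢ Metric.closedBall (0 : Fin k → ℝ) 1 := by
  ext ⟨x, t⟩
  constructor
  · rintro ⟨u, hu⟩
    have h1 : h u = x := congrArg Prod.fst hu
    have h2 : tm d k u = t := congrArg Prod.snd hu
    refine ⟨?_, ?_⟩
    · change x ∈ T d
      rw [← hh.ran, ← h1]
      exact mem_range_self u
    · change t ∈ _
      rw [← h2]
      exact F3_abs d k u
  · rintro ⟨hx, ht⟩
    change x ∈ T d at hx
    change t ∈ Metric.closedBall (0 : Fin k → ℝ) 1 at ht
    rw [← hh.ran] at hx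
    obtain ⟨u, hu⟩ := hx
    rw [mem_closedBall_zero_iff, pi_norm_le_iff_of_nonneg zero_le_one] at ht
    have hI : ∀ j : Fin k, (t j + 1) / 2 ∈ unitInterval := by
      intro j
      have h1 := ht j
      rw [Real.norm_eq_abs, abs_le] at h1
      constructor <;> linarith [h1.1, h1.2]
    obtain ⟨v, hv⟩ : ∃ v : ℕ → unitInterval, v = fun i => if hi : i < d then u i else
      if hk : i - d < k then ⟨(t ⟨i - d, hk⟩ + 1) / 2, hI _⟩ else u i := ⟨_, rfl⟩
    refine ⟨v, Prod.ext ?_ ?_⟩
    · change h v = x
      rw [← hu, hh.inj]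
      intro i hi
      simp [hv, hi]
    · change tm d k v = t
      funext j
      have h1 : ¬ (d + (j : ℕ) < d) := by omega
      have h2 : d + (j : ℕ) - d < k := by have := j.2; omega
      simp only [tm, hv, h1, h2, dite_true, dite_false]
      have h3 : (⟨d + (j : ℕ) - d, h2⟩ : Fin k) = j := by
        apply Fin.ext
        simp
      rw [h3]
      ring

theorem good_comp {d k : ℕ} {h : (ℕ → unitInterval) → (Fin d → ℝ)} (hh : Good d h)
    {g : (Fin d → ℝ) × (Fin k → ℝ) → (Fin (d + k) → ℝ)} (hg : ContinuousOn g (T d ×ˢ Metric.closedBall 0 1))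
    (hi : InjOn g (T d ×ˢ Metric.closedBall 0 1)) (hr : g '' (T d ×ˢ Metric.closedBall 0 1) = T (d + k)) :
    Good (d + k) fun u => g (h u, tm d k u) := by
  have hmem : ∀ u, (h u, tm d k u) ∈ T d ×ˢ Metric.closedBall (0 : Fin k → ℝ) 1 := by
    intro u
    rw [← F3_range hh]
    exact mem_range_self u
  refine ⟨?_, ?_, ?_⟩
  · exact hg.comp_continuous (hh.cont.prodMk (F3_cont d k)) hmem
  · intro u v
    rw [hi.eq_iff (hmem u) (hmem v), Prod.mk.injEq, hh.inj]
    constructor
    · rintro ⟨h1, h2⟩ i hi'
      by_cases hd : i < d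
      · exact h1 i hd
      · have h3 := congrFun h2 ⟨i - d, by omega⟩
        simp only [tm] at h3
        have h4 : d + (i - d) = i := by omega
        rw [h4] at h3
        apply Subtype.ext
        linarith
    · intro h1
      refine ⟨fun i hi' => h1 i (by omega), ?_⟩
      funext j
      simp only [tm]
      rw [h1 (d + j) (by have := j.2; omega)]
  · have h1 : range (fun u => g (h u, tm d k u)) = g '' range (fun u => (h u, tm d k u)) := by
      rw [← range_comp]
      rfl
    rw [h1, F3_range hh, hr]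

theorem tm_mem (d k : ℕ) (u : ℕ → unitInterval) : tm d k u ∈ Metric.closedBall (0 : Fin k → ℝ) 1 := F3_abs d k u

end Pool.Agent.LibGC20
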