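import Mathlib

/-!
[GC20 L1] (MEDIUM, only Mathlib) LIMIT OF STAGES. `‖f m u - f n u‖ ≤ β n / 4` for `m ≥ n` (`β (n+1) ≤ β n / 2`, telescoping: `≤ (β n - β m) / 4`), so `f n u` is Cauchy, uniformly in `u`; it has a limit in `K`: choose `z n ∈ K` with `‖f n u - z n‖ ≤ (1/2)^n`, a subsequence of `z n` converges in the compact set `K`, and a Cauchy sequence with a convergent subsequence converges (`tendsto_nhds_of_cauchySeq_of_subseq`).
`H u` = the limit, `‖H u - f n u‖ ≤ β n / 4`, `H` continuous (uniform limit, `TendstoUniformly.continuous`). INJECTIVE: `H u = H v` gives `‖f n u - f n v‖ ≤ β n / 2`, so `dist (u i) (v i) ≤ (1/2)^n` for all `n` with `i < d n`, i.e. all large `n` (`StrictMono`: `n ≤ d n`). SURJECTIVE onto `K`: `z ∈ K`, `u n` with `‖f n (u n) - z‖ ≤ (1/2)^n`, so `‖H (u n) - z‖ ≤ (1/2)^n + β n / 4`: `z ∈ closure (range H) = range H` (compact).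
A continuous bijection from the compact space `ℕ → unitInterval` onto the Hausdorff space `K` is a homeomorphism (`Continuous.homeoOfEquivCompactToT2`, `isHomeomorph_iff_continuous_bijective`).
-/

namespace Pool.Agent.LibGC20

open Filter Topology in
theorem limit_homeo {E : Type*} [NormedAddCommGroup E] {K : Set E} (hK : IsCompact K) (f : ℕ → (ℕ → unitInterval) → E)
    (hf : ∀ n, Continuous (f n)) (d : ℕ → ℕ) (hd : StrictMono d) (β : ℕ → ℝ) (hβ : ∀ n, 0 < β n)
    (half : ∀ n, β (n + 1) ≤ β n / 2) (hle : ∀ n, β n ≤ (1 / 2) ^ n)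
    (modu : ∀ n u v, ‖f n u - f n v‖ ≤ β n → ∀ i < d n, dist (u i) (v i) ≤ (1 / 2 : ℝ) ^ n)
    (step : ∀ n u, ‖f (n + 1) u - f n u‖ ≤ β n / 8) (c1 : ∀ n u, ∃ z ∈ K, ‖f n u - z‖ ≤ (1 / 2) ^ n)
    (c2 : ∀ n, ∀ z ∈ K, ∃ u, ‖f n u - z‖ ≤ (1 / 2) ^ n) : Nonempty (K ≃ₜ (ℕ → unitInterval)) := by
  have hpow : Tendsto (fun n : ℕ => (1 / 2 : ℝ) ^ n) atTop (𝓝 0) :=
    tendsto_pow_atTop_nhds_zero_of_lt_one (by norm_num) (by norm_num)
  have hβ0 : Tendsto β atTop (𝓝 0) :=
    squeeze_zero (fun n => (hβ n).le) hle hpow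
  have tele : ∀ u n k, ‖f (n + k) u - f n u‖ ≤ (β n - β (n + k)) / 4 := by
    intro u n k
    induction k with
    | zero => simp
    | succ k ih =>
      have h1 := step (n + k) u
      have h2 := half (n + k)
      have h3 : f (n + (k + 1)) u - f n u = (f (n + k + 1) u - f (n + k) u) + (f (n + k) u - f n u) := by
        rw [← add_assoc]; abel
      rw [h3]
      have h4 := norm_add_le (f (n + k + 1) u - f (n + k) u) (f (n + k) u - f n u)
      have h5 : β (n + (k + 1)) = β (n + k + 1) := by rw [add_assoc]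
      rw [h5]
      linarith
  have cau : ∀ u, CauchySeq (fun n => f n u) := by
    intro u
    refine cauchySeq_of_le_geometric (1 / 2) (1 / 8) (by norm_num) ?_
    intro n
    rw [dist_comm, dist_eq_norm]
    have h1 := step n u
    have h2 := hle n
    linarith
  have lim : ∀ u, ∃ a ∈ K, Tendsto (fun n => f n u) atTop (𝓝 a) := by
    intro u
    choose z hz hzd using fun n => c1 n u
    obtain ⟨a, ha, φ, hφ, hφt⟩ := hK.tendsto_subseq hz
    refine ⟨a, ha, ?_⟩
    refine tendsto_nhds_of_cauchySeq_of_subseq (cau u) hφ.tendsto_atTop ?_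
    have h1 : Tendsto (fun k => f (φ k) u - z (φ k)) atTop (𝓝 0) := by
      rw [tendsto_zero_iff_norm_tendsto_zero]
      exact squeeze_zero (fun k => norm_nonneg _) (fun k => hzd (φ k)) (hpow.comp hφ.tendsto_atTop)
    have h2 := h1.add hφt
    simp only [zero_add] at h2
    refine h2.congr ?_
    intro k
    simp [Function.comp]
  choose H hHK hHt using lim
  have hHn : ∀ n u, ‖H u - f n u‖ ≤ β n / 4 := by
    intro n u
    have h1 : Tendsto (fun m => ‖f m u - f n u‖) atTop (𝓝 ‖H u - f n u‖) :=
      ((hHt u).sub_const (f n u)).norm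
    refine le_of_tendsto h1 ?_
    filter_upwards [eventually_ge_atTop n] with m hm
    obtain ⟨k, rfl⟩ := Nat.exists_eq_add_of_le hm
    have h2 := tele u n k
    have h3 := hβ (n + k)
    linarith
  have hHc : Continuous H := by
    have hu : TendstoUniformly f H atTop := by
      rw [Metric.tendstoUniformly_iff]
      intro ε hε
      have h1 : ∀ᶠ n in atTop, β n < ε := (tendsto_order.1 hβ0).2 ε hε
      filter_upwards [h1] with n hn u
      rw [dist_eq_norm]
      have h2 := hHn n u
      have h3 := hβ n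
      linarith
    exact hu.continuous (Filter.Frequently.of_forall hf)
  have hinj : Function.Injective H := by
    intro u v huv
    funext i
    rw [← dist_le_zero]
    refine ge_of_tendsto (hpow) ?_
    filter_upwards [eventually_gt_atTop i] with n hn
    have h1 : ‖f n u - f n v‖ ≤ β n := by
      have h2 : f n u - f n v = (H v - f n v) - (H u - f n u) := by rw [huv]; abel
      rw [h2]
      have h3 := norm_sub_le (H v - f n v) (H u - f n u)
      have h4 := hHn n u
      have h5 := hHn n v
      have h6 := hβ n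
      linarith
    exact modu n u v h1 i (lt_of_lt_of_le hn (hd.le_apply))
  have hsurj : ∀ z ∈ K, ∃ u, H u = z := by
    intro z hz
    have hcl : IsClosed (Set.range H) := (isCompact_range hHc).isClosed
    choose w hw using fun n => c2 n z hz
    have h1 : Tendsto (fun n => H (w n)) atTop (𝓝 z) := by
      have h2 : Tendsto (fun n => H (w n) - z) atTop (𝓝 0) := by
        rw [tendsto_zero_iff_norm_tendsto_zero]
        have h3 : Tendsto (fun n => β n / 4 + (1 / 2 : ℝ) ^ n) atTop (𝓝 0) := by
          have h4 := (hβ0.div_const 4).add hpow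
          simpa using h4
        refine squeeze_zero (fun n => norm_nonneg _) (fun n => ?_) h3
        have h5 : H (w n) - z = (H (w n) - f n (w n)) + (f n (w n) - z) := by abel
        rw [h5]
        exact (norm_add_le _ _).trans (add_le_add (hHn n (w n)) (hw n))
      have h6 := h2.add_const z
      simpa using h6
    have h7 : z ∈ closure (Set.range H) :=
      mem_closure_of_tendsto h1 (Eventually.of_forall fun n => ⟨w n, rfl⟩)
    rw [hcl.closure_eq] at h7
    exact h7
  have hb : Function.Bijective (fun u => (⟨H u, hHK u⟩ : K)) := by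
    refine ⟨fun u v huv => hinj (congrArg Subtype.val huv), fun z => ?_⟩
    obtain ⟨u, hu⟩ := hsurj z.1 z.2
    exact ⟨u, Subtype.ext hu⟩
  have hcont : Continuous (Equiv.ofBijective _ hb) := by
    exact hHc.subtype_mk hHK
  exact ⟨(hcont.homeoOfEquivCompactToT2).symm⟩

end Pool.Agent.LibGC20
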