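import Pool.Agent.LibGC20.Defs

/-!
[GC20 A1] (SMALL, only Mathlib) The simplex `T d`. `|x i| ≤ 1 / (d + 1)` gives `∑ x i ≤ d / (d + 1) ≤ 1`. If `x ∈ T d` then `x i = ∑ x - ∑_{j ≠ i} x j ≤ 1 + (d - 1)` and `-1 ≤ x i`, so `‖x‖ ≤ d + 1`. Compact: closed and bounded in a proper space.
-/

namespace Pool.Agent.LibGC20

theorem T_convex (d : ℕ) : Convex ℝ (T d) := by
  intro x hx y hy a b ha hb hab
  refine ⟨fun i => ?_, ?_⟩
  · have h1 := hx.1 i
    have h2 := hy.1 i
    simp only [Pi.add_apply, Pi.smul_apply, smul_eq_mul]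
    nlinarith
  · have h1 := hx.2
    have h2 := hy.2
    have e : ∑ i, (a • x + b • y) i = a * ∑ i, x i + b * ∑ i, y i := by
      simp only [Pi.add_apply, Pi.smul_apply, smul_eq_mul, Finset.sum_add_distrib,
        Finset.mul_sum]
    rw [e]
    nlinarith

theorem T_ball (d : ℕ) : Metric.closedBall (0 : Fin d → ℝ) (1 / (d + 1)) ⊆ T d := by
  intro x hx
  have hd : (0 : ℝ) < (d : ℝ) + 1 := by positivity
  have h1 : ‖x‖ ≤ 1 / ((d : ℝ) + 1) := by simpa using hx
  have h2 : ∀ i, |x i| ≤ 1 / ((d : ℝ) + 1) := fun i => (norm_le_pi_norm x i).trans h1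
  refine ⟨fun i => ?_, ?_⟩
  · have h3 : 1 / ((d : ℝ) + 1) ≤ 1 := by
      rw [div_le_one hd]
      have : (0 : ℝ) ≤ (d : ℝ) := Nat.cast_nonneg d
      linarith
    have h4 := (abs_le.mp (h2 i)).1
    linarith
  · have h3 : ∑ i, x i ≤ ∑ _i : Fin d, 1 / ((d : ℝ) + 1) :=
      Finset.sum_le_sum fun i _ => (abs_le.mp (h2 i)).2
    refine h3.trans ?_
    rw [Finset.sum_const, Finset.card_univ, Fintype.card_fin, nsmul_eq_mul, mul_one_div,
      div_le_one hd]
    linarith

theorem T_nhds (d : ℕ) : T d ∈ nhds (0 : Fin d → ℝ) := by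
  have hd : (0 : ℝ) < 1 / ((d : ℝ) + 1) := by positivity
  exact Filter.mem_of_superset (Metric.closedBall_mem_nhds (0 : Fin d → ℝ) hd) (T_ball d)

theorem T_norm {d : ℕ} {x : Fin d → ℝ} (hx : x ∈ T d) : ‖x‖ ≤ d + 1 := by
  have hd : (0 : ℝ) ≤ (d : ℝ) := Nat.cast_nonneg d
  rw [pi_norm_le_iff_of_nonneg (by linarith)]
  intro i
  rw [Real.norm_eq_abs, abs_le]
  have h1 := hx.1 i
  have h2 : x i + 1 ≤ ∑ j, (x j + 1) :=
    Finset.single_le_sum (f := fun j => x j + 1) (fun j _ => by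
      have := hx.1 j
      linarith) (Finset.mem_univ i)
  have h3 : ∑ j, (x j + 1) = ∑ j, x j + d := by
    rw [Finset.sum_add_distrib]
    simp
  have h4 := hx.2
  constructor
  · linarith
  · linarith

theorem T_compact (d : ℕ) : IsCompact (T d) := by
  refine Metric.isCompact_of_isClosed_isBounded ?_ ?_
  · have e : T d = (⋂ i, {x : Fin d → ℝ | -1 ≤ x i}) ∩ {x : Fin d → ℝ | ∑ i, x i ≤ 1} := by
      ext x
      simp [T]
    rw [e]
    refine IsClosed.inter (isClosed_iInter fun i => isClosed_le continuous_const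
      (continuous_apply i)) (isClosed_le ?_ continuous_const)
    exact continuous_finsetSum _ fun i _ => continuous_apply i
  · refine (Metric.isBounded_closedBall (x := (0 : Fin d → ℝ)) (r := (d : ℝ) + 1)).subset ?_
    intro x hx
    rw [mem_closedBall_zero_iff]
    exact T_norm hx

end Pool.Agent.LibGC20
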