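import Pool.Agent.LibGC20.A1

/-!
[GC20 A2] (SMALL, only Mathlib) Barycentric coordinates: `bc x j` are nonnegative on `T d`, have sum `1`, and `cen q + lin q x = ∑ j, bc x j • q j`; for `q = vt d` this is `x`: `cen (vt d) = 0`, `lin (vt d) x = x` (as `vt d i.succ - vt d 0 = (d + 1) e_i`). All by `Fin.sum_univ_succ` and the definitions. `lin_inj`: if `lin q x = lin q y` then `∑ (x i - y i) • (q i.succ - q 0) = 0`, use `affineIndependent_iff_linearIndependent_vsub` (with base point `0 : Fin (d + 1)`) or directly `AffineIndependent` with the weights `bc x j - bc y j` of sum `0`. `lin_comp`: for linear `L`. `lin_single`: value at the basis vector `e_i`.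
-/

namespace Pool.Agent.LibGC20

variable {F : Type*} [AddCommGroup F] [Module ℝ F] {d : ℕ}

private theorem A2_bc_zero (x : Fin d → ℝ) : bc x 0 = (1 - ∑ i, x i) / (d + 1) := rfl

private theorem A2_bc_succ (x : Fin d → ℝ) (j : Fin d) : bc x j.succ = (x j + 1) / (d + 1) := rfl

private theorem A2_vt_zero (i : Fin d) : vt d 0 i = -1 := rfl

private theorem A2_vt_succ (j i : Fin d) : vt d j.succ i = if i = j then (d : ℝ) else -1 := rfl

private theorem A2_vt_succ' (j i : Fin d) :
    vt d j.succ i = -1 + if i = j then ((d : ℝ) + 1) else 0 := by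
  rw [A2_vt_succ]
  split_ifs
  · ring
  · ring

private theorem A2_pos : (0 : ℝ) < (d : ℝ) + 1 := by positivity

private theorem A2_lin (q : Fin (d + 1) → F) (x : Fin d → ℝ) :
    lin q x = ∑ i : Fin d, (((d : ℝ) + 1)⁻¹ * x i) • (q i.succ - q 0) := by
  simp [lin, LinearMap.sum_apply]

theorem bc_nonneg {x : Fin d → ℝ} (hx : x ∈ T d) (j : Fin (d + 1)) : 0 ≤ bc x j := by
  refine Fin.cases ?_ (fun i => ?_) j
  · rw [A2_bc_zero]
    exact div_nonneg (by linarith [hx.2]) A2_pos.le
  · rw [A2_bc_succ]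
    exact div_nonneg (by linarith [hx.1 i]) A2_pos.le

theorem bc_sum (x : Fin d → ℝ) : ∑ j, bc x j = 1 := by
  rw [Fin.sum_univ_succ, A2_bc_zero, Finset.sum_congr rfl (fun i _ => A2_bc_succ x i),
    ← Finset.sum_div, Finset.sum_add_distrib]
  have h := (A2_pos (d := d)).ne'
  rw [← add_div, div_eq_one_iff_eq h]
  simp only [Finset.sum_const, Finset.card_univ, Fintype.card_fin, nsmul_eq_mul, mul_one]
  ring

theorem cen_add_lin (q : Fin (d + 1) → F) (x : Fin d → ℝ) : cen q + lin q x = ∑ j, bc x j • q j := by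
  have h1 : ∑ i : Fin d, (((d : ℝ) + 1)⁻¹ * x i) • (q i.succ - q 0) =
      ∑ i : Fin d, (((d : ℝ) + 1)⁻¹ * x i) • q i.succ - (((d : ℝ) + 1)⁻¹ * ∑ i, x i) • q 0 := by
    simp only [smul_sub, Finset.sum_sub_distrib, Finset.mul_sum, Finset.sum_smul]
  have h2 : ∑ i : Fin d, bc x i.succ • q i.succ =
      ∑ i : Fin d, (((d : ℝ) + 1)⁻¹ * x i) • q i.succ +
        ((d : ℝ) + 1)⁻¹ • ∑ i : Fin d, q i.succ := by
    rw [Finset.smul_sum, ← Finset.sum_add_distrib]
    refine Finset.sum_congr rfl fun i _ => ?_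
    rw [A2_bc_succ, ← add_smul]
    congr 1
    ring
  have h3 : bc x 0 • q 0 = ((d : ℝ) + 1)⁻¹ • q 0 - (((d : ℝ) + 1)⁻¹ * ∑ i, x i) • q 0 := by
    rw [A2_bc_zero, ← sub_smul]
    congr 1
    ring
  rw [Fin.sum_univ_succ (f := fun j => bc x j • q j), h2, h3, cen, A2_lin, h1, Fin.sum_univ_succ,
    smul_add]
  abel

theorem sum_vt (x : Fin d → ℝ) : ∑ j, bc x j • vt d j = x := by
  funext i
  rw [Finset.sum_apply]
  simp only [Pi.smul_apply, smul_eq_mul]
  rw [Fin.sum_univ_succ]
  have h := (A2_pos (d := d)).ne'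
  have h1 : ∑ j : Fin d, bc x j.succ * vt d j.succ i =
      -(∑ j : Fin d, bc x j.succ) + bc x i.succ * ((d : ℝ) + 1) := by
    rw [Finset.sum_congr rfl (fun j _ => by rw [A2_vt_succ', mul_add])]
    rw [Finset.sum_add_distrib]
    congr 1
    · rw [← Finset.sum_neg_distrib]
      exact Finset.sum_congr rfl fun j _ => by ring
    · simp only [mul_ite, mul_zero, Finset.sum_ite_eq, Finset.mem_univ, if_true]
  have h2 : bc x 0 + ∑ j : Fin d, bc x j.succ = 1 := by
    rw [← bc_sum x, Fin.sum_univ_succ]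
  rw [h1, A2_vt_zero, A2_bc_succ, div_mul_cancel₀ _ h]
  linarith

theorem vt_mem (j : Fin (d + 1)) : vt d j ∈ T d := by
  refine Fin.cases ?_ (fun k => ?_) j
  · refine ⟨fun i => ?_, ?_⟩
    · rw [A2_vt_zero]
    · simp only [A2_vt_zero, Finset.sum_const, Finset.card_univ, Fintype.card_fin, nsmul_eq_mul]
      have := (A2_pos (d := d))
      linarith
  · refine ⟨fun i => ?_, ?_⟩
    · rw [A2_vt_succ]
      split_ifs
      · linarith [(A2_pos (d := d))]
      · exact le_rfl
    · simp only [A2_vt_succ', Finset.sum_add_distrib, Finset.sum_const, Finset.card_univ,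
        Fintype.card_fin, nsmul_eq_mul, Finset.sum_ite_eq', Finset.mem_univ, if_true]
      linarith

theorem lin_inj {q : Fin (d + 1) → F} (hq : AffineIndependent ℝ q) : Function.Injective (lin q) := by
  rw [affineIndependent_iff_linearIndependent_vsub ℝ q 0] at hq
  have h1 : LinearIndependent ℝ (fun i : Fin d => q i.succ - q 0) :=
    hq.comp (fun i : Fin d => (⟨i.succ, Fin.succ_ne_zero i⟩ : {x : Fin (d + 1) // x ≠ 0}))
      (fun i k hik => Fin.succ_injective _ (congrArg Subtype.val hik))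
  rw [injective_iff_map_eq_zero]
  intro x hx
  rw [A2_lin] at hx
  have h2 := Fintype.linearIndependent_iff.1 h1 _ hx
  funext i
  have h3 := h2 i
  rcases mul_eq_zero.1 h3 with h4 | h4
  · exact absurd h4 (inv_ne_zero (A2_pos (d := d)).ne')
  · exact h4

theorem lin_comp {G : Type*} [AddCommGroup G] [Module ℝ G] (L : F →ₗ[ℝ] G) (q : Fin (d + 1) → F) (x : Fin d → ℝ) :
    L (lin q x) = lin (fun j => L (q j)) x := by
  rw [A2_lin, A2_lin, map_sum]
  refine Finset.sum_congr rfl fun i _ => ?_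
  rw [map_smul, map_sub]

theorem lin_single (q : Fin (d + 1) → F) (i : Fin d) :
    lin q (Pi.single i 1) = ((d : ℝ) + 1)⁻¹ • (q i.succ - q 0) := by
  rw [A2_lin, Finset.sum_eq_single i]
  · rw [Pi.single_eq_same, mul_one]
  · intro k _ hk
    rw [Pi.single_eq_of_ne hk, mul_zero, zero_smul]
  · intro hi
    exact absurd (Finset.mem_univ i) hi

theorem vt_sub (i : Fin d) : ((d : ℝ) + 1)⁻¹ • (vt d i.succ - vt d 0) = Pi.single i 1 := by
  funext k
  rw [Pi.smul_apply, Pi.sub_apply, A2_vt_zero, A2_vt_succ', Pi.single_apply, smul_eq_mul]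
  have h := (A2_pos (d := d)).ne'
  split_ifs
  · field_simp
    ring
  · ring

theorem combo_mem {C : Set F} (hC : Convex ℝ C) {q : Fin (d + 1) → F} (hq : ∀ j, q j ∈ C) {x : Fin d → ℝ} (hx : x ∈ T d) :
    cen q + lin q x ∈ C := by
  rw [cen_add_lin]
  exact hC.sum_mem (fun j _ => bc_nonneg hx j) (bc_sum x) fun j _ => hq j

end Pool.Agent.LibGC20
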