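import Pool.Agent.LibGC20.A2
import Pool.Agent.LibGC20.A3

/-!
[GC20 A4] (SMALL) Two affine images of `T d` with close vertices are close: `cen q + lin q x - (cen q' + lin q' x) = ∑ bc x j • (q j - q' j)` (A2), `0 ≤ bc x j ≤ 1` (nonnegative of sum `1`), `norm_sum_smul_le` (A3).
-/

namespace Pool.Agent.LibGC20

theorem combo_near {E : Type*} [NormedAddCommGroup E] [Module ℝ E] (hF : ∀ (t : ℝ) (x : E), |t| ≤ 1 → ‖t • x‖ ≤ ‖x‖)
    {d : ℕ} {q q' : Fin (d + 1) → E} {r : ℝ} (h : ∀ j, ‖q j - q' j‖ ≤ r) {x : Fin d → ℝ} (hx : x ∈ T d) :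
    ‖(cen q + lin q x) - (cen q' + lin q' x)‖ ≤ (d + 1) * r := by
  have e1 : (cen q + lin q x) - (cen q' + lin q' x) = ∑ j, bc x j • (q j - q' j) := by
    rw [cen_add_lin, cen_add_lin, ← Finset.sum_sub_distrib]
    refine Finset.sum_congr rfl fun j _ => ?_
    rw [smul_sub]
  have h1 : ∀ j ∈ (Finset.univ : Finset (Fin (d + 1))), |bc x j| ≤ 1 := by
    intro j hj
    rw [abs_of_nonneg (bc_nonneg hx j), ← bc_sum x]
    exact Finset.single_le_sum (f := bc x) (fun i _ => bc_nonneg hx i) hj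
  have h2 := norm_sum_smul_le hF (Finset.univ : Finset (Fin (d + 1))) (bc x) (fun j => q j - q' j) h1
    (fun j _ => h j)
  rw [e1]
  refine h2.trans (le_of_eq ?_)
  rw [Finset.card_univ, Fintype.card_fin]
  push_cast
  ring

end Pool.Agent.LibGC20
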