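import Mathlib

/-!
[GC20 B1] (SMALL, only Mathlib) MAXIMAL DISJOINT FAMILIES. Zorn (`zorn_subset`) for the sets `F : Set S` with `∀ s ∈ F, p s ∧ U s ⊆ G` and `F.PairwiseDisjoint U`. If `O ∩ G` is nonempty (open) but no `U s`, `s ∈ F`, meets `O`, then `hG` for `V = O ∩ G` gives `s'` with `U s' ⊆ O ∩ G`, disjoint from all `U s`; `insert s' F` is larger (`U s'` is nonempty), a contradiction.
-/

namespace Pool.Agent.LibGC20

open Set

theorem max_family {X S : Type*} [TopologicalSpace X] (U : S → Set X) (hne : ∀ s, (U s).Nonempty) (p : S → Prop)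
    {G : Set X} (hGo : IsOpen G) (hG : ∀ V ⊆ G, IsOpen V → V.Nonempty → ∃ s, p s ∧ U s ⊆ V) :
    ∃ F : Set S, (∀ s ∈ F, p s ∧ U s ⊆ G) ∧ F.PairwiseDisjoint U ∧
      ∀ O : Set X, IsOpen O → (O ∩ G).Nonempty → ∃ s ∈ F, (U s ∩ O).Nonempty := by
  obtain ⟨F, hF⟩ := zorn_subset {F : Set S | (∀ s ∈ F, p s ∧ U s ⊆ G) ∧ F.PairwiseDisjoint U} (by
    intro c hc hchain
    refine ⟨⋃₀ c, ⟨?_, ?_⟩, fun s hs => subset_sUnion_of_mem hs⟩
    · rintro s ⟨F, hFc, hsF⟩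
      exact (hc hFc).1 s hsF
    · rintro s ⟨F, hFc, hsF⟩ t ⟨F', hFc', htF'⟩ hst
      rcases hchain.total hFc hFc' with h | h
      · exact (hc hFc').2 (h hsF) htF' hst
      · exact (hc hFc).2 hsF (h htF') hst)
  refine ⟨F, hF.prop.1, hF.prop.2, ?_⟩
  intro O hO hOG
  by_contra hcon
  have hdis : ∀ s ∈ F, ¬ (U s ∩ O).Nonempty := by
    intro s hs h
    exact hcon ⟨s, hs, h⟩
  obtain ⟨s', hps', hUs'⟩ := hG (O ∩ G) inter_subset_right (hO.inter hGo) hOG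
  have hd : ∀ s ∈ F, Disjoint (U s) (U s') := by
    intro s hs
    rw [Set.disjoint_left]
    intro x hx hx'
    exact hdis s hs ⟨x, hx, (hUs' hx').1⟩
  have hmem : insert s' F ∈ {F : Set S | (∀ s ∈ F, p s ∧ U s ⊆ G) ∧ F.PairwiseDisjoint U} := by
    refine ⟨?_, ?_⟩
    · intro s hs
      rcases hs with rfl | hs
      · exact ⟨hps', fun x hx => (hUs' hx).2⟩
      · exact hF.prop.1 s hs
    · rw [Set.pairwiseDisjoint_insert]
      refine ⟨hF.prop.2, ?_⟩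
      intro j hj _
      exact (hd j hj).symm
  have hsub : insert s' F ⊆ F := hF.le_of_ge hmem (subset_insert _ _)
  have hs' : s' ∈ F := hsub (mem_insert _ _)
  obtain ⟨x, hx⟩ := hne s'
  exact hdis s' hs' ⟨x, hx, (hUs' hx).1⟩

end Pool.Agent.LibGC20
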