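import Pool.Agent.LibGC20.B1

/-!
[GC20 B2] (MEDIUM) BANACH-MAZUR / OXTOBY. `F₀` from B1 with `p = ini`, `G = univ`; for every `s` let `F s` be from B1 with `p = ext s`, `G = U s`. `Fam 0 = F₀`, `Fam (n + 1) = ⋃ s ∈ Fam n, F s`. By induction: the sets `U s`, `s ∈ Fam n`, are pairwise disjoint (two elements of `Fam (n+1)` with meeting `U`s have the same parent, since `U s' ⊆ U s`), and `W n = ⋃ s ∈ Fam n, U s` is open and dense.
`⋂ n, W n ∈ residual X` (`countable_iInter_mem`, `residual_of_dense_open`). For `x` in it choose `b n ∈ Fam n` with `x ∈ U (b n)`; `b (n + 1) ∈ F s` for some `s ∈ Fam n`, `x ∈ U (b (n+1)) ⊆ U s`, so `s = b n` by disjointness, and `ext (b n) (b (n + 1))`.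
-/

namespace Pool.Agent.LibGC20

open Set

private def B2_Fam {S : Type*} (F₀ : Set S) (F : S → Set S) : ℕ → Set S
  | 0 => F₀
  | n + 1 => ⋃ s ∈ B2_Fam F₀ F n, F s

theorem banach_mazur {X S : Type*} [TopologicalSpace X] (U : S → Set X) (hU : ∀ s, IsOpen (U s))
    (hne : ∀ s, (U s).Nonempty) (ini : S → Prop) (ext : S → S → Prop)
    (h0 : ∀ V : Set X, IsOpen V → V.Nonempty → ∃ s, ini s ∧ U s ⊆ V)
    (h1 : ∀ s, ∀ V ⊆ U s, IsOpen V → V.Nonempty → ∃ s', ext s s' ∧ U s' ⊆ V) :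
    {x : X | ∃ b : ℕ → S, ini (b 0) ∧ (∀ n, ext (b n) (b (n + 1))) ∧ ∀ n, x ∈ U (b n)} ∈ residual X := by
  obtain ⟨F₀, hF₀p, hF₀d, hF₀m⟩ := max_family U hne ini (G := univ) isOpen_univ
    (fun V _ hVo hVn => h0 V hVo hVn)
  have hex : ∀ s : S, ∃ F : Set S, (∀ t ∈ F, ext s t ∧ U t ⊆ U s) ∧ F.PairwiseDisjoint U ∧
      ∀ O : Set X, IsOpen O → (O ∩ U s).Nonempty → ∃ t ∈ F, (U t ∩ O).Nonempty := fun s =>
    max_family U hne (ext s) (G := U s) (hU s) (h1 s)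
  choose F hFp hFd hFm using hex
  have hdisj : ∀ n, (B2_Fam F₀ F n).PairwiseDisjoint U := by
    intro n
    induction n with
    | zero => exact hF₀d
    | succ n ih =>
      intro s' hs' t' ht' hne'
      obtain ⟨s, hs, hs's⟩ := mem_iUnion₂.1 hs'
      obtain ⟨t, ht, ht't⟩ := mem_iUnion₂.1 ht'
      by_cases hst : s = t
      · subst hst
        exact hFd s hs's ht't hne'
      · exact Disjoint.mono (hFp s s' hs's).2 (hFp t t' ht't).2 (ih hs ht hst)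
  have hden : ∀ n, ∀ O : Set X, IsOpen O → O.Nonempty → ∃ s ∈ B2_Fam F₀ F n, (U s ∩ O).Nonempty := by
    intro n
    induction n with
    | zero =>
      intro O hO hOn
      exact hF₀m O hO (by rwa [inter_univ])
    | succ n ih =>
      intro O hO hOn
      obtain ⟨s, hs, hsO⟩ := ih O hO hOn
      obtain ⟨t, ht, htO⟩ := hFm s O hO (by rwa [inter_comm])
      exact ⟨t, mem_iUnion₂.2 ⟨s, hs, ht⟩, htO⟩
  have hW : ∀ n, (⋃ s ∈ B2_Fam F₀ F n, U s) ∈ residual X := by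
    intro n
    refine residual_of_dense_open (isOpen_biUnion fun s _ => hU s) ?_
    rw [dense_iff_inter_open]
    intro O hO hOn
    obtain ⟨s, hs, x, hx⟩ := hden n O hO hOn
    exact ⟨x, hx.2, mem_iUnion₂.2 ⟨s, hs, hx.1⟩⟩
  have hI : (⋂ n, ⋃ s ∈ B2_Fam F₀ F n, U s) ∈ residual X := countable_iInter_mem.2 hW
  refine Filter.mem_of_superset hI ?_
  intro x hx
  have hx' : ∀ n, ∃ s ∈ B2_Fam F₀ F n, x ∈ U s := by
    intro n
    obtain ⟨s, hs, hxs⟩ := mem_iUnion₂.1 (mem_iInter.1 hx n)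
    exact ⟨s, hs, hxs⟩
  choose b hb hxb using hx'
  refine ⟨b, (hF₀p _ (hb 0)).1, fun n => ?_, hxb⟩
  obtain ⟨s, hs, hbs⟩ := mem_iUnion₂.1 (hb (n + 1))
  have hxs : x ∈ U s := (hFp s _ hbs).2 (hxb (n + 1))
  have hsb : s = b n := by
    by_contra hne'
    exact (Set.disjoint_left.1 (hdisj n hs (hb n) hne')) hxs (hxb n)
  rw [← hsb]
  exact (hFp s _ hbs).1

end Pool.Agent.LibGC20
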