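import Pool.Agent.LibGC20.R1
import Pool.Agent.LibGC20.R2

/-!
[GC20 C1] (MEDIUM) FIBREWISE RADIAL MAP `κ`. Apply R1 with `Z = X`, `S = T₀`, `f (a, t) = ‖t‖`, `g (a, t) = gauge {v | (a, 0) + v ∈ C} (φ t, t)`. `Hom T₀ g`: continuity from `gauge_joint` composed with `(a, t) ↦ ((a, 0), (φ t, t))` which maps `T₀ × univ` into `interior C × univ`; homogeneous by `gauge_smul_centre` and `(φ (s • t), s • t) = s • (φ t, t)`; positive: `gauge_centre_pos`.
`{p | p.1 ∈ T₀ ∧ ‖p.2‖ ≤ 1} = T₀ ×ˢ closedBall 0 1`, and `g p ≤ 1 ↔ (p.1, 0) + (φ p.2, p.2) ∈ C` by `gauge_centre_le_one`. `κ = rad f g`.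
-/

namespace Pool.Agent.LibGC20

open Set

private theorem C1_cont {X W : Type*} [NormedAddCommGroup X] [NormedSpace ℝ X] [NormedAddCommGroup W]
    [NormedSpace ℝ W] {C : Set (X × W)} (hc : Convex ℝ C) {T₀ : Set X}
    (hTC : ∀ x ∈ T₀, (x, (0 : W)) ∈ interior C) {φ : W → X} (hφ : Continuous φ) :
    ContinuousOn (fun p : X × W => gauge {v : X × W | (p.1, (0 : W)) + v ∈ C} (φ p.2, p.2))
      (T₀ ×ˢ univ) := by
  have h1 : ContinuousOn (fun p : X × W => (((p.1, (0 : W)), (φ p.2, p.2)) : (X × W) × (X × W)))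
      (T₀ ×ˢ univ) := by
    apply Continuous.continuousOn
    exact (continuous_fst.prodMk continuous_const).prodMk
      ((hφ.comp continuous_snd).prodMk continuous_snd)
  have h2 : MapsTo (fun p : X × W => (((p.1, (0 : W)), (φ p.2, p.2)) : (X × W) × (X × W)))
      (T₀ ×ˢ univ) (interior C ×ˢ univ) := fun p hp => ⟨hTC _ hp.1, mem_univ _⟩
  have h3 := (gauge_joint hc).comp h1 h2
  simpa only [Function.comp_def] using h3

theorem kappa {X W : Type*} [NormedAddCommGroup X] [NormedSpace ℝ X] [NormedAddCommGroup W] [NormedSpace ℝ W]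
    [FiniteDimensional ℝ W] {C : Set (X × W)} (hC : IsCompact C) (hc : Convex ℝ C) {T₀ : Set X} (hT : IsCompact T₀)
    (hTC : ∀ x ∈ T₀, (x, (0 : W)) ∈ interior C) {φ : W → X} (hφ : Continuous φ)
    (hφ1 : ∀ (s : ℝ) (w : W), 0 ≤ s → φ (s • w) = s • φ w) :
    ∃ κ : X × W → X × W, ContinuousOn κ (T₀ ×ˢ Metric.closedBall 0 1) ∧ InjOn κ (T₀ ×ˢ Metric.closedBall 0 1) ∧
      κ '' (T₀ ×ˢ Metric.closedBall 0 1) = {p | p.1 ∈ T₀ ∧ (p.1 + φ p.2, p.2) ∈ C} ∧ ∀ p, (κ p).1 = p.1 := by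
  set f : X × W → ℝ := fun p => ‖p.2‖ with hfdef
  set g : X × W → ℝ := fun p => gauge {v : X × W | (p.1, (0 : W)) + v ∈ C} (φ p.2, p.2) with hgdef
  have hf : Hom T₀ f := by
    refine ⟨(continuous_norm.comp continuous_snd).continuousOn, ?_, ?_⟩
    · intro a _ s hs w
      show ‖s • w‖ = s * ‖w‖
      rw [norm_smul, Real.norm_of_nonneg hs]
    · intro a _ w hw
      exact norm_pos_iff.mpr hw
  have hg : Hom T₀ g := by
    refine ⟨?_, ?_, ?_⟩
    · exact C1_cont hc hTC hφ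
    · intro a _ s hs w
      show gauge {v : X × W | (a, (0 : W)) + v ∈ C} (φ (s • w), s • w) =
        s * gauge {v : X × W | (a, (0 : W)) + v ∈ C} (φ w, w)
      rw [← gauge_smul_centre C (a, (0 : W)) hs (φ w, w), hφ1 s w hs]
      rfl
    · intro a ha w hw
      apply gauge_centre_pos hC (hTC a ha)
      intro h
      exact hw (Prod.ext_iff.mp h).2
  have hsub : T₀ ×ˢ Metric.closedBall (0 : W) 1 ⊆ T₀ ×ˢ univ :=
    prod_mono_right (subset_univ _)
  have e1 : T₀ ×ˢ Metric.closedBall (0 : W) 1 = {p : X × W | p.1 ∈ T₀ ∧ f p ≤ 1} := by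
    ext p
    rw [mem_prod, mem_closedBall_zero_iff]
    rfl
  have e2 : {p : X × W | p.1 ∈ T₀ ∧ g p ≤ 1} = {p | p.1 ∈ T₀ ∧ (p.1 + φ p.2, p.2) ∈ C} := by
    ext p
    constructor
    · rintro ⟨h1, h2⟩
      refine ⟨h1, ?_⟩
      have h3 := (gauge_centre_le_one hc hC.isClosed (hTC _ h1) (φ p.2, p.2)).mp h2
      rwa [Prod.mk_add_mk, zero_add] at h3
    · rintro ⟨h1, h2⟩
      refine ⟨h1, ?_⟩
      apply (gauge_centre_le_one hc hC.isClosed (hTC _ h1) (φ p.2, p.2)).mpr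
      rwa [Prod.mk_add_mk, zero_add]
  refine ⟨rad f g, (rad_cont hT hf hg).mono hsub, (rad_inj hf hg).mono hsub, ?_, fun p => rfl⟩
  rw [e1, rad_image hf hg, e2]

end Pool.Agent.LibGC20
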