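import Pool.Agent.LibGC20.R1
import Pool.Agent.LibGC20.R2

/-!
[GC20 C2] (MEDIUM) RADIAL MAP `ψ` in `X × W`. Let `G p = gauge C (p.1 + φ p.2, p.2)`, `H p = max (G p) (gauge T₀ p.1)`: continuous (`continuous_gauge`), positively homogeneous, `0 < G p ≤ H p` for `p ≠ 0` (`C` bounded and `(p.1 + φ p.2, p.2) = 0` only for `p = 0`, because `φ 0 = 0`). R1 with `Z = Unit`, `S = univ`, `f = H ∘ snd`, `g = G ∘ snd`; `ψ p = (rad f g ((), p)).2 = (H p / G p) • p`.
`G p ≤ 1 ↔ (p.1 + φ p.2, p.2) ∈ C` and `gauge T₀ x ≤ 1 ↔ x ∈ T₀` (closed convex neighbourhoods of `0`; e.g. `gauge_centre_le_one` with centre `0`). `1 ≤ H p / G p` clear; `H p ≤ (1 + τ) * G p`: apply `hτT` to `(G p)⁻¹ • p`. For `p = 0` take `l = 1`.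
-/

namespace Pool.Agent.LibGC20

open Set

private theorem C2_le_one {V : Type*} [NormedAddCommGroup V] [NormedSpace ℝ V] {C : Set V} (hc : Convex ℝ C)
    (hC : IsClosed C) (h0 : C ∈ nhds (0 : V)) (v : V) : gauge C v ≤ 1 ↔ v ∈ C := by
  constructor
  · intro h
    have h1 := mem_closure_of_gauge_le_one hc (mem_of_mem_nhds h0) (absorbent_nhds_zero h0) h
    rwa [hC.closure_eq] at h1
  · intro h
    exact gauge_le_one_of_mem h

private theorem C2_smul {V : Type*} [NormedAddCommGroup V] [NormedSpace ℝ V] (C : Set V) {s : ℝ} (hs : 0 ≤ s) (v : V) :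
    gauge C (s • v) = s * gauge C v := by
  rw [gauge_smul_of_nonneg hs, smul_eq_mul]

theorem psi {X W : Type*} [NormedAddCommGroup X] [NormedSpace ℝ X] [FiniteDimensional ℝ X] [NormedAddCommGroup W]
    [NormedSpace ℝ W] [FiniteDimensional ℝ W] {C : Set (X × W)} (hC : IsCompact C) (hc : Convex ℝ C) (h0 : C ∈ nhds 0)
    {T₀ : Set X} (hT : IsCompact T₀) (hTc : Convex ℝ T₀) (hT0 : T₀ ∈ nhds 0) {φ : W → X} (hφ : Continuous φ)
    (hφ1 : ∀ (s : ℝ) (w : W), 0 ≤ s → φ (s • w) = s • φ w) {τ : ℝ} (hτ : 0 ≤ τ)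
    (hτT : ∀ p : X × W, (p.1 + φ p.2, p.2) ∈ C → gauge T₀ p.1 ≤ 1 + τ) :
    ∃ ψ : X × W → X × W, Continuous ψ ∧ Function.Injective ψ ∧
      ψ '' {p | p.1 ∈ T₀ ∧ (p.1 + φ p.2, p.2) ∈ C} = {p | (p.1 + φ p.2, p.2) ∈ C} ∧
      ∀ p, ∃ l : ℝ, 1 ≤ l ∧ l ≤ 1 + τ ∧ ψ p = l • p := by
  classical
  set L : X × W → X × W := fun p => (p.1 + φ p.2, p.2) with hL
  have hLc : Continuous L := by
    rw [hL]
    exact (continuous_fst.add (hφ.comp continuous_snd)).prodMk continuous_snd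
  have hLs : ∀ (s : ℝ) (p : X × W), 0 ≤ s → L (s • p) = s • L p := by
    intro s p hs
    simp only [hL, Prod.smul_fst, Prod.smul_snd, hφ1 s p.2 hs, Prod.smul_mk, smul_add]
  have hφ0 : φ 0 = 0 := by
    have h := hφ1 0 0 le_rfl
    simpa using h
  have hLne : ∀ p : X × W, p ≠ 0 → L p ≠ 0 := by
    intro p hp h
    apply hp
    have h2 : p.2 = 0 := congrArg Prod.snd h
    have h1 : p.1 + φ p.2 = 0 := congrArg Prod.fst h
    rw [h2, hφ0, add_zero] at h1
    exact Prod.ext h1 h2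
  set G : X × W → ℝ := fun p => gauge C (L p) with hG
  set H : X × W → ℝ := fun p => max (G p) (gauge T₀ p.1) with hH
  have hGc : Continuous G := (continuous_gauge hc h0).comp hLc
  have hHc : Continuous H := hGc.max ((continuous_gauge hTc hT0).comp continuous_fst)
  have hGs : ∀ (s : ℝ) (p : X × W), 0 ≤ s → G (s • p) = s * G p := by
    intro s p hs
    simp only [hG]
    rw [hLs s p hs, C2_smul C hs]
  have hHs : ∀ (s : ℝ) (p : X × W), 0 ≤ s → H (s • p) = s * H p := by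
    intro s p hs
    simp only [hH]
    rw [hGs s p hs, Prod.smul_fst, C2_smul T₀ hs, mul_max_of_nonneg _ _ hs]
  have hG0 : ∀ p, 0 ≤ G p := fun p => gauge_nonneg _
  have hGpos : ∀ p : X × W, p ≠ 0 → 0 < G p := by
    intro p hp
    exact (gauge_pos (absorbent_nhds_zero h0) (NormedSpace.isVonNBounded_of_isBounded ℝ hC.isBounded)).2 (hLne p hp)
  have hGH : ∀ p, G p ≤ H p := fun p => le_max_left _ _
  have hG1 : ∀ p, G p ≤ 1 ↔ L p ∈ C := fun p => C2_le_one hc hC.isClosed h0 (L p)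
  have hT1 : ∀ x, gauge T₀ x ≤ 1 ↔ x ∈ T₀ := fun x => C2_le_one hTc hT.isClosed hT0 x
  let f : Unit × (X × W) → ℝ := fun q => H q.2
  let g : Unit × (X × W) → ℝ := fun q => G q.2
  have hf : Hom (univ : Set Unit) f :=
    { cont := (hHc.comp continuous_snd).continuousOn
      hom := fun _ _ s hs w => hHs s w hs
      pos := fun _ _ w hw => lt_of_lt_of_le (hGpos w hw) (hGH w) }
  have hg : Hom (univ : Set Unit) g :=
    { cont := (hGc.comp continuous_snd).continuousOn
      hom := fun _ _ s hs w => hGs s w hs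
      pos := fun _ _ w hw => hGpos w hw }
  have hrc : Continuous (rad f g) := by
    have h := rad_cont isCompact_univ hf hg
    rwa [univ_prod_univ, continuousOn_univ] at h
  refine ⟨fun p => (rad f g ((), p)).2, ?_, ?_, ?_, ?_⟩
  · exact continuous_snd.comp (hrc.comp (continuous_const.prodMk continuous_id))
  · intro p p' hpp
    have h1 : rad f g ((), p) = rad f g ((), p') := Prod.ext rfl hpp
    have h2 := rad_inj hf hg (by simp) (by simp) h1
    exact congrArg Prod.snd h2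
  · have him := rad_image hf hg
    ext p
    constructor
    · rintro ⟨p', ⟨ha, hb⟩, rfl⟩
      have h1 : rad f g ((), p') ∈ {q : Unit × (X × W) | q.1 ∈ (univ : Set Unit) ∧ g q ≤ 1} := by
        rw [← him]
        exact ⟨((), p'), ⟨mem_univ _, max_le ((hG1 p').2 hb) ((hT1 p'.1).2 ha)⟩, rfl⟩
      exact (hG1 _).1 h1.2
    · intro hp
      have h1 : ((), p) ∈ rad f g '' {q : Unit × (X × W) | q.1 ∈ (univ : Set Unit) ∧ f q ≤ 1} := by
        rw [him]
        exact ⟨mem_univ _, (hG1 p).2 hp⟩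
      obtain ⟨⟨u, p'⟩, ⟨_, hq⟩, he⟩ := h1
      have hq' : max (G p') (gauge T₀ p'.1) ≤ 1 := hq
      refine ⟨p', ⟨(hT1 _).1 (le_trans (le_max_right _ _) hq'), (hG1 _).1 (le_trans (le_max_left _ _) hq')⟩, ?_⟩
      exact congrArg Prod.snd he
  · intro p
    by_cases hp : p = 0
    · refine ⟨1, le_rfl, by linarith, ?_⟩
      subst hp
      simp [rad]
    · have hgp := hGpos p hp
      refine ⟨H p / G p, ?_, ?_, rfl⟩
      · rw [le_div_iff₀ hgp, one_mul]
        exact hGH p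
      · rw [div_le_iff₀ hgp]
        apply max_le
        · nlinarith
        · have h1 : L ((G p)⁻¹ • p) ∈ C := by
            rw [← hG1, hGs _ _ (inv_nonneg.2 hgp.le), inv_mul_cancel₀ hgp.ne']
          have h2 := hτT ((G p)⁻¹ • p) h1
          rw [Prod.smul_fst, C2_smul T₀ (inv_nonneg.2 hgp.le), inv_mul_le_iff₀ hgp] at h2
          linarith

end Pool.Agent.LibGC20
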