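import Pool.Agent.LibGC20.S1
import Pool.Agent.LibGC20.S2
import Pool.Agent.LibGC20.R3

/-!
[GC20 S3] (MEDIUM) THE HOMOGENEOUS SECTION. `M` is continuous (`LinearMap.continuous_of_finiteDimensional`). Let `γ = gauge (Prod.snd '' C)`, `e w = (γ w)⁻¹ • w` for `w` in the sphere (S2: continuous, `γ > 0` there). `t w = convexHull ℝ {u : X | ‖M (u, e w)‖ < θ}`; by `gB_end` and `h` there is `z ∈ C` with `z.2 = e w₀` and `x` with `‖M (z.1 - x, e w₀)‖ < θ`; the vector `c = z.1 - x` is in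
`{u | ‖M (u, e w)‖ < θ}` for all `w` near `w₀` (continuity). So `exists_continuous_forall_mem_convex_of_local_const` (on the sphere, a compact metric space) gives `φ₀` with `φ₀ w ∈ t w`. `homog_ext` with `g = γ` gives `φ`. For `z ∈ C`, `w = z.2`: if `w = 0` then `φ 0 = 0` (homogeneity with `s = 0`) and the norm is `0`; otherwise put `ŵ = w / ‖w‖`:
`φ w = ‖w‖ • φ ŵ = γ w • φ₀ ŵ`, `w = γ w • e ŵ`, so `M (φ w, w) = γ w • M (φ₀ ŵ, e ŵ)`, `0 ≤ γ w ≤ 1` (S2), and S1. `θ > 0`: from `h` for `z = 0`.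
-/

namespace Pool.Agent.LibGC20

theorem section_exists {X W E : Type*} [NormedAddCommGroup X] [NormedSpace ℝ X] [FiniteDimensional ℝ X]
    [NormedAddCommGroup W] [NormedSpace ℝ W] [FiniteDimensional ℝ W] [NormedAddCommGroup E] [Module ℝ E] [ContinuousSMul ℝ E]
    (hF : ∀ (t : ℝ) (x : E), |t| ≤ 1 → ‖t • x‖ ≤ ‖x‖) {C : Set (X × W)} (hC : IsCompact C) (hc : Convex ℝ C)
    (h0 : C ∈ nhds 0) (M : X × W →ₗ[ℝ] E) {θ : ℝ} (h : ∀ z ∈ C, ∃ x : X, ‖M (z.1 - x, z.2)‖ < θ) :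
    ∃ φ : W → X, Continuous φ ∧ (∀ (s : ℝ) (w : W), 0 ≤ s → φ (s • w) = s • φ w) ∧
      ∀ z ∈ C, ‖M (φ z.2, z.2)‖ ≤ (Module.finrank ℝ X + 1) * θ := by
  have hM : Continuous M := LinearMap.continuous_of_finiteDimensional M
  have hθ : 0 < θ := by
    obtain ⟨x, hx⟩ := h 0 (mem_of_mem_nhds h0)
    exact lt_of_le_of_lt (norm_nonneg _) hx
  set γ : W → ℝ := gauge (Prod.snd '' C) with hγd
  have hγc : Continuous γ := gB_cont hc h0
  have hne : ∀ w : Metric.sphere (0 : W) 1, (w : W) ≠ 0 := by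
    intro w hw
    have h1 : ‖(w : W)‖ = 1 := mem_sphere_zero_iff_norm.1 w.2
    rw [hw, norm_zero] at h1
    exact zero_ne_one h1
  have hγp : ∀ w : Metric.sphere (0 : W) 1, 0 < γ w := fun w => gB_pos hC h0 (hne w)
  have hec : Continuous fun w : Metric.sphere (0 : W) 1 => (γ w)⁻¹ • (w : W) :=
    ((hγc.comp continuous_subtype_val).inv₀ fun w => (hγp w).ne').smul continuous_subtype_val
  obtain ⟨φ₀, hφ₀⟩ := exists_continuous_forall_mem_convex_of_local_const (X := Metric.sphere (0 : W) 1) (E := X)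
    (t := fun w => convexHull ℝ {u : X | ‖M (u, (γ w)⁻¹ • (w : W))‖ < θ}) (fun w => convex_convexHull ℝ _) (by
      intro w₀
      obtain ⟨z, hz, hz2⟩ := gB_end hC hc h0 (hne w₀)
      obtain ⟨x, hx⟩ := h z hz
      refine ⟨z.1 - x, ?_⟩
      have h1 : Continuous fun w : Metric.sphere (0 : W) 1 => ‖M (z.1 - x, (γ w)⁻¹ • (w : W))‖ :=
        (hM.comp (continuous_const.prodMk hec)).norm
      have h2 : ‖M (z.1 - x, (γ w₀)⁻¹ • (w₀ : W))‖ < θ := by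
        rw [← hz2]
        exact hx
      filter_upwards [h1.continuousAt.eventually (gt_mem_nhds h2)] with w hw
      exact subset_convexHull ℝ _ hw)
  obtain ⟨φ, hφc, hφh, hφ⟩ := homog_ext φ₀ γ hγc fun s w hs => gB_smul C hs w
  refine ⟨φ, hφc, hφh, ?_⟩
  intro z hz
  by_cases hw : z.2 = 0
  · have h1 : φ z.2 = 0 := by
      have h2 := hφh 0 0 le_rfl
      rw [zero_smul, zero_smul] at h2
      rw [hw, h2]
    rw [h1, hw]
    have h3 : M ((0 : X), (0 : W)) = 0 := map_zero M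
    rw [h3, norm_zero]
    positivity
  · have hn : 0 < ‖z.2‖ := norm_pos_iff.2 hw
    have hs : ‖z.2‖⁻¹ • z.2 ∈ Metric.sphere (0 : W) 1 := by
      rw [mem_sphere_zero_iff_norm, norm_smul, norm_inv, norm_norm, inv_mul_cancel₀ hn.ne']
    have hz2 : z.2 = ‖z.2‖ • (‖z.2‖⁻¹ • z.2) := by
      rw [smul_smul, mul_inv_cancel₀ hn.ne', one_smul]
    have hγz : γ z.2 = ‖z.2‖ * γ (‖z.2‖⁻¹ • z.2) := by
      have h1 := gB_smul C hn.le (‖z.2‖⁻¹ • z.2)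
      rw [← hz2] at h1
      exact h1
    have hp := hγp ⟨_, hs⟩
    have hp' : 0 < γ (‖z.2‖⁻¹ • z.2) := hp
    have h1 : φ z.2 = γ z.2 • φ₀ ⟨_, hs⟩ := by
      have h2 := hφh ‖z.2‖ (‖z.2‖⁻¹ • z.2) hn.le
      rw [← hz2] at h2
      rw [h2, hφ _ hs, smul_smul, hγz]
    have h2 : z.2 = γ z.2 • ((γ (‖z.2‖⁻¹ • z.2))⁻¹ • (‖z.2‖⁻¹ • z.2)) := by
      rw [smul_smul, hγz, mul_assoc, mul_inv_cancel₀ hp'.ne', mul_one, ← hz2]
    have h3 : M (φ z.2, z.2) = γ z.2 • M (φ₀ ⟨_, hs⟩, (γ (‖z.2‖⁻¹ • z.2))⁻¹ • (‖z.2‖⁻¹ • z.2)) := by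
      rw [← map_smul, Prod.smul_mk, ← h1, ← h2]
    have h4 : |γ z.2| ≤ 1 := by
      rw [abs_of_nonneg (gauge_nonneg _)]
      exact gB_le hz
    rw [h3]
    exact (hF _ _ h4).trans (carath hF M hθ.le (hφ₀ ⟨_, hs⟩))

end Pool.Agent.LibGC20
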