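import Pool.Agent.LibGC20.C1
import Pool.Agent.LibGC20.C2
import Pool.Agent.LibGC20.S3

/-!
[GC20 C3] (MEDIUM) CORE LEMMA. `φ` from S3 (hypothesis `h` with `x ∈ T₀` forgotten; `C ∈ nhds 0` because `(0, 0) ∈ interior C` by `hTC`). `hτT`: if `z = (p.1 + φ p.2, p.2) ∈ C`, take `y ∈ T₀` from `h z`; `M (p.1 - y, 0) = M (z.1 - y, z.2) - M (φ z.2, z.2)` has norm `≤ θ + (finrank + 1) * θ`, so `hg` applies. `κ` from C1, `ψ` from C2, `Φ p = (p.1 + φ p.2, p.2)` (a continuous bijection of `X × W`), `g = Φ ∘ ψ ∘ κ`.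
Image: `κ '' _ = {p | p.1 ∈ T₀ ∧ Φ p ∈ C}`, `ψ '' that = Φ ⁻¹' C`, `Φ '' (Φ ⁻¹' C) = C`. Estimate: `κ (x, t) = (x, w)`, `ψ` multiplies by `l`, so `z := g (x, t) = (l • x + φ (l • w), l • w) ∈ C`, `M (z.1 - x, z.2) = M (φ z.2, z.2) + (l - 1) • M (x, 0)`, `M (τ • x, 0) = τ • M (x, 0)`, `norm_smul_mono` (A3).
-/

namespace Pool.Agent.LibGC20

open Set

theorem core {X W E : Type*} [NormedAddCommGroup X] [NormedSpace ℝ X] [FiniteDimensional ℝ X]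
    [NormedAddCommGroup W] [NormedSpace ℝ W] [FiniteDimensional ℝ W] [NormedAddCommGroup E] [Module ℝ E] [ContinuousSMul ℝ E]
    (hF : ∀ (t : ℝ) (x : E), |t| ≤ 1 → ‖t • x‖ ≤ ‖x‖) {C : Set (X × W)} (hC : IsCompact C) (hc : Convex ℝ C)
    {T₀ : Set X} (hT : IsCompact T₀) (hTc : Convex ℝ T₀) (hT0 : T₀ ∈ nhds 0)
    (hTC : ∀ x ∈ T₀, (x, (0 : W)) ∈ interior C) (M : X × W →ₗ[ℝ] E) {θ τ : ℝ} (hτ : 0 ≤ τ)
    (h : ∀ z ∈ C, ∃ x ∈ T₀, ‖M (z.1 - x, z.2)‖ < θ)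
    (hg : ∀ x, ∀ y ∈ T₀, ‖M (x - y, 0)‖ ≤ (Module.finrank ℝ X + 2) * θ → gauge T₀ x ≤ 1 + τ) :
    ∃ g : X × W → X × W, ContinuousOn g (T₀ ×ˢ Metric.closedBall 0 1) ∧ InjOn g (T₀ ×ˢ Metric.closedBall 0 1) ∧
      g '' (T₀ ×ˢ Metric.closedBall 0 1) = C ∧ ∀ x ∈ T₀, ∀ t ∈ Metric.closedBall (0 : W) 1,
        ‖M ((g (x, t)).1 - x, (g (x, t)).2)‖ ≤ (Module.finrank ℝ X + 1) * θ + ‖M (τ • x, 0)‖ := by
  have h00 : (0 : X) ∈ T₀ := mem_of_mem_nhds hT0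
  have hC0 : C ∈ nhds (0 : X × W) := mem_interior_iff_mem_nhds.1 (hTC 0 h00)
  obtain ⟨φ, hφ, hφ1, hφ2⟩ := section_exists hF hC hc hC0 M (θ := θ)
    (fun z hz => by
      obtain ⟨x, -, hx⟩ := h z hz
      exact ⟨x, hx⟩)
  have hτT : ∀ p : X × W, (p.1 + φ p.2, p.2) ∈ C → gauge T₀ p.1 ≤ 1 + τ := by
    intro p hp
    obtain ⟨y, hy, hy1⟩ := h _ hp
    refine hg p.1 y hy ?_
    have e1 : M (p.1 - y, 0) = M (p.1 + φ p.2 - y, p.2) - M (φ p.2, p.2) := by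
      rw [← map_sub]
      congr 1
      refine Prod.ext ?_ ?_
      · change p.1 - y = p.1 + φ p.2 - y - φ p.2
        abel
      · change (0 : W) = p.2 - p.2
        rw [sub_self]
    have h2 := hφ2 _ hp
    have h3 := norm_sub_le (M (p.1 + φ p.2 - y, p.2)) (M (φ p.2, p.2))
    rw [e1]
    refine h3.trans ?_
    have h4 : ‖M (p.1 + φ p.2 - y, p.2)‖ < θ := hy1
    have h5 : ‖M (φ p.2, p.2)‖ ≤ (Module.finrank ℝ X + 1) * θ := h2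
    linarith
  obtain ⟨κ, hκ1, hκ2, hκ3, hκ4⟩ := kappa hC hc hT hTC hφ hφ1
  obtain ⟨ψ, hψ1, hψ2, hψ3, hψ4⟩ := psi hC hc hC0 hT hTc hT0 hφ hφ1 hτ hτT
  obtain ⟨Φ, hΦ⟩ : ∃ Φ : X × W → X × W, Φ = fun p => (p.1 + φ p.2, p.2) := ⟨_, rfl⟩
  have hΦc : Continuous Φ := by
    rw [hΦ]
    exact (continuous_fst.add (hφ.comp continuous_snd)).prodMk continuous_snd
  have hΦi : Function.Injective Φ := by
    intro p q hpq
    rw [hΦ] at hpq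
    have hpq' : (p.1 + φ p.2, p.2) = (q.1 + φ q.2, q.2) := hpq
    have h1 : p.1 + φ p.2 = q.1 + φ q.2 := (Prod.mk.inj hpq').1
    have h2 : p.2 = q.2 := (Prod.mk.inj hpq').2
    rw [h2] at h1
    exact Prod.ext (add_right_cancel h1) h2
  have hΦC : Φ '' {p | (p.1 + φ p.2, p.2) ∈ C} = C := by
    ext z
    constructor
    · rintro ⟨p, hp, rfl⟩
      rw [hΦ]
      exact hp
    · intro hz
      have e1 : z.1 - φ z.2 + φ z.2 = z.1 := sub_add_cancel _ _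
      refine ⟨(z.1 - φ z.2, z.2), ?_, ?_⟩
      · change (z.1 - φ z.2 + φ z.2, z.2) ∈ C
        rw [e1]
        exact hz
      · rw [hΦ]
        change (z.1 - φ z.2 + φ z.2, z.2) = z
        rw [e1]
  have himg : (fun p => Φ (ψ (κ p))) '' (T₀ ×ˢ Metric.closedBall 0 1) = C := by
    have e1 : (fun p => Φ (ψ (κ p))) '' (T₀ ×ˢ Metric.closedBall 0 1)
        = Φ '' (ψ '' (κ '' (T₀ ×ˢ Metric.closedBall 0 1))) := by
      rw [image_image, image_image]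
    rw [e1, hκ3, hψ3, hΦC]
  refine ⟨fun p => Φ (ψ (κ p)), ?_, ?_, himg, ?_⟩
  · exact (hΦc.comp hψ1).comp_continuousOn hκ1
  · intro p hp q hq hpq
    exact hκ2 hp hq (hψ2 (hΦi hpq))
  · intro x hx t ht
    obtain ⟨l, hl1, hl2, hl3⟩ := hψ4 (κ (x, t))
    have hz : Φ (ψ (κ (x, t))) ∈ C := by
      rw [← himg]
      exact ⟨(x, t), ⟨hx, ht⟩, rfl⟩
    obtain ⟨z, hzd⟩ : ∃ z, z = Φ (ψ (κ (x, t))) := ⟨_, rfl⟩
    have hz1 : z.1 = l • x + φ z.2 := by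
      rw [hzd, hΦ, hl3]
      change l • (κ (x, t)).1 + φ (l • (κ (x, t)).2) = l • x + φ (l • (κ (x, t)).2)
      rw [hκ4]
    rw [← hzd] at hz
    change ‖M ((Φ (ψ (κ (x, t)))).1 - x, (Φ (ψ (κ (x, t)))).2)‖ ≤ _
    rw [← hzd]
    have e1 : M (z.1 - x, z.2) = M (φ z.2, z.2) + (l - 1) • M (x, 0) := by
      rw [← map_smul, ← map_add]
      congr 1
      refine Prod.ext ?_ ?_
      · change z.1 - x = φ z.2 + (l - 1) • x
        rw [hz1, sub_smul, one_smul]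
        abel
      · change z.2 = z.2 + (l - 1) • (0 : W)
        rw [smul_zero, add_zero]
    have e2 : M (τ • x, 0) = τ • M (x, 0) := by
      rw [← map_smul]
      congr 1
      refine Prod.ext rfl ?_
      change (0 : W) = τ • (0 : W)
      rw [smul_zero]
    have h1 : ‖(l - 1) • M (x, 0)‖ ≤ ‖τ • M (x, 0)‖ :=
      norm_smul_mono hF (by linarith) (by linarith) _
    rw [e1, e2]
    exact (norm_add_le _ _).trans (add_le_add (hφ2 z hz) h1)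

end Pool.Agent.LibGC20
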