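import Mathlib

/-!
# LibGC20: the generic compact convex set of an F-space is a Hilbert cube (helper20)
Page: PAGE_7cd4a5_GENERIC_helper20.md
-/

namespace Pool.Agent.LibGC20

/-- the standard simplex of dimension `d`, with `0` in its interior -/
def T (d : ℕ) : Set (Fin d → ℝ) := {x | (∀ i, -1 ≤ x i) ∧ ∑ i, x i ≤ 1}

/-- the vertices of `T d` -/
def vt (d : ℕ) : Fin (d + 1) → (Fin d → ℝ) :=
  Fin.cons (fun _ => -1) fun j i => if i = j then (d : ℝ) else -1

/-- barycentric coordinates for `T d` -/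
noncomputable def bc {d : ℕ} (x : Fin d → ℝ) : Fin (d + 1) → ℝ :=
  Fin.cons ((1 - ∑ i, x i) / (d + 1)) fun j => (x j + 1) / (d + 1)

/-- the barycentre of the points `q j` -/
noncomputable def cen {F : Type*} [AddCommGroup F] [Module ℝ F] {d : ℕ} (q : Fin (d + 1) → F) : F :=
  ((d : ℝ) + 1)⁻¹ • ∑ j, q j

/-- the linear part of the affine map which takes the vertices of `T d` to the points `q j` -/
noncomputable def lin {F : Type*} [AddCommGroup F] [Module ℝ F] {d : ℕ} (q : Fin (d + 1) → F) :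
    (Fin d → ℝ) →ₗ[ℝ] F :=
  ∑ i : Fin d, (((d : ℝ) + 1)⁻¹ • LinearMap.proj i : (Fin d → ℝ) →ₗ[ℝ] ℝ).smulRight (q i.succ - q 0)

/-- the last `k` of the first `d + k` coordinates of the cube, as a point of `[-1,1]^k` -/
def tm (d k : ℕ) (u : ℕ → unitInterval) : Fin k → ℝ := fun j => 2 * (u (d + j) : ℝ) - 1

/-- `h` is a parametrization of `T m` by the first `m` coordinates of the cube -/
structure Good (m : ℕ) (h : (ℕ → unitInterval) → (Fin m → ℝ)) : Prop where
  cont : Continuous h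
  inj : ∀ u v, h u = h v ↔ ∀ i < m, u i = v i
  ran : Set.range h = T m

/-- the conclusion of the lemma on finite-dimensional convex sets: whenever the simplex `a + L (T m)` is close to the image of
`f`, it has a parametrization close to `f` -/
def FC {E : Type*} [NormedAddCommGroup E] [Module ℝ E] (d : ℕ) (f : (ℕ → unitInterval) → E) (θ ε : ℝ) : Prop :=
  ∀ (m : ℕ), d ≤ m → ∀ (a : E) (L : (Fin m → ℝ) →ₗ[ℝ] E), Function.Injective L →
    (∀ u, ∃ y ∈ T m, ‖f u - (a + L y)‖ < θ) → (∀ y ∈ T m, ∃ u, ‖f u - (a + L y)‖ < θ) →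
    ∃ h : (ℕ → unitInterval) → (Fin m → ℝ), Good m h ∧ ∀ u, ‖(a + L (h u)) - f u‖ ≤ ε

/-- a stage -/
structure St {E : Type*} [NormedAddCommGroup E] [Module ℝ E] (A : Set E) where
  n : ℕ
  d : ℕ
  f : (ℕ → unitInterval) → E
  β : ℝ
  θ : ℝ
  cont : Continuous f
  sub : Set.range f ⊆ A
  conv : Convex ℝ (Set.range f)
  βpos : 0 < β
  βle : β ≤ (1 / 2) ^ n
  θpos : 0 < θ
  θle : θ ≤ (1 / 2) ^ n
  modu : ∀ u v, ‖f u - f v‖ ≤ β → ∀ i < d, dist (u i) (v i) ≤ (1 / 2) ^ n
  fc : FC d f θ (β / 8)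

/-- `s'` is a next stage for `s` -/
structure Ext {E : Type*} [NormedAddCommGroup E] [Module ℝ E] {A : Set E} (s s' : St A) : Prop where
  lev : s'.n = s.n + 1
  dim : s.d < s'.d
  half : s'.β ≤ s.β / 2
  near : ∀ u, ‖s'.f u - s.f u‖ ≤ s.β / 8

/-- the hyperspace of the nonempty compact convex subsets of `A` -/
abbrev HS {E : Type*} [NormedAddCommGroup E] [Module ℝ E] (A : Set E) : Type _ :=
  {K : TopologicalSpace.NonemptyCompacts E // (K : Set E) ⊆ A ∧ Convex ℝ (K : Set E)}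

end Pool.Agent.LibGC20
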