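import Pool.Agent.LibGC20.A4

/-!
[GC20 F1] (SMALL) POINTS. For each vertex take `y₀ j ∈ T m` with `‖(a + L (vt d j)) - (a₁ + L₁ (y₀ j))‖ < θ` and `y j = (1 - η) • y₀ j ∈ interior (T m)` (`T m` is convex and a neighbourhood of `0`: `Convex.combo_interior_self_mem_interior` or `combo_self_interior_mem_interior`), with `η ∈ (0, 1)` so small that `‖η • L₁ (y₀ j)‖ < θ` for all `j` (`smul_tendsto`, finitely many `j`; `θ > 0` as a norm is `< θ`).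
`points_near`: `a + L x = cen q + lin q x` for `q j = a + L (vt d j)` (A2: `sum_vt`, `cen_add_lin`, weights of sum `1`), `a₁ + L₁ (cen y + lin y x) = cen q' + lin q' x` for `q' j = a₁ + L₁ (y j)`, and A4. `points_single`: `lin_single`, `vt_sub`: `L₁ (lin y e_i) - L e_i = (d+1)⁻¹ • ((q' i.succ - q i.succ) - (q' 0 - q 0))`.
-/

namespace Pool.Agent.LibGC20

variable {E : Type*} [NormedAddCommGroup E] [Module ℝ E] {d m : ℕ}

private theorem F1_one [ContinuousSMul ℝ E] {z a₁ : E} {L₁ : (Fin m → ℝ) →ₗ[ℝ] E} {θ : ℝ}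
    (h : ∃ y ∈ T m, ‖z - (a₁ + L₁ y)‖ < θ) :
    ∃ y ∈ interior (T m), ‖(a₁ + L₁ y) - z‖ ≤ 2 * θ := by
  obtain ⟨y₀, hy₀, hlt⟩ := h
  have hθ : 0 < θ := lt_of_le_of_lt (norm_nonneg _) hlt
  obtain ⟨c, hc, hcs⟩ := smul_tendsto (L₁ y₀) hθ
  have hη0 : 0 < min c (1 / 2 : ℝ) := lt_min hc (by norm_num)
  have hη1 : min c (1 / 2 : ℝ) ≤ 1 / 2 := min_le_right _ _
  have hηc : min c (1 / 2 : ℝ) ≤ c := min_le_left _ _
  generalize min c (1 / 2 : ℝ) = η at hη0 hη1 hηc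
  have h0 : (0 : Fin m → ℝ) ∈ interior (T m) := mem_interior_iff_mem_nhds.2 (T_nhds m)
  have hint : η • (0 : Fin m → ℝ) + (1 - η) • y₀ ∈ interior (T m) :=
    (T_convex m).combo_interior_self_mem_interior h0 hy₀ hη0 (by linarith) (by ring)
  rw [smul_zero, zero_add] at hint
  refine ⟨(1 - η) • y₀, hint, ?_⟩
  have hn : ‖η • L₁ y₀‖ < θ := hcs η (by rw [abs_of_pos hη0]; exact hηc)
  have he : (a₁ + L₁ ((1 - η) • y₀)) - z = -(z - (a₁ + L₁ y₀)) - η • L₁ y₀ := by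
    rw [map_smul, sub_smul, one_smul]
    abel
  rw [he]
  calc ‖-(z - (a₁ + L₁ y₀)) - η • L₁ y₀‖ ≤ ‖-(z - (a₁ + L₁ y₀))‖ + ‖η • L₁ y₀‖ := norm_sub_le _ _
    _ ≤ 2 * θ := by rw [norm_neg]; linarith

theorem exists_points [ContinuousSMul ℝ E] {a a₁ : E} {L : (Fin d → ℝ) →ₗ[ℝ] E} {L₁ : (Fin m → ℝ) →ₗ[ℝ] E} {θ : ℝ}
    (h : ∀ x ∈ T d, ∃ y ∈ T m, ‖(a + L x) - (a₁ + L₁ y)‖ < θ) :
    ∃ y : Fin (d + 1) → (Fin m → ℝ), (∀ j, y j ∈ interior (T m)) ∧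
      ∀ j, ‖(a₁ + L₁ (y j)) - (a + L (vt d j))‖ ≤ 2 * θ := by
  have H : ∀ j : Fin (d + 1), ∃ y ∈ interior (T m), ‖(a₁ + L₁ y) - (a + L (vt d j))‖ ≤ 2 * θ :=
    fun j => F1_one (h (vt d j) (vt_mem j))
  choose y hy1 hy2 using H
  exact ⟨y, hy1, hy2⟩

theorem points_int {y : Fin (d + 1) → (Fin m → ℝ)} (hy : ∀ j, y j ∈ interior (T m)) {x : Fin d → ℝ} (hx : x ∈ T d) :
    cen y + lin y x ∈ interior (T m) :=
  combo_mem (T_convex m).interior hy hx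

private theorem F1_aff (a : E) {k : ℕ} (L : (Fin k → ℝ) →ₗ[ℝ] E) (y : Fin (d + 1) → (Fin k → ℝ)) (x : Fin d → ℝ) :
    cen (fun j => a + L (y j)) + lin (fun j => a + L (y j)) x = a + L (cen y + lin y x) := by
  rw [cen_add_lin, cen_add_lin, map_sum]
  simp only [smul_add, map_smul]
  rw [Finset.sum_add_distrib, ← Finset.sum_smul, bc_sum, one_smul]

theorem points_near (hF : ∀ (t : ℝ) (x : E), |t| ≤ 1 → ‖t • x‖ ≤ ‖x‖) {a a₁ : E} {L : (Fin d → ℝ) →ₗ[ℝ] E}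
    {L₁ : (Fin m → ℝ) →ₗ[ℝ] E} {θ : ℝ} {y : Fin (d + 1) → (Fin m → ℝ)}
    (hy : ∀ j, ‖(a₁ + L₁ (y j)) - (a + L (vt d j))‖ ≤ 2 * θ) {x : Fin d → ℝ} (hx : x ∈ T d) :
    ‖(a₁ + L₁ (cen y + lin y x)) - (a + L x)‖ ≤ (d + 1) * (2 * θ) := by
  have h1 := combo_near hF (q := fun j => a₁ + L₁ (y j)) (q' := fun j => a + L (vt d j)) hy hx
  rw [F1_aff, F1_aff] at h1
  have h2 : cen (vt d) + lin (vt d) x = x := by rw [cen_add_lin, sum_vt]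
  rw [h2] at h1
  exact h1

theorem points_single (hF : ∀ (t : ℝ) (x : E), |t| ≤ 1 → ‖t • x‖ ≤ ‖x‖) {a a₁ : E} {L : (Fin d → ℝ) →ₗ[ℝ] E}
    {L₁ : (Fin m → ℝ) →ₗ[ℝ] E} {θ : ℝ} {y : Fin (d + 1) → (Fin m → ℝ)}
    (hy : ∀ j, ‖(a₁ + L₁ (y j)) - (a + L (vt d j))‖ ≤ 2 * θ) (i : Fin d) :
    ‖L₁ (lin y (Pi.single i 1)) - L (Pi.single i 1)‖ ≤ 4 * θ := by
  have he : L₁ (lin y (Pi.single i 1)) - L (Pi.single i 1) =
      ((d : ℝ) + 1)⁻¹ • (((a₁ + L₁ (y i.succ)) - (a + L (vt d i.succ))) -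
        ((a₁ + L₁ (y 0)) - (a + L (vt d 0)))) := by
    rw [lin_comp, lin_single, ← vt_sub i, map_smul, map_sub, ← smul_sub]
    congr 1
    abel
  rw [he]
  have hd : (0 : ℝ) ≤ (d : ℝ) := Nat.cast_nonneg d
  have habs : |((d : ℝ) + 1)⁻¹| ≤ 1 := by
    rw [abs_of_nonneg (inv_nonneg.2 (by linarith))]
    exact inv_le_one_of_one_le₀ (by linarith)
  refine (hF _ _ habs).trans ?_
  refine (norm_sub_le _ _).trans ?_
  have h1 := hy i.succ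
  have h2 := hy 0
  linarith

end Pool.Agent.LibGC20
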