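import Pool.Agent.LibGC20.F3
import Pool.Agent.LibGC20.A1
import Pool.Agent.LibGC20.R1

/-!
[GC20 F4] (SMALL) `T m` is a cube. R1 with `Z = Unit`, `S = univ`, `f p = ‖p.2‖`, `g p = gauge (T m) p.2` (continuous, positive off `0`, `≤ 1` iff in the closed convex neighbourhood `T m` of `0`): `w ↦ (rad f g ((), w)).2` maps the closed unit ball of `ℝ^m` (sup norm) onto `T m`, continuous and injective on it; compose with `tm 0 m` as in F3 (use `good_comp` for `d = 0`: `T 0 = univ`, `h u = 0`, up to `0 + m = m`, or directly).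
-/

namespace Pool.Agent.LibGC20

open Set

private noncomputable def F4_f (m : ℕ) : Unit × (Fin m → ℝ) → ℝ := fun p => ‖p.2‖

private noncomputable def F4_g (m : ℕ) : Unit × (Fin m → ℝ) → ℝ := fun p => gauge (T m) p.2

private def F4_t (m : ℕ) (u : ℕ → unitInterval) : Fin m → ℝ := fun j => 2 * (u j : ℝ) - 1

private theorem F4_hf (m : ℕ) : Hom (univ : Set Unit) (F4_f m) where
  cont := (continuous_norm.comp continuous_snd).continuousOn
  hom := fun a _ s hs w => by
    change ‖s • w‖ = s * ‖w‖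
    rw [norm_smul, Real.norm_of_nonneg hs]
  pos := fun a _ w hw => norm_pos_iff.2 hw

private theorem F4_hg (m : ℕ) : Hom (univ : Set Unit) (F4_g m) where
  cont := ((continuous_gauge (T_convex m) (T_nhds m)).comp continuous_snd).continuousOn
  hom := fun a _ s hs w => by
    change gauge (T m) (s • w) = s * gauge (T m) w
    rw [gauge_smul_of_nonneg hs, smul_eq_mul]
  pos := fun a _ w hw => by
    change 0 < gauge (T m) w
    exact (gauge_pos (absorbent_nhds_zero (T_nhds m)) ((NormedSpace.isVonNBounded_iff ℝ).2 (T_compact m).isBounded)).2 hw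

private theorem F4_mem {m : ℕ} (x : Fin m → ℝ) : F4_g m ((), x) ≤ 1 ↔ x ∈ T m := by
  change gauge (T m) x ≤ 1 ↔ _
  rw [gauge_le_one_iff_mem_closure (T_convex m) (T_nhds m), (T_compact m).isClosed.closure_eq]

private theorem F4_tnorm {m : ℕ} (u : ℕ → unitInterval) : ‖F4_t m u‖ ≤ 1 := by
  rw [pi_norm_le_iff_of_nonneg zero_le_one]
  intro j
  have h1 := (u j).2.1
  have h2 := (u j).2.2
  rw [Real.norm_eq_abs, abs_le]
  change -1 ≤ 2 * (u j : ℝ) - 1 ∧ 2 * (u j : ℝ) - 1 ≤ 1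
  constructor <;> linarith

private theorem F4_tsurj {m : ℕ} {x : Fin m → ℝ} (hx : ‖x‖ ≤ 1) : ∃ u : ℕ → unitInterval, F4_t m u = x := by
  rw [pi_norm_le_iff_of_nonneg zero_le_one] at hx
  have h1 : ∀ j : Fin m, (x j + 1) / 2 ∈ unitInterval := fun j => by
    have h2 := hx j
    rw [Real.norm_eq_abs, abs_le] at h2
    constructor <;> linarith [h2.1, h2.2]
  refine ⟨fun i => if h : i < m then ⟨(x ⟨i, h⟩ + 1) / 2, h1 ⟨i, h⟩⟩ else 0, ?_⟩
  funext j
  change 2 * (((if h : (j : ℕ) < m then ⟨(x ⟨j, h⟩ + 1) / 2, h1 ⟨j, h⟩⟩ else 0 : unitInterval)) : ℝ) - 1 = x j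
  rw [dif_pos j.2]
  change 2 * ((x j + 1) / 2) - 1 = x j
  ring

theorem base (m : ℕ) : ∃ h : (ℕ → unitInterval) → (Fin m → ℝ), Good m h := by
  have hc : Continuous (rad (F4_f m) (F4_g m)) := by
    have h1 := rad_cont (isCompact_univ) (F4_hf m) (F4_hg m)
    rwa [univ_prod_univ, continuousOn_univ] at h1
  have hi := rad_inj (F4_hf m) (F4_hg m)
  have him := rad_image (F4_hf m) (F4_hg m)
  have ht : Continuous (F4_t m) := by
    unfold F4_t
    fun_prop
  refine ⟨fun u => (rad (F4_f m) (F4_g m) ((), F4_t m u)).2, ⟨?_, ?_, ?_⟩⟩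
  · exact continuous_snd.comp (hc.comp (continuous_const.prodMk ht))
  · intro u v
    constructor
    · intro h i him
      have h1 : rad (F4_f m) (F4_g m) ((), F4_t m u) = rad (F4_f m) (F4_g m) ((), F4_t m v) := Prod.ext rfl h
      have h2 := hi ⟨mem_univ _, mem_univ _⟩ ⟨mem_univ _, mem_univ _⟩ h1
      have h3 : F4_t m u ⟨i, him⟩ = F4_t m v ⟨i, him⟩ := congrFun (congrArg Prod.snd h2) _
      change 2 * (u i : ℝ) - 1 = 2 * (v i : ℝ) - 1 at h3
      exact Subtype.ext (by linarith)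
    · intro h
      have h1 : F4_t m u = F4_t m v := by
        funext j
        change 2 * (u j : ℝ) - 1 = 2 * (v j : ℝ) - 1
        rw [h j j.2]
      simp only [h1]
  · ext x
    constructor
    · rintro ⟨u, rfl⟩
      have h1 : rad (F4_f m) (F4_g m) ((), F4_t m u) ∈ {p : Unit × (Fin m → ℝ) | p.1 ∈ (univ : Set Unit) ∧ F4_g m p ≤ 1} := by
        rw [← him]
        exact ⟨((), F4_t m u), ⟨mem_univ _, F4_tnorm u⟩, rfl⟩
      exact (F4_mem _).1 h1.2
    · intro hx
      have h1 : (((), x) : Unit × (Fin m → ℝ)) ∈ {p : Unit × (Fin m → ℝ) | p.1 ∈ (univ : Set Unit) ∧ F4_g m p ≤ 1} :=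
        ⟨mem_univ _, (F4_mem x).2 hx⟩
      rw [← him] at h1
      obtain ⟨⟨a, y⟩, hy, hxy⟩ := h1
      obtain ⟨u, hu⟩ := F4_tsurj (x := y) hy.2
      refine ⟨u, ?_⟩
      simp only [hu]
      exact congrArg Prod.snd hxy

end Pool.Agent.LibGC20
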