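import Pool.Agent.LibGC20.A1
import Pool.Agent.LibGC20.A3

/-!
[GC20 Q2] (SMALL) `gauge_near`: `gauge (T d) y ≤ 1`, `gauge (T d) (x - y) ≤ (d + 1) * ‖x - y‖` because `closedBall 0 (1 / (d + 1)) ⊆ T d` (`gauge_mono`, `gauge_closedBall`), `gauge_add_le`.
`small_smul`: `L' (t • x) = ∑ (t * x i) • L' e_i`, `|t * x i| ≤ t * (d + 1)` (`T_norm`), choose `τ₀ * (d + 1) ≤ 1` and `τ₀ * (d + 1) ≤ c_i` where `‖s • L e_i‖ < ε / (2 * (d + 1))` for `|s| ≤ c_i` (`smul_tendsto`), `ν = ε / (2 * (d + 1))`.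
-/

namespace Pool.Agent.LibGC20

theorem gauge_near {d : ℕ} {x y : Fin d → ℝ} (hy : y ∈ T d) : gauge (T d) x ≤ 1 + (d + 1) * ‖x - y‖ := by
  have hd : (0 : ℝ) < 1 / ((d : ℝ) + 1) := by positivity
  have hab : Absorbent ℝ (T d) := absorbent_nhds_zero (T_nhds d)
  have hab' : Absorbent ℝ (Metric.closedBall (0 : Fin d → ℝ) (1 / (d + 1))) :=
    absorbent_nhds_zero (Metric.closedBall_mem_nhds _ hd)
  have h1 : gauge (T d) x ≤ gauge (T d) y + gauge (T d) (x - y) := by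
    have := gauge_add_le (T_convex d) hab y (x - y)
    rwa [add_sub_cancel] at this
  have h2 : gauge (T d) y ≤ 1 := gauge_le_one_of_mem hy
  have h3 : gauge (T d) (x - y) ≤ gauge (Metric.closedBall (0 : Fin d → ℝ) (1 / (d + 1))) (x - y) :=
    gauge_mono hab' (T_ball d) (x - y)
  rw [gauge_closedBall hd.le, div_div_eq_mul_div, div_one] at h3
  linarith [mul_comm ‖x - y‖ ((d : ℝ) + 1)]

theorem small_smul {E : Type*} [NormedAddCommGroup E] [Module ℝ E] [ContinuousSMul ℝ E]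
    (hF : ∀ (t : ℝ) (x : E), |t| ≤ 1 → ‖t • x‖ ≤ ‖x‖) {d : ℕ} (L : (Fin d → ℝ) →ₗ[ℝ] E) {ε : ℝ} (hε : 0 < ε) :
    ∃ τ₀ > 0, ∃ ν > 0, ∀ L' : (Fin d → ℝ) →ₗ[ℝ] E, (∀ i, ‖L' (Pi.single i 1) - L (Pi.single i 1)‖ ≤ ν) →
      ∀ t : ℝ, 0 ≤ t → t ≤ τ₀ → ∀ x ∈ T d, ‖L' (t • x)‖ ≤ ε := by
  have hd : (0 : ℝ) < (d : ℝ) + 1 := by positivity
  have hν : 0 < ε / (2 * ((d : ℝ) + 1)) := by positivity
  have hc : ∀ i : Fin d, ∃ c : ℝ, 0 < c ∧ ∀ t : ℝ, |t| ≤ c →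
      ‖t • L (Pi.single i 1)‖ < ε / (2 * ((d : ℝ) + 1)) := fun i => smul_tendsto _ hν
  choose c hc0 hc1 using hc
  have hS : 0 ≤ ∑ i, (c i)⁻¹ := Finset.sum_nonneg fun i _ => (inv_pos.2 (hc0 i)).le
  have hp : 0 < 1 + ∑ i, (c i)⁻¹ := by linarith
  have hc2 : (1 + ∑ i, (c i)⁻¹)⁻¹ ≤ 1 := inv_le_one_of_one_le₀ (by linarith)
  have hc3 : ∀ i, (1 + ∑ i, (c i)⁻¹)⁻¹ ≤ c i := by
    intro i
    refine inv_le_of_inv_le₀ (hc0 i) ?_
    have := Finset.single_le_sum (f := fun i => (c i)⁻¹) (fun i _ => (inv_pos.2 (hc0 i)).le)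
      (Finset.mem_univ i)
    linarith
  refine ⟨(1 + ∑ i, (c i)⁻¹)⁻¹ / ((d : ℝ) + 1), by positivity, ε / (2 * ((d : ℝ) + 1)), hν, ?_⟩
  intro L' hL' t ht0 ht1 x hx
  have h1 : ∀ i, |t * x i| ≤ (1 + ∑ i, (c i)⁻¹)⁻¹ := by
    intro i
    have h2 : |x i| ≤ (d : ℝ) + 1 := by
      have h3 := norm_le_pi_norm x i
      rw [Real.norm_eq_abs] at h3
      exact h3.trans (T_norm hx)
    rw [abs_mul, abs_of_nonneg ht0]
    calc t * |x i| ≤ ((1 + ∑ i, (c i)⁻¹)⁻¹ / ((d : ℝ) + 1)) * ((d : ℝ) + 1) :=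
          mul_le_mul ht1 h2 (abs_nonneg _) (by positivity)
      _ = (1 + ∑ i, (c i)⁻¹)⁻¹ := div_mul_cancel₀ _ hd.ne'
  have h2 : t • x = ∑ i, (t * x i) • (Pi.single i (1 : ℝ) : Fin d → ℝ) := by
    ext j
    simp [Finset.sum_apply, Pi.single_apply]
  rw [h2, map_sum]
  have h3 : ∀ i ∈ (Finset.univ : Finset (Fin d)),
      ‖L' ((t * x i) • (Pi.single i (1 : ℝ) : Fin d → ℝ))‖ ≤ ε / ((d : ℝ) + 1) := by
    intro i _
    rw [map_smul]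
    have h4 : (t * x i) • L' (Pi.single i 1) = (t * x i) • L (Pi.single i 1) +
        (t * x i) • (L' (Pi.single i 1) - L (Pi.single i 1)) := by
      rw [← smul_add, add_sub_cancel]
    rw [h4]
    have h5 := hc1 i (t * x i) ((h1 i).trans (hc3 i))
    have h6 := (hF (t * x i) (L' (Pi.single i 1) - L (Pi.single i 1)) ((h1 i).trans hc2)).trans (hL' i)
    have h7 : ε / ((d : ℝ) + 1) = ε / (2 * ((d : ℝ) + 1)) + ε / (2 * ((d : ℝ) + 1)) := by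
      field_simp
      ring
    rw [h7]
    exact (norm_add_le _ _).trans (add_le_add h5.le h6)
  calc ‖∑ i, L' ((t * x i) • (Pi.single i (1 : ℝ) : Fin d → ℝ))‖
      ≤ ∑ _i : Fin d, ε / ((d : ℝ) + 1) := norm_sum_le_of_le _ h3
    _ = (d : ℝ) * (ε / ((d : ℝ) + 1)) := by
        rw [Finset.sum_const, Finset.card_univ, Fintype.card_fin, nsmul_eq_mul]
    _ ≤ ε := by
        rw [mul_div_assoc', div_le_iff₀ hd]
        nlinarith

end Pool.Agent.LibGC20
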