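import Pool.Agent.LibGC20.C3
import Pool.Agent.LibGC20.Q1
import Pool.Agent.LibGC20.Q2
import Pool.Agent.LibGC20.F1
import Pool.Agent.LibGC20.F2
import Pool.Agent.LibGC20.F3

/-!
[GC20 F5] (MEDIUM) LEMMA ON FINITE-DIMENSIONAL CONVEX SETS. Write `D = d`. From `small_smul` with `ε / 3`: `τ₀, ν₁`. From `stab` with `c = τ₀ / (d + 1)`: `μ, ν₂`. `θ > 0` with `4 * θ ≤ ν₁`, `4 * θ ≤ ν₂`, `(d + 2) * ((2 * d + 3) * θ) ≤ μ`, `(d + 1) * ((2 * d + 3) * θ) ≤ ε / 3`, `(d + 1) * (2 * θ) ≤ ε / 3`.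
Given `m ≥ d`, write `m = d + k` (`subst`), `a₁, L₁` as in `FC`. As `range h = T d`, the two hypotheses are about `a + L x`, `x ∈ T d`. F1 gives `y`; `L' := L₁ ∘ lin y` satisfies `‖L' e_i - L e_i‖ ≤ 4 * θ`, so (Q1) `‖L' v‖ ≤ μ → ‖v‖ ≤ c` and `L'`, hence `lin y`, is injective. F2: `J`, `J (x, 0) = lin y x`. `C = {z | cen y + J z ∈ T (d + k)}`: compact (preimage under the homeomorphism `z ↦ cen y + J z`), convex, and `(x, 0) ∈ interior C` for `x ∈ T d` (`points_int`, continuity).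
`M = L₁ ∘ J`. `h` of `core` with `θ' = (2 * d + 3) * θ`: for `z ∈ C`, `v = cen y + J z ∈ T (d + k)`, there is `x ∈ T d` with `‖(a + L x) - (a₁ + L₁ v)‖ < θ`, and `M (z.1 - x, z.2) = L₁ (J z - lin y x) = (a₁ + L₁ v) - (a₁ + L₁ (cen y + lin y x))`, use `points_near`. `hg`: `M (x - y', 0) = L' (x - y')`, `≤ (d + 2) * θ' ≤ μ`, so `‖x - y'‖ ≤ c`, `gauge_near` with `(d + 1) * c = τ₀ =: τ`.
`g₀` from `core`, `h' u = cen y + J (g₀ (h u, tm d k u))`: `Good` by F3 (`g = fun z => cen y + J (g₀ z)`, image `cen y + J '' C = T (d + k)`). Displacement, `x = h u`: `(a₁ + L₁ (h' u)) - (a + L x) = M (g₀(..).1 - x, g₀(..).2) + ((a₁ + L₁ (cen y + lin y x)) - (a + L x))`, norm `≤ (d + 1) * θ' + ‖L' (τ₀ • x)‖ + (d + 1) * (2 * θ) ≤ ε`. (`Module.finrank ℝ (Fin d → ℝ) = d`.)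
-/

namespace Pool.Agent.LibGC20

theorem fc_lemma {E : Type*} [NormedAddCommGroup E] [Module ℝ E] [ContinuousSMul ℝ E]
    (hF : ∀ (t : ℝ) (x : E), |t| ≤ 1 → ‖t • x‖ ≤ ‖x‖) {d : ℕ} (a : E) {L : (Fin d → ℝ) →ₗ[ℝ] E} (hL : Function.Injective L)
    {h : (ℕ → unitInterval) → (Fin d → ℝ)} (hh : Good d h) {ε : ℝ} (hε : 0 < ε) :
    ∃ θ > 0, FC d (fun u => a + L (h u)) θ ε := by
  classical
  have hd1 : (0 : ℝ) < (d : ℝ) + 1 := by positivity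
  obtain ⟨τ₀, hτ₀, ν₁, hν₁, hsmall⟩ := small_smul hF L (ε := ε / 3) (by positivity)
  obtain ⟨μ, hμ, ν₂, hν₂, hstab⟩ := stab hF hL (c := τ₀ / (d + 1)) (by positivity)
  obtain ⟨θ, hθ, hθ1, hθ2, hθ3, hθ4, hθ5⟩ : ∃ θ : ℝ, 0 < θ ∧ 4 * θ ≤ ν₁ ∧ 4 * θ ≤ ν₂ ∧
      ((d : ℝ) + 2) * ((2 * d + 3) * θ) ≤ μ ∧ ((d : ℝ) + 1) * ((2 * d + 3) * θ) ≤ ε / 3 ∧
      ((d : ℝ) + 1) * (2 * θ) ≤ ε / 3 := by
    have h3 : (0 : ℝ) < ((d : ℝ) + 2) * (2 * d + 3) := by positivity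
    have h4 : (0 : ℝ) < ((d : ℝ) + 1) * (2 * d + 3) := by positivity
    have h5 : (0 : ℝ) < ((d : ℝ) + 1) * 2 := by positivity
    refine ⟨min (ν₁ / 4) (min (ν₂ / 4) (min (μ / (((d : ℝ) + 2) * (2 * d + 3)))
      (min (ε / 3 / (((d : ℝ) + 1) * (2 * d + 3))) (ε / 3 / (((d : ℝ) + 1) * 2))))), ?_, ?_, ?_, ?_, ?_, ?_⟩
    · refine lt_min (by positivity) (lt_min (by positivity) (lt_min (by positivity)
        (lt_min (by positivity) (by positivity))))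
    · have := min_le_left (ν₁ / 4) (min (ν₂ / 4) (min (μ / (((d : ℝ) + 2) * (2 * d + 3)))
        (min (ε / 3 / (((d : ℝ) + 1) * (2 * d + 3))) (ε / 3 / (((d : ℝ) + 1) * 2)))))
      linarith
    · have := (min_le_right (ν₁ / 4) (min (ν₂ / 4) (min (μ / (((d : ℝ) + 2) * (2 * d + 3)))
        (min (ε / 3 / (((d : ℝ) + 1) * (2 * d + 3))) (ε / 3 / (((d : ℝ) + 1) * 2)))))).trans (min_le_left _ _)
      linarith
    · have := (min_le_right (ν₁ / 4) (min (ν₂ / 4) (min (μ / (((d : ℝ) + 2) * (2 * d + 3)))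
        (min (ε / 3 / (((d : ℝ) + 1) * (2 * d + 3))) (ε / 3 / (((d : ℝ) + 1) * 2)))))).trans
        ((min_le_right _ _).trans (min_le_left _ _))
      rw [le_div_iff₀ h3] at this
      linarith
    · have := (min_le_right (ν₁ / 4) (min (ν₂ / 4) (min (μ / (((d : ℝ) + 2) * (2 * d + 3)))
        (min (ε / 3 / (((d : ℝ) + 1) * (2 * d + 3))) (ε / 3 / (((d : ℝ) + 1) * 2)))))).trans
        ((min_le_right _ _).trans ((min_le_right _ _).trans (min_le_left _ _)))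
      rw [le_div_iff₀ h4] at this
      linarith
    · have := (min_le_right (ν₁ / 4) (min (ν₂ / 4) (min (μ / (((d : ℝ) + 2) * (2 * d + 3)))
        (min (ε / 3 / (((d : ℝ) + 1) * (2 * d + 3))) (ε / 3 / (((d : ℝ) + 1) * 2)))))).trans
        ((min_le_right _ _).trans ((min_le_right _ _).trans (min_le_right _ _)))
      rw [le_div_iff₀ h5] at this
      linarith
  refine ⟨θ, hθ, ?_⟩
  intro m hm a₁ L₁ hL₁ H1 H2
  obtain ⟨k, rfl⟩ := Nat.exists_eq_add_of_le hm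
  have hmem : ∀ u, h u ∈ T d := fun u => hh.ran ▸ Set.mem_range_self u
  have hA : ∀ x ∈ T d, ∃ y ∈ T (d + k), ‖(a + L x) - (a₁ + L₁ y)‖ < θ := by
    intro x hx
    rw [← hh.ran] at hx
    obtain ⟨u, rfl⟩ := hx
    exact H1 u
  have hB : ∀ y ∈ T (d + k), ∃ x ∈ T d, ‖(a + L x) - (a₁ + L₁ y)‖ < θ := by
    intro y hy
    obtain ⟨u, hu⟩ := H2 y hy
    exact ⟨h u, hmem u, hu⟩
  obtain ⟨y, hyint, hynear⟩ := exists_points hA
  have hL' : ∀ i, ‖(L₁ ∘ₗ lin y) (Pi.single i 1) - L (Pi.single i 1)‖ ≤ 4 * θ := fun i =>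
    points_single hF hynear i
  have hst : ∀ v, ‖(L₁ ∘ₗ lin y) v‖ ≤ μ → ‖v‖ ≤ τ₀ / (d + 1) :=
    hstab (L₁ ∘ₗ lin y) (fun i => (hL' i).trans hθ2)
  have hinj : Function.Injective (L₁ ∘ₗ lin y) := stab_inj hμ hst
  have hinj' : Function.Injective (lin y) := by
    intro v w hvw
    apply hinj
    simp only [LinearMap.comp_apply, hvw]
  obtain ⟨J, hJ⟩ := exists_iso (lin y) hinj'
  set Φ : ((Fin d → ℝ) × (Fin k → ℝ)) ≃ₜ (Fin (d + k) → ℝ) :=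
    J.toContinuousLinearEquiv.toHomeomorph.trans (Homeomorph.addLeft (cen y)) with hΦdef
  have hΦ : ∀ z, Φ z = cen y + J z := fun z => rfl
  have hC : IsCompact (Φ ⁻¹' T (d + k)) := (Homeomorph.isCompact_preimage Φ).2 (T_compact _)
  have hc : Convex ℝ (Φ ⁻¹' T (d + k)) :=
    ((T_convex (d + k)).translate_preimage_right (cen y)).linear_preimage J.toLinearMap
  have hTC : ∀ x ∈ T d, (x, (0 : Fin k → ℝ)) ∈ interior (Φ ⁻¹' T (d + k)) := by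
    intro x hx
    rw [← Homeomorph.preimage_interior, Set.mem_preimage, hΦ, hJ]
    exact points_int hyint hx
  set M : (Fin d → ℝ) × (Fin k → ℝ) →ₗ[ℝ] E := L₁ ∘ₗ J.toLinearMap with hMdef
  have hM : ∀ z, M z = L₁ (J z) := fun z => rfl
  have hM0 : ∀ x : Fin d → ℝ, M (x, 0) = (L₁ ∘ₗ lin y) x := by
    intro x
    rw [hM, hJ]
    rfl
  have hkey : ∀ (z : (Fin d → ℝ) × (Fin k → ℝ)) (x : Fin d → ℝ),
      M (z.1 - x, z.2) = (a₁ + L₁ (Φ z)) - (a₁ + L₁ (cen y + lin y x)) := by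
    intro z x
    have h1 : (z.1 - x, z.2) = z - (x, (0 : Fin k → ℝ)) := by
      ext <;> simp
    rw [h1, map_sub, hM, hM, hJ, hΦ, map_add, map_add]
    abel
  have hh1 : ∀ z ∈ Φ ⁻¹' T (d + k), ∃ x ∈ T d, ‖M (z.1 - x, z.2)‖ < (2 * d + 3) * θ := by
    intro z hz
    obtain ⟨x, hx, hxn⟩ := hB (Φ z) hz
    refine ⟨x, hx, ?_⟩
    have h2 := points_near hF hynear hx
    have h3 : M (z.1 - x, z.2) = ((a₁ + L₁ (Φ z)) - (a + L x)) - ((a₁ + L₁ (cen y + lin y x)) - (a + L x)) := by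
      rw [hkey]
      abel
    rw [h3]
    refine (norm_sub_le _ _).trans_lt ?_
    rw [norm_sub_rev (a₁ + L₁ (Φ z))]
    nlinarith [hxn, h2]
  have hfr : Module.finrank ℝ (Fin d → ℝ) = d := by simp
  have hhg : ∀ x, ∀ y' ∈ T d, ‖M (x - y', 0)‖ ≤ ((Module.finrank ℝ (Fin d → ℝ) : ℕ) + 2) * ((2 * d + 3) * θ) →
      gauge (T d) x ≤ 1 + τ₀ := by
    intro x y' hy' hn
    rw [hfr, hM0] at hn
    have h1 := hst _ (hn.trans hθ3)
    have h2 := gauge_near (x := x) hy'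
    rw [le_div_iff₀ hd1] at h1
    linarith
  obtain ⟨g₀, hgc, hgi, hgim, hgest⟩ := core hF hC hc (T_compact d) (T_convex d) (T_nhds d) hTC M
    hτ₀.le hh1 hhg
  refine ⟨fun u => Φ (g₀ (h u, tm d k u)), good_comp hh (g := fun z => Φ (g₀ z)) ?_ ?_ ?_, ?_⟩
  · exact Φ.continuous.comp_continuousOn hgc
  · exact Φ.injective.injOn.comp hgi (Set.mapsTo_univ _ _)
  · have h1 : (fun z => Φ (g₀ z)) '' (T d ×ˢ Metric.closedBall 0 1) =
        Φ '' (g₀ '' (T d ×ˢ Metric.closedBall 0 1)) := by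
      rw [Set.image_image]
    rw [h1, hgim, Set.image_preimage_eq _ Φ.surjective]
  · intro u
    have hx := hmem u
    have h1 := hgest (h u) hx (tm d k u) (tm_mem d k u)
    rw [hfr, hM0] at h1
    have h2 := hsmall (L₁ ∘ₗ lin y) (fun i => (hL' i).trans hθ1) τ₀ hτ₀.le le_rfl (h u) hx
    have h3 := points_near hF hynear hx
    have h4 : (a₁ + L₁ (Φ (g₀ (h u, tm d k u)))) - (a + L (h u)) =
        M ((g₀ (h u, tm d k u)).1 - h u, (g₀ (h u, tm d k u)).2) +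
          ((a₁ + L₁ (cen y + lin y (h u))) - (a + L (h u))) := by
      rw [hkey]
      abel
    have h5 : ‖(a₁ + L₁ (Φ (g₀ (h u, tm d k u)))) - (a + L (h u))‖ ≤ ε := by
      rw [h4]
      refine (norm_add_le _ _).trans ?_
      linarith
    exact h5

end Pool.Agent.LibGC20
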