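import Pool.Agent.LibGC20.A3

/-!
[GC20 H1] (MEDIUM) PERTURBATION to affinely independent points of `A`. Induction on `m` with `Fin.snoc` (or `Fin.cons`): given the first `m` points `q'`, the affine span of `range q'` is finite-dimensional, so it does not contain `A` (otherwise `vectorSpan ℝ A` would be contained in a finite-dimensional space); let `e ∈ A` be outside it. If `q_m` is outside, keep it; otherwise take `(1 - t) • q_m + t • e` with small `t ∈ (0, 1)` (`smul_tendsto` applied to `e - q_m`): in `A` by convexity,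
outside the affine span (otherwise `e = q_m + t⁻¹ • (..)` would be inside). Adding a point outside the affine span keeps affine independence (`AffineIndependent.affineIndependent_of_notMem_span`, or `affineIndependent_iff_linearIndependent_vsub` and `LinearIndependent` of `Fin.snoc`/`Fin.cons`, `linearIndependent_finSnoc`; for `m = 0` and `m = 1` trivial).
-/

namespace Pool.Agent.LibGC20

private theorem H1_snoc {E : Type*} [AddCommGroup E] [Module ℝ E] {m : ℕ} {q : Fin m → E} (hq : AffineIndependent ℝ q)
    {x : E} (hx : x ∉ affineSpan ℝ (Set.range q)) : AffineIndependent ℝ (Fin.snoc (α := fun _ => E) q x) := by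
  refine AffineIndependent.affineIndependent_of_notMem_span (i := Fin.last m) ?_ ?_
  · let g : {y : Fin (m + 1) // y ≠ Fin.last m} ↪ Fin m :=
      ⟨fun y => y.1.castPred y.2, fun a b h => Subtype.ext (Fin.castPred_inj.1 h)⟩
    have h1 : (fun y : {y : Fin (m + 1) // y ≠ Fin.last m} => (Fin.snoc (α := fun _ => E) q x) (y : Fin (m + 1))) =
        q ∘ g := by
      funext y
      obtain ⟨y, hy⟩ := y
      have h2 : y = (y.castPred hy).castSucc := (Fin.castSucc_castPred y hy).symm
      change (Fin.snoc (α := fun _ => E) q x) y = q (y.castPred hy)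
      conv_lhs => rw [h2]
      rw [Fin.snoc_castSucc]
    rw [h1]
    exact hq.comp_embedding g
  · rw [Fin.snoc_last]
    intro h
    apply hx
    refine affineSpan_mono ℝ ?_ h
    rintro _ ⟨y, hy, rfl⟩
    refine ⟨y.castPred hy, ?_⟩
    have h2 : y = (y.castPred hy).castSucc := (Fin.castSucc_castPred y hy).symm
    conv_rhs => rw [h2]
    rw [Fin.snoc_castSucc]

theorem exists_perturb {E : Type*} [NormedAddCommGroup E] [Module ℝ E] [ContinuousSMul ℝ E] {A : Set E} (hA : Convex ℝ A)
    (hinf : ¬ FiniteDimensional ℝ (vectorSpan ℝ A)) {m : ℕ} (q : Fin m → E) (hq : ∀ j, q j ∈ A) {r : ℝ} (hr : 0 < r) :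
    ∃ q' : Fin m → E, (∀ j, q' j ∈ A) ∧ AffineIndependent ℝ q' ∧ ∀ j, ‖q' j - q j‖ ≤ r := by
  induction m with
  | zero => exact ⟨q, hq, affineIndependent_of_subsingleton ℝ q, fun j => j.elim0⟩
  | succ m ih =>
    obtain ⟨p, hp1, hp2, hp3⟩ := ih (fun j => q j.castSucc) (fun j => hq _)
    obtain ⟨e, he1, he2⟩ : ∃ e ∈ A, e ∉ affineSpan ℝ (Set.range p) := by
      by_contra hcon
      push Not at hcon
      apply hinf
      have h1 : affineSpan ℝ A ≤ affineSpan ℝ (Set.range p) := affineSpan_le.2 hcon
      have h2 := AffineSubspace.direction_le h1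
      rw [direction_affineSpan ℝ A] at h2
      exact Submodule.finiteDimensional_of_le h2
    have key : ∃ x ∈ A, x ∉ affineSpan ℝ (Set.range p) ∧ ‖x - q (Fin.last m)‖ ≤ r := by
      by_cases hx : q (Fin.last m) ∈ affineSpan ℝ (Set.range p)
      · obtain ⟨c, hc, hc2⟩ := smul_tendsto (e - q (Fin.last m)) hr
        have ht0 : 0 < min c 1 := lt_min hc one_pos
        refine ⟨AffineMap.lineMap (q (Fin.last m)) e (min c 1), ?_, ?_, ?_⟩
        · exact hA.lineMap_mem (hq _) he1 ⟨ht0.le, min_le_right _ _⟩
        · intro h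
          apply he2
          have h3 := AffineMap.lineMap_mem (min c 1)⁻¹ hx h
          have h4 : AffineMap.lineMap (q (Fin.last m)) (AffineMap.lineMap (q (Fin.last m)) e (min c 1)) (min c 1)⁻¹ = e := by
            simp only [AffineMap.lineMap_apply, vsub_eq_sub, vadd_eq_add, add_sub_cancel_right]
            rw [smul_smul, inv_mul_cancel₀ ht0.ne', one_smul, sub_add_cancel]
          rwa [h4] at h3
        · have h5 : AffineMap.lineMap (q (Fin.last m)) e (min c 1) - q (Fin.last m) =
              (min c 1) • (e - q (Fin.last m)) := by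
            simp only [AffineMap.lineMap_apply, vsub_eq_sub, vadd_eq_add, add_sub_cancel_right]
          rw [h5]
          exact (hc2 _ (by rw [abs_of_pos ht0]; exact min_le_left _ _)).le
      · exact ⟨_, hq _, hx, by simpa using hr.le⟩
    obtain ⟨x, hx1, hx2, hx3⟩ := key
    refine ⟨Fin.snoc (α := fun _ => E) p x, fun j => ?_, H1_snoc hp2 hx2, fun j => ?_⟩
    · refine Fin.lastCases ?_ (fun i => ?_) j
      · rw [Fin.snoc_last]
        exact hx1
      · rw [Fin.snoc_castSucc]
        exact hp1 i
    · refine Fin.lastCases ?_ (fun i => ?_) j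
      · rw [Fin.snoc_last]
        exact hx3
      · rw [Fin.snoc_castSucc]
        exact hp3 i

end Pool.Agent.LibGC20
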