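import Pool.Agent.LibGC20.A4
import Pool.Agent.LibGC20.H1

/-!
[GC20 H2] (MEDIUM) SIMPLICES ARE DENSE. `K` compact: finitely many points of `K` such that every `z ∈ K` is within `r / 2` of one of them (`IsCompact.finite_cover_balls`); repeat one of them (`K` nonempty) to get `q : Fin (m + 1) → E` in `K`, `m > N`, containing all of them. H1 gives `q'` in `A`, affinely independent, `‖q' j - q j‖ ≤ r / (2 * (m + 1))`. `a = cen q'`, `L = lin q'`: injective (`lin_inj`), in `A` (`combo_mem`),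
`a + L x` is within `r / 2` of `cen q + lin q x ∈ K` (`combo_near`, `combo_mem`); `z ∈ K` is within `r / 2` of some `q j`, and `q' j = a + L (vt m j)` (A2: `lin q' (vt m j)`: by `cen_add_lin` and the values `bc (vt m j) i = if i = j then 1 else 0`).
-/

namespace Pool.Agent.LibGC20

private theorem H2_bc {d : ℕ} (j i : Fin (d + 1)) : bc (vt d j) i = if i = j then 1 else 0 := by
  have hd : (d : ℝ) + 1 ≠ 0 := by positivity
  refine Fin.cases ?_ (fun k => ?_) j
  · refine Fin.cases ?_ (fun l => ?_) i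
    · have h1 : ∑ i : Fin d, vt d 0 i = -(d : ℝ) := by
        simp [vt]
      simp only [bc, Fin.cons_zero, h1, if_true]
      rw [sub_neg_eq_add, add_comm (1 : ℝ), div_self hd]
    · have h2 : (l.succ = (0 : Fin (d + 1))) = False := by simp [Fin.succ_ne_zero]
      simp [bc, vt, h2]
  · refine Fin.cases ?_ (fun l => ?_) i
    · have h1 : ∑ i : Fin d, vt d k.succ i = 1 := by
        simp only [vt, Fin.cons_succ]
        have h3 : ∀ i : Fin d, (if i = k then (d : ℝ) else -1) = (if i = k then (d : ℝ) + 1 else 0) + (-1) := by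
          intro i
          split_ifs <;> ring
        simp only [h3, Finset.sum_add_distrib, Finset.sum_ite_eq', Finset.mem_univ, if_true,
          Finset.sum_const, Finset.card_univ, Fintype.card_fin, nsmul_eq_mul]
        ring
      have h2 : ((0 : Fin (d + 1)) = k.succ) = False := by
        simp only [eq_iff_iff, iff_false]
        exact fun h => Fin.succ_ne_zero k h.symm
      simp only [bc, Fin.cons_zero, h1, h2, if_false]
      simp
    · simp only [bc, vt, Fin.cons_succ, Fin.succ_inj]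
      split_ifs
      · rw [div_self hd]
      · simp

private theorem H2_vert {F : Type*} [AddCommGroup F] [Module ℝ F] {d : ℕ} (q : Fin (d + 1) → F)
    (j : Fin (d + 1)) : cen q + lin q (vt d j) = q j := by
  rw [cen_add_lin]
  simp only [H2_bc, ite_smul, one_smul, zero_smul, Finset.sum_ite_eq', Finset.mem_univ, if_true]

theorem dense_simplices {E : Type*} [NormedAddCommGroup E] [Module ℝ E] [ContinuousSMul ℝ E]
    (hF : ∀ (t : ℝ) (x : E), |t| ≤ 1 → ‖t • x‖ ≤ ‖x‖) {A : Set E} (hA : Convex ℝ A)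
    (hinf : ¬ FiniteDimensional ℝ (vectorSpan ℝ A)) {K : Set E} (hK : IsCompact K) (hKc : Convex ℝ K) (hKne : K.Nonempty)
    (hKA : K ⊆ A) {r : ℝ} (hr : 0 < r) (N : ℕ) :
    ∃ m, N < m ∧ ∃ (a : E) (L : (Fin m → ℝ) →ₗ[ℝ] E), Function.Injective L ∧ (∀ x ∈ T m, a + L x ∈ A) ∧
      (∀ x ∈ T m, ∃ z ∈ K, ‖(a + L x) - z‖ ≤ r) ∧ ∀ z ∈ K, ∃ x ∈ T m, ‖(a + L x) - z‖ ≤ r := by
  obtain ⟨p, hp⟩ := hKne
  obtain ⟨t, htK, htf, hcov⟩ := hK.finite_cover_balls (half_pos hr)
  obtain ⟨l, hl⟩ : ∃ l : List E, ∀ x, x ∈ l ↔ x ∈ t := ⟨htf.toFinset.toList, fun x => by simp⟩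
  set m := N + 1 + l.length with hm
  let q : Fin (m + 1) → E := fun j => l.getD j p
  have hq : ∀ j, q j ∈ K := by
    intro j
    by_cases hj : (j : ℕ) < l.length
    · have h1 : q j = l[(j : ℕ)] := List.getD_eq_getElem l p hj
      rw [h1]
      exact htK ((hl _).1 (List.getElem_mem hj))
    · have h1 : q j = p := List.getD_eq_default l p (not_lt.1 hj)
      rw [h1]
      exact hp
  have hqs : ∀ c ∈ t, ∃ j, q j = c := by
    intro c hc
    obtain ⟨i, hi, rfl⟩ := List.getElem_of_mem ((hl c).2 hc)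
    exact ⟨⟨i, by omega⟩, List.getD_eq_getElem l p hi⟩
  have hm1 : (0 : ℝ) < (m : ℝ) + 1 := by positivity
  obtain ⟨q', hq'A, hq'i, hq'n⟩ := exists_perturb hA hinf q (fun j => hKA (hq j))
    (r := r / (2 * ((m : ℝ) + 1))) (by positivity)
  have he : ((m : ℝ) + 1) * (r / (2 * ((m : ℝ) + 1))) = r / 2 := by
    field_simp
  refine ⟨m, by omega, cen q', lin q', lin_inj hq'i, fun x hx => combo_mem hA hq'A hx, fun x hx => ?_,
    fun z hz => ?_⟩
  · refine ⟨cen q + lin q x, combo_mem hKc hq hx, ?_⟩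
    have := combo_near hF hq'n hx
    rw [he] at this
    linarith
  · have h1 := hcov hz
    simp only [Set.mem_iUnion, exists_prop, Metric.mem_ball] at h1
    obtain ⟨c, hc, hzc⟩ := h1
    obtain ⟨j, rfl⟩ := hqs c hc
    refine ⟨vt m j, vt_mem j, ?_⟩
    rw [H2_vert]
    have h2 := hq'n j
    have h3 : r / (2 * ((m : ℝ) + 1)) ≤ r / 2 := by
      apply div_le_div_of_nonneg_left hr.le (by norm_num)
      have : (0 : ℝ) ≤ (m : ℝ) := by positivity
      linarith
    have h4 : ‖q j - z‖ < r / 2 := by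
      rw [← dist_eq_norm, dist_comm]
      exact hzc
    calc ‖q' j - z‖ = ‖(q' j - q j) + (q j - z)‖ := by rw [sub_add_sub_cancel]
      _ ≤ ‖q' j - q j‖ + ‖q j - z‖ := norm_add_le _ _
      _ ≤ r := by linarith

end Pool.Agent.LibGC20
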