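import Pool.Agent.LibGC20.Defs

/-!
[GC20 H3] (SMALL, only Mathlib) The hyperspace. `dist K P = Metric.hausdorffDist K P` (`NonemptyCompacts.dist_eq`), finite for nonempty compact sets (`Metric.hausdorffEDist_ne_top_of_nonempty_of_bounded`); `Metric.exists_dist_lt_of_hausdorffDist_lt`, `Metric.exists_dist_lt_of_hausdorffDist_lt'`, `Metric.hausdorffDist_le_of_mem_dist`.
-/

namespace Pool.Agent.LibGC20

open TopologicalSpace

variable {E : Type*} [NormedAddCommGroup E] [Module ℝ E]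

private theorem H3_dist {A : Set E} (K P : HS A) :
    dist K P = Metric.hausdorffDist (K.1 : Set E) (P.1 : Set E) := rfl

private theorem H3_ne_top {A : Set E} (K P : HS A) :
    Metric.hausdorffEDist (K.1 : Set E) (P.1 : Set E) ≠ ⊤ :=
  Metric.hausdorffEDist_ne_top_of_nonempty_of_bounded K.1.nonempty P.1.nonempty
    K.1.isCompact.isBounded P.1.isCompact.isBounded

theorem hs_lt {A : Set E} {K P : HS A} {θ : ℝ} (h : dist K P < θ) :
    (∀ x ∈ (K.1 : Set E), ∃ y ∈ (P.1 : Set E), ‖x - y‖ < θ) ∧ ∀ y ∈ (P.1 : Set E), ∃ x ∈ (K.1 : Set E), ‖x - y‖ < θ := by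
  rw [H3_dist] at h
  have hne := H3_ne_top K P
  refine ⟨fun x hx => ?_, fun y hy => ?_⟩
  · obtain ⟨y, hy, hxy⟩ := Metric.exists_dist_lt_of_hausdorffDist_lt hx h hne
    exact ⟨y, hy, by rwa [dist_eq_norm] at hxy⟩
  · obtain ⟨x, hx, hxy⟩ := Metric.exists_dist_lt_of_hausdorffDist_lt' hy h hne
    exact ⟨x, hx, by rwa [dist_eq_norm] at hxy⟩

theorem hs_le {A : Set E} {K P : HS A} {r : ℝ} (h1 : ∀ x ∈ (K.1 : Set E), ∃ y ∈ (P.1 : Set E), ‖x - y‖ ≤ r)
    (h2 : ∀ y ∈ (P.1 : Set E), ∃ x ∈ (K.1 : Set E), ‖x - y‖ ≤ r) : dist K P ≤ r := by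
  rw [H3_dist]
  obtain ⟨x0, hx0⟩ := K.1.nonempty
  obtain ⟨y0, hy0, h0⟩ := h1 x0 hx0
  have hr : 0 ≤ r := (norm_nonneg _).trans h0
  refine Metric.hausdorffDist_le_of_mem_dist hr (fun x hx => ?_) (fun y hy => ?_)
  · obtain ⟨y, hy, hxy⟩ := h1 x hx
    exact ⟨y, hy, by rwa [dist_eq_norm]⟩
  · obtain ⟨x, hx, hxy⟩ := h2 y hy
    exact ⟨x, hx, by rwa [dist_comm, dist_eq_norm]⟩

/-- the set of a stage, as a point of the hyperspace -/
noncomputable def St.P {A : Set E} (s : St A) : HS A :=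
  ⟨⟨⟨Set.range s.f, isCompact_range s.cont⟩, Set.range_nonempty s.f⟩, s.sub, s.conv⟩

theorem coe_P {A : Set E} (s : St A) : ((St.P s).1 : Set E) = Set.range s.f := rfl

end Pool.Agent.LibGC20
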