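import Pool.Agent.LibGC20.Defs

/-!
[GC20 L2] (SMALL, only Mathlib) MODULUS. `f u = a + L (h u)` is continuous (`L` is continuous: `LinearMap.continuous_of_finiteDimensional`). The set of pairs `(u, v)` in the compact space `(ℕ → I) × (ℕ → I)` with `η ≤ dist (u i) (v i)` for some `i < d` is compact (finite union of closed sets), and `‖f u - f v‖ > 0` there (`L` injective, `Good.inj`); take half of its minimum (or `β = 1` if the set is empty).
-/

namespace Pool.Agent.LibGC20

theorem param_cont {E : Type*} [NormedAddCommGroup E] [Module ℝ E] [ContinuousSMul ℝ E] {d : ℕ} (a : E)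
    (L : (Fin d → ℝ) →ₗ[ℝ] E) {h : (ℕ → unitInterval) → (Fin d → ℝ)} (hh : Good d h) :
    Continuous fun u => a + L (h u) :=
  continuous_const.add ((LinearMap.continuous_of_finiteDimensional L).comp hh.cont)

theorem modulus {E : Type*} [NormedAddCommGroup E] [Module ℝ E] [ContinuousSMul ℝ E] {d : ℕ} (a : E)
    {L : (Fin d → ℝ) →ₗ[ℝ] E} (hL : Function.Injective L) {h : (ℕ → unitInterval) → (Fin d → ℝ)} (hh : Good d h)
    {η : ℝ} (hη : 0 < η) :
    ∃ β > 0, ∀ u v, ‖(a + L (h u)) - (a + L (h v))‖ ≤ β → ∀ i < d, dist (u i) (v i) ≤ η := by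
  have hf := param_cont a L hh
  set K : Set ((ℕ → unitInterval) × (ℕ → unitInterval)) :=
    ⋃ i ∈ Finset.range d, {p | η ≤ dist (p.1 i) (p.2 i)} with hK
  have hKc : IsCompact K := by
    refine IsClosed.isCompact ?_
    rw [hK]
    refine isClosed_biUnion_finset fun i _ => ?_
    exact isClosed_le continuous_const
      (((continuous_apply i).comp continuous_fst).dist ((continuous_apply i).comp continuous_snd))
  have hg : Continuous fun p : (ℕ → unitInterval) × (ℕ → unitInterval) =>
      ‖(a + L (h p.1)) - (a + L (h p.2))‖ :=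
    ((hf.comp continuous_fst).sub (hf.comp continuous_snd)).norm
  rcases K.eq_empty_or_nonempty with hE | hN
  · refine ⟨1, one_pos, fun u v _ i hi => ?_⟩
    by_contra hcon
    have : (u, v) ∈ K := by
      rw [hK]
      exact Set.mem_biUnion (Finset.mem_coe.2 (Finset.mem_range.2 hi)) (not_le.1 hcon).le
    rw [hE] at this
    exact this
  · obtain ⟨p₀, hp₀, hmin⟩ := hKc.exists_isMinOn hN hg.continuousOn
    have hpos : 0 < ‖(a + L (h p₀.1)) - (a + L (h p₀.2))‖ := by
      rw [norm_pos_iff, add_sub_add_left_eq_sub, sub_ne_zero]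
      intro heq
      have h1 : h p₀.1 = h p₀.2 := hL heq
      rw [hK] at hp₀
      obtain ⟨i, hi, hd⟩ := Set.mem_iUnion₂.1 hp₀
      have h2 := (hh.inj p₀.1 p₀.2).1 h1 i (Finset.mem_range.1 hi)
      have hd' : η ≤ dist (p₀.1 i) (p₀.2 i) := hd
      rw [h2, dist_self] at hd'
      linarith
    refine ⟨‖(a + L (h p₀.1)) - (a + L (h p₀.2))‖ / 2, by linarith, fun u v huv i hi => ?_⟩
    by_contra hcon
    have hmem : (u, v) ∈ K := by
      rw [hK]
      exact Set.mem_biUnion (Finset.mem_coe.2 (Finset.mem_range.2 hi)) (not_le.1 hcon).le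
    have h3 := hmin hmem
    have h4 : ‖(a + L (h p₀.1)) - (a + L (h p₀.2))‖ ≤ ‖(a + L (h u)) - (a + L (h v))‖ := h3
    linarith

end Pool.Agent.LibGC20
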