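import Pool.Agent.LibGC20.F5
import Pool.Agent.LibGC20.L2

/-!
[GC20 H4] (SMALL) BUILDING A STAGE. `f u = a + L (h u)`; `range f = (fun x => a + L x) '' T m` (`Good.ran`) is convex and contained in `A`. `β₀` from `modulus` with `η = (1/2)^n`, `β = min β₀ (min b ((1/2)^n))`; `θ₀` from `fc_lemma` with `ε = β / 8`, `θ = min θ₀ (min r ((1/2)^n))`; `FC` is monotone in `θ` (a smaller `θ` is a stronger hypothesis).
-/

namespace Pool.Agent.LibGC20

theorem exists_stage {E : Type*} [NormedAddCommGroup E] [Module ℝ E] [ContinuousSMul ℝ E]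
    (hF : ∀ (t : ℝ) (x : E), |t| ≤ 1 → ‖t • x‖ ≤ ‖x‖) {A : Set E} {m : ℕ} {a : E} {L : (Fin m → ℝ) →ₗ[ℝ] E}
    (hL : Function.Injective L) (hA : ∀ x ∈ T m, a + L x ∈ A) {h : (ℕ → unitInterval) → (Fin m → ℝ)} (hh : Good m h)
    (n : ℕ) {b r : ℝ} (hb : 0 < b) (hr : 0 < r) :
    ∃ s : St A, s.n = n ∧ s.d = m ∧ (∀ u, s.f u = a + L (h u)) ∧ s.β ≤ b ∧ s.θ ≤ r := by
  have hp : (0 : ℝ) < (1 / 2) ^ n := by positivity
  obtain ⟨β₀, hβ₀, hmod⟩ := modulus a hL hh hp
  have hβ : 0 < min β₀ (min b ((1 / 2) ^ n)) := lt_min hβ₀ (lt_min hb hp)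
  obtain ⟨θ₀, hθ₀, hfc⟩ := fc_lemma hF a hL hh (ε := min β₀ (min b ((1 / 2) ^ n)) / 8) (by linarith)
  have hθ : 0 < min θ₀ (min r ((1 / 2) ^ n)) := lt_min hθ₀ (lt_min hr hp)
  have hran : Set.range (fun u => a + L (h u)) = (fun x => a + L x) '' T m := by
    rw [← hh.ran]
    ext z
    constructor
    · rintro ⟨u, rfl⟩
      exact ⟨h u, ⟨u, rfl⟩, rfl⟩
    · rintro ⟨x, ⟨u, rfl⟩, rfl⟩
      exact ⟨u, rfl⟩
  refine ⟨{ n := n, d := m, f := fun u => a + L (h u), β := min β₀ (min b ((1 / 2) ^ n)),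
            θ := min θ₀ (min r ((1 / 2) ^ n)), cont := param_cont a L hh, sub := ?_, conv := ?_,
            βpos := hβ, βle := (min_le_right _ _).trans (min_le_right _ _), θpos := hθ,
            θle := (min_le_right _ _).trans (min_le_right _ _), modu := ?_, fc := ?_ },
          rfl, rfl, fun u => rfl, (min_le_right _ _).trans (min_le_left _ _),
          (min_le_right _ _).trans (min_le_left _ _)⟩
  · rintro _ ⟨u, rfl⟩
    apply hA
    rw [← hh.ran]
    exact ⟨u, rfl⟩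
  · rw [hran]
    rintro _ ⟨x, hx, rfl⟩ _ ⟨y, hy, rfl⟩ s t hs ht hst
    refine ⟨s • x + t • y, ⟨?_, ?_⟩, ?_⟩
    · intro i
      have h1 := mul_le_mul_of_nonneg_left (hx.1 i) hs
      have h2 := mul_le_mul_of_nonneg_left (hy.1 i) ht
      simp only [Pi.add_apply, Pi.smul_apply, smul_eq_mul]
      nlinarith
    · have h1 := mul_le_mul_of_nonneg_left hx.2 hs
      have h2 := mul_le_mul_of_nonneg_left hy.2 ht
      simp only [Pi.add_apply, Pi.smul_apply, smul_eq_mul, Finset.sum_add_distrib, ← Finset.mul_sum]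
      nlinarith
    · have hone : a = s • a + t • a := by rw [← add_smul, hst, one_smul]
      simp only [map_add, map_smul, smul_add]
      nth_rewrite 1 [hone]
      abel
  · intro u v huv
    exact hmod u v (huv.trans (min_le_left _ _))
  · intro k hk a₁ L₁ hL₁ h1 h2
    exact hfc k hk a₁ L₁ hL₁
      (fun u => by
        obtain ⟨y, hy, hlt⟩ := h1 u
        exact ⟨y, hy, hlt.trans_le (min_le_left _ _)⟩)
      (fun y hy => by
        obtain ⟨u, hlt⟩ := h2 y hy
        exact ⟨u, hlt.trans_le (min_le_left _ _)⟩)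

end Pool.Agent.LibGC20
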