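import Pool.Agent.LibGC20.H2
import Pool.Agent.LibGC20.H3
import Pool.Agent.LibGC20.H4
import Pool.Agent.LibGC20.F4

/-!
[GC20 H5] (MEDIUM) INITIAL AND NEXT STAGES. `V` open and nonempty in `HS A`: `K ∈ V`, `Metric.ball K (2 * r) ⊆ V`. `dense_simplices` for `K` with `r` (and `N = 0`, resp. `N = s.d`) gives `m, a, L`. INITIAL: `h` from `base m` (F4), `exists_stage` with `n = 0`, `b = 1`, `r := r / 2`: `dist (s.P) K ≤ r` (`hs_le`; `range s.f = (fun x => a + L x) '' T m` by `Good.ran`), so `ball s.P s.θ ⊆ ball K (2 * r) ⊆ V`.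
NEXT: choose `r` also with `r < s.θ - dist K s.P` (possible as `K ∈ V ⊆ ball s.P s.θ`), so the simplex `P₁ = (fun x => a + L x) '' T m` has `dist P₁ s.P < s.θ`; `hs_lt` gives the two hypotheses of `s.fc` (with `range s.f`), which gives `h`, `Good m h`, `‖(a + L (h u)) - s.f u‖ ≤ s.β / 8`; `exists_stage` with `n = s.n + 1`, `b = s.β / 2`, `r / 2`. (To speak about `P₁` as a point of `HS A` use `base m` and a stage, or build it directly.)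
-/

namespace Pool.Agent.LibGC20

variable {E : Type*} [NormedAddCommGroup E] [Module ℝ E] [ContinuousSMul ℝ E]

omit [ContinuousSMul ℝ E] in
private theorem H5_range {A : Set E} {m : ℕ} {a : E} {L : (Fin m → ℝ) →ₗ[ℝ] E} {h : (ℕ → unitInterval) → (Fin m → ℝ)}
    (hh : Good m h) (s : St A) (hf : ∀ u, s.f u = a + L (h u)) (z : E) :
    z ∈ ((St.P s).1 : Set E) ↔ ∃ x ∈ T m, a + L x = z := by
  rw [coe_P]
  constructor
  · rintro ⟨u, rfl⟩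
    exact ⟨h u, by rw [← hh.ran]; exact ⟨u, rfl⟩, (hf u).symm⟩
  · rintro ⟨x, hx, rfl⟩
    rw [← hh.ran] at hx
    obtain ⟨u, rfl⟩ := hx
    exact ⟨u, hf u⟩

omit [ContinuousSMul ℝ E] in
private theorem H5_dist {A : Set E} {m : ℕ} {a : E} {L : (Fin m → ℝ) →ₗ[ℝ] E} {h : (ℕ → unitInterval) → (Fin m → ℝ)}
    (hh : Good m h) (s : St A) (hf : ∀ u, s.f u = a + L (h u)) {K : HS A} {r : ℝ}
    (h1 : ∀ x ∈ T m, ∃ z ∈ (K.1 : Set E), ‖(a + L x) - z‖ ≤ r)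
    (h2 : ∀ z ∈ (K.1 : Set E), ∃ x ∈ T m, ‖(a + L x) - z‖ ≤ r) : dist (St.P s) K ≤ r := by
  refine hs_le ?_ ?_
  · intro w hw
    obtain ⟨x, hx, rfl⟩ := (H5_range hh s hf w).1 hw
    exact h1 x hx
  · intro z hz
    obtain ⟨x, hx, hxz⟩ := h2 z hz
    exact ⟨a + L x, (H5_range hh s hf _).2 ⟨x, hx, rfl⟩, hxz⟩

theorem exists_initial (hF : ∀ (t : ℝ) (x : E), |t| ≤ 1 → ‖t • x‖ ≤ ‖x‖) {A : Set E} (hA : Convex ℝ A)
    (hinf : ¬ FiniteDimensional ℝ (vectorSpan ℝ A)) (V : Set (HS A)) (hV : IsOpen V) (hne : V.Nonempty) :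
    ∃ s : St A, s.n = 0 ∧ Metric.ball (St.P s) s.θ ⊆ V := by
  obtain ⟨K, hKV⟩ := hne
  obtain ⟨ρ, hρ, hball⟩ := Metric.isOpen_iff.1 hV K hKV
  have hr : 0 < ρ / 2 := half_pos hρ
  have hr2 : 0 < ρ / 4 := by linarith
  obtain ⟨m, -, a, L, hL, hLA, h1, h2⟩ := dense_simplices hF hA hinf K.1.isCompact K.2.2 K.1.nonempty K.2.1 hr 0
  obtain ⟨h, hh⟩ := base m
  obtain ⟨s, hn, -, hf, -, hθ⟩ := exists_stage hF hL hLA hh 0 one_pos hr2
  refine ⟨s, hn, (Metric.ball_subset_ball' ?_).trans hball⟩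
  have hd := H5_dist hh s hf h1 h2
  linarith

theorem exists_next (hF : ∀ (t : ℝ) (x : E), |t| ≤ 1 → ‖t • x‖ ≤ ‖x‖) {A : Set E} (hA : Convex ℝ A)
    (hinf : ¬ FiniteDimensional ℝ (vectorSpan ℝ A)) (s : St A) (V : Set (HS A)) (hVs : V ⊆ Metric.ball (St.P s) s.θ)
    (hV : IsOpen V) (hne : V.Nonempty) : ∃ s' : St A, Ext s s' ∧ Metric.ball (St.P s') s'.θ ⊆ V := by
  obtain ⟨K, hKV⟩ := hne
  obtain ⟨ρ, hρ, hball⟩ := Metric.isOpen_iff.1 hV K hKV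
  have hKs : dist K (St.P s) < s.θ := hVs hKV
  obtain ⟨r, hr, hr1, hr2⟩ : ∃ r : ℝ, 0 < r ∧ r ≤ ρ / 2 ∧ r < s.θ - dist K (St.P s) := by
    have h3 : 0 < s.θ - dist K (St.P s) := sub_pos.2 hKs
    refine ⟨min (ρ / 2) ((s.θ - dist K (St.P s)) / 2), lt_min (half_pos hρ) (half_pos h3), min_le_left _ _, ?_⟩
    exact lt_of_le_of_lt (min_le_right _ _) (half_lt_self h3)
  have hr3 : 0 < r / 2 := half_pos hr
  obtain ⟨m, hm, a, L, hL, hLA, h1, h2⟩ := dense_simplices hF hA hinf K.1.isCompact K.2.2 K.1.nonempty K.2.1 hr s.d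
  obtain ⟨h₀, hh₀⟩ := base m
  obtain ⟨s₀, -, -, hf₀, -, -⟩ := exists_stage hF hL hLA hh₀ 0 one_pos hr3
  have hd₀ : dist (St.P s₀) (St.P s) < s.θ := by
    have h3 := dist_triangle (St.P s₀) K (St.P s)
    have h4 := H5_dist hh₀ s₀ hf₀ h1 h2
    linarith
  obtain ⟨k1, k2⟩ := hs_lt hd₀
  obtain ⟨h, hh, hnear⟩ := s.fc m hm.le a L hL
    (by
      intro u
      obtain ⟨x, hx, hxu⟩ := k2 (s.f u) ⟨u, rfl⟩
      obtain ⟨y, hy, rfl⟩ := (H5_range hh₀ s₀ hf₀ x).1 hx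
      exact ⟨y, hy, by rw [norm_sub_rev]; exact hxu⟩)
    (by
      intro y hy
      obtain ⟨w, hw, hwy⟩ := k1 (a + L y) ((H5_range hh₀ s₀ hf₀ _).2 ⟨y, hy, rfl⟩)
      obtain ⟨u, rfl⟩ := hw
      exact ⟨u, by rw [norm_sub_rev]; exact hwy⟩)
  obtain ⟨s', hn, hd, hf, hβ, hθ⟩ := exists_stage hF hL hLA hh (s.n + 1) (half_pos s.βpos) hr3
  refine ⟨s', ⟨hn, ?_, hβ, ?_⟩, (Metric.ball_subset_ball' ?_).trans hball⟩
  · rw [hd]; exact hm
  · intro u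
    rw [hf u]
    exact hnear u
  · have h5 := H5_dist hh s' hf h1 h2
    linarith

end Pool.Agent.LibGC20
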