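import Mathlib

/-!
[GC20 N1] (SMALL, only Mathlib) In a metrizable topological vector space there is a basis `U n` of balanced neighbourhoods of `0` with `U 0 = univ` and `U (n+1) + U (n+1) + U (n+1) ⊆ U n`. First countable (metrizable): an antitone basis `V n` of `nhds 0` (`Filter.exists_antitone_basis`). Recursively choose `U (n+1)` balanced, contained in `V n` and with `U (n+1) + U (n+1) + U (n+1) ⊆ U n` (continuity of addition at `0`, `nhds_basis_balanced`). `⋂ U n = {0}` as `E` is Hausdorff.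
-/

namespace Pool.Agent.LibGC20

private theorem N1_step {E : Type*} [AddCommGroup E] [Module ℝ E] [TopologicalSpace E] [IsTopologicalAddGroup E]
    [ContinuousSMul ℝ E] {U V : Set E} (hU : U ∈ nhds (0 : E)) (hV : V ∈ nhds (0 : E)) :
    ∃ W : Set E, (W ∈ nhds (0 : E) ∧ Balanced ℝ W) ∧ W ⊆ V ∧
      ∀ x ∈ W, ∀ y ∈ W, ∀ z ∈ W, x + y + z ∈ U := by
  have hc : Filter.Tendsto (fun p : E × E × E => p.1 + p.2.1 + p.2.2) (nhds (0, 0, 0)) (nhds (0 : E)) := by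
    have h : Continuous (fun p : E × E × E => p.1 + p.2.1 + p.2.2) := by fun_prop
    have h2 := h.tendsto (0, 0, 0)
    simpa using h2
  have h1 := hc hU
  rw [Filter.mem_map, nhds_prod_eq, nhds_prod_eq] at h1
  obtain ⟨A, hA, B, hB, hAB⟩ := Filter.mem_prod_iff.1 h1
  obtain ⟨B1, hB1, B2, hB2, hBB⟩ := Filter.mem_prod_iff.1 hB
  have hW : A ∩ B1 ∩ B2 ∩ V ∈ nhds (0 : E) :=
    Filter.inter_mem (Filter.inter_mem (Filter.inter_mem hA hB1) hB2) hV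
  obtain ⟨W, hW1, hW2⟩ := (nhds_basis_balanced ℝ E).mem_iff.1 hW
  refine ⟨W, hW1, fun x hx => (hW2 hx).2, ?_⟩
  intro x hx y hy z hz
  have hy' : (y, z) ∈ B := hBB ⟨(hW2 hy).1.1.2, (hW2 hz).1.2⟩
  have : (x, y, z) ∈ A ×ˢ B := ⟨(hW2 hx).1.1.1, hy'⟩
  exact hAB this

theorem exists_balanced_seq (E : Type*) [AddCommGroup E] [Module ℝ E] [TopologicalSpace E] [IsTopologicalAddGroup E]
    [ContinuousSMul ℝ E] [TopologicalSpace.MetrizableSpace E] :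
    ∃ U : ℕ → Set E, U 0 = Set.univ ∧ (∀ n, U n ∈ nhds (0 : E)) ∧ (∀ n, Balanced ℝ (U n)) ∧
      (∀ n, ∀ x ∈ U (n + 1), ∀ y ∈ U (n + 1), ∀ z ∈ U (n + 1), x + y + z ∈ U n) ∧
      (∀ V ∈ nhds (0 : E), ∃ n, U n ⊆ V) ∧ ∀ x : E, (∀ n, x ∈ U n) → x = 0 := by
  obtain ⟨V, hV⟩ := (nhds (0 : E)).exists_antitone_basis
  have hVm : ∀ n, V n ∈ nhds (0 : E) := fun n => hV.1.mem_of_mem trivial
  have hstep : ∀ (n : ℕ) (u : {W : Set E // W ∈ nhds (0 : E) ∧ Balanced ℝ W}),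
      ∃ w : {W : Set E // W ∈ nhds (0 : E) ∧ Balanced ℝ W}, w.1 ⊆ V n ∧
        ∀ x ∈ w.1, ∀ y ∈ w.1, ∀ z ∈ w.1, x + y + z ∈ u.1 := by
    intro n u
    obtain ⟨W, h1, h2, h3⟩ := N1_step u.2.1 (hVm n)
    exact ⟨⟨W, h1⟩, h2, h3⟩
  choose f hf1 hf2 using hstep
  let U : ℕ → {W : Set E // W ∈ nhds (0 : E) ∧ Balanced ℝ W} := fun n =>
    Nat.rec ⟨Set.univ, Filter.univ_mem, balanced_univ⟩ (fun m u => f m u) n
  have hUs : ∀ n, U (n + 1) = f n (U n) := fun n => rfl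
  have hbas : ∀ W ∈ nhds (0 : E), ∃ n, (U n).1 ⊆ W := by
    intro W hW
    obtain ⟨n, _, hn⟩ := hV.1.mem_iff.1 hW
    refine ⟨n + 1, ?_⟩
    rw [hUs]
    exact (hf1 n (U n)).trans hn
  refine ⟨fun n => (U n).1, rfl, fun n => (U n).2.1, fun n => (U n).2.2, ?_, hbas, ?_⟩
  · intro n x hx y hy z hz
    exact hf2 n (U n) x hx y hy z hz
  · intro x hx
    by_contra hne
    have : {x}ᶜ ∈ nhds (0 : E) := isOpen_compl_singleton.mem_nhds (fun h => hne (by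
      have : (0 : E) = x := h
      exact this.symm))
    obtain ⟨n, hn⟩ := hbas _ this
    exact hn (hx n) rfl

end Pool.Agent.LibGC20
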