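import Mathlib

/-!
[GC20 N2] (MEDIUM, only Mathlib) BIRKHOFF-KAKUTANI for balanced sets. Pre-distance `D x y = 0` if `x - y ∈ U n` for all `n`, otherwise `(1/2)^n` for the smallest `n` with `x - y ∉ U n` (the `U n` decrease: `x = x + 0 + 0`; `U 0 = univ`), in `ℝ≥0`. `D x x = 0`, `D x y = D y x` (balanced), `D x₁ x₄ ≤ 2 * max (D x₁ x₂) (max (D x₂ x₃) (D x₃ x₄))`, `D (x + z) (y + z) = D x y`, `D (t • x) (t • y) ≤ D x y` for `|t| ≤ 1`.
`PseudoMetricSpace.ofPreNNDist D` with `PseudoMetricSpace.dist_ofPreNNDist` (infimum over chains) and `PseudoMetricSpace.le_two_mul_dist_ofPreNNDist`, `dist_ofPreNNDist_le`. `N x = dist x 0`. The chain distance is translation invariant and does not increase under `t • ·` (map the chains); so `N (x + y) ≤ dist (x + y) y + dist y 0 = N x + N y`, `N (-x) = N x`, `N (t • x) ≤ N x`. `x ∈ U n → N x ≤ D x 0 ≤ (1/2)^n`; `N x < (1/2)^(n+1) → D x 0 < (1/2)^n → x ∈ U n`.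
-/

namespace Pool.Agent.LibGC20

open NNReal in
private theorem N2_sum_le {X : Type*} (d1 d2 : X → X → ℝ≥0) (h : ∀ a b, d1 a b ≤ d2 a b) :
    ∀ l l' : List X, (List.zipWith d1 l l').sum ≤ (List.zipWith d2 l l').sum := by
  intro l
  induction l with
  | nil => intro l'; simp
  | cons a l ih =>
    intro l'
    cases l' with
    | nil => simp
    | cons b l' =>
      simp only [List.zipWith_cons_cons, List.sum_cons]
      exact add_le_add (h a b) (ih l')

open NNReal in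
private theorem N2_dist_map {X : Type*} (d : X → X → ℝ≥0) (h0 : ∀ x, d x x = 0)
    (hs : ∀ x y, d x y = d y x) (f : X → X) (hf : ∀ a b, d (f a) (f b) ≤ d a b) (x y : X) :
    @dist X (@PseudoMetricSpace.toDist X (PseudoMetricSpace.ofPreNNDist d h0 hs)) (f x) (f y) ≤
      @dist X (@PseudoMetricSpace.toDist X (PseudoMetricSpace.ofPreNNDist d h0 hs)) x y := by
  rw [PseudoMetricSpace.dist_ofPreNNDist, PseudoMetricSpace.dist_ofPreNNDist, NNReal.coe_le_coe]
  refine le_ciInf fun l => (ciInf_le (OrderBot.bddBelow _) (l.map f)).trans ?_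
  have h1 : f x :: l.map f = (x :: l).map f := rfl
  have h2 : l.map f ++ [f y] = (l ++ [y]).map f := by simp
  rw [h1, h2, List.zipWith_map]
  exact N2_sum_le _ _ hf _ _

open NNReal in
open Classical in
private noncomputable def N2_D {E : Type*} [AddCommGroup E] (U : ℕ → Set E) (x y : E) : ℝ≥0 :=
  if h : ∃ n, x - y ∉ U n then (1 / 2) ^ Nat.find h else 0

open NNReal in
private theorem N2_anti {E : Type*} [AddCommGroup E] {U : ℕ → Set E} (hz : ∀ n, (0 : E) ∈ U n)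
    (h3 : ∀ n, ∀ x ∈ U (n + 1), ∀ y ∈ U (n + 1), ∀ z ∈ U (n + 1), x + y + z ∈ U n) :
    Antitone U := by
  refine antitone_nat_of_succ_le fun n x hx => ?_
  have h := h3 n x hx 0 (hz _) 0 (hz _)
  simpa using h

open NNReal in
private theorem N2_le {E : Type*} [AddCommGroup E] {U : ℕ → Set E} (hU : Antitone U) (x y : E)
    (n : ℕ) : (1 / 2 : ℝ≥0) ^ n ≤ N2_D U x y ↔ x - y ∉ U n := by
  classical
  have hr : (1 / 2 : ℝ≥0) ∈ Set.Ioo (0 : ℝ≥0) 1 :=
    ⟨half_pos one_pos, NNReal.half_lt_self one_ne_zero⟩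
  unfold N2_D
  split_ifs with h
  · rw [(pow_right_strictAnti₀ hr.1 hr.2).le_iff_ge, Nat.find_le_iff]
    exact ⟨fun ⟨m, hmn, hm⟩ hn => hm (hU hmn hn), fun h => ⟨n, le_rfl, h⟩⟩
  · push Not at h
    simp only [h, not_true, (pow_pos hr.1 _).not_ge]

open NNReal in
private theorem N2_map {E : Type*} [AddCommGroup E] {U : ℕ → Set E} (hU : Antitone U) {a b c d : E}
    (h : ∀ n, a - b ∈ U n → c - d ∈ U n) : N2_D U c d ≤ N2_D U a b := by
  classical
  by_cases H : ∃ n, c - d ∉ U n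
  · refine (dif_pos H).trans_le ?_
    rw [N2_le hU]
    exact fun h1 => Nat.find_spec H (h _ h1)
  · exact (dif_neg H).trans_le zero_le

open NNReal in
private theorem N2_tri {E : Type*} [AddCommGroup E] {U : ℕ → Set E} (hU : Antitone U)
    (h3 : ∀ n, ∀ x ∈ U (n + 1), ∀ y ∈ U (n + 1), ∀ z ∈ U (n + 1), x + y + z ∈ U n)
    (x₁ x₂ x₃ x₄ : E) :
    N2_D U x₁ x₄ ≤ 2 * max (N2_D U x₁ x₂) (max (N2_D U x₂ x₃) (N2_D U x₃ x₄)) := by
  classical
  by_cases H : ∃ n, x₁ - x₄ ∉ U n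
  · refine (dif_pos H).trans_le ?_
    rw [← div_le_iff₀' zero_lt_two, ← mul_one_div (_ ^ _), ← pow_succ]
    simp only [le_max_iff, N2_le hU, ← not_and_or]
    rintro ⟨h₁₂, h₂₃, h₃₄⟩
    refine Nat.find_spec H ?_
    have h4 := h3 _ _ h₁₂ _ h₂₃ _ h₃₄
    have h5 : x₁ - x₂ + (x₂ - x₃) + (x₃ - x₄) = x₁ - x₄ := by abel
    rwa [h5] at h4
  · exact (dif_neg H).trans_le zero_le

theorem exists_fnorm {E : Type*} [AddCommGroup E] [Module ℝ E] (U : ℕ → Set E) (hU0 : U 0 = Set.univ)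
    (hb : ∀ n, Balanced ℝ (U n)) (hz : ∀ n, (0 : E) ∈ U n)
    (h3 : ∀ n, ∀ x ∈ U (n + 1), ∀ y ∈ U (n + 1), ∀ z ∈ U (n + 1), x + y + z ∈ U n) :
    ∃ N : E → ℝ, (∀ x, 0 ≤ N x) ∧ N 0 = 0 ∧ (∀ x, N (-x) = N x) ∧ (∀ x y, N (x + y) ≤ N x + N y) ∧
      (∀ (t : ℝ) (x : E), |t| ≤ 1 → N (t • x) ≤ N x) ∧ (∀ n x, x ∈ U n → N x ≤ (1 / 2) ^ n) ∧
      ∀ n x, N x < (1 / 2) ^ (n + 1) → x ∈ U n := by
  classical
  have hU := N2_anti hz h3
  have hbal : ∀ (t : ℝ), |t| ≤ 1 → ∀ n x, x ∈ U n → t • x ∈ U n := fun t ht n x hx =>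
    hb n t (by rwa [Real.norm_eq_abs]) (Set.smul_mem_smul_set hx)
  have h0 : ∀ x, N2_D U x x = 0 := by
    intro x
    refine dif_neg ?_
    rintro ⟨n, hn⟩
    rw [sub_self] at hn
    exact hn (hz n)
  have hs1 : ∀ x y, N2_D U x y ≤ N2_D U y x := by
    intro x y
    refine N2_map hU fun n hn => ?_
    have h4 := hbal (-1) (by norm_num) n _ hn
    have h5 : (-1 : ℝ) • (y - x) = x - y := by rw [neg_smul, one_smul]; abel
    rwa [h5] at h4
  have hs : ∀ x y, N2_D U x y = N2_D U y x := fun x y => le_antisymm (hs1 x y) (hs1 y x)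
  let I : PseudoMetricSpace E := PseudoMetricSpace.ofPreNNDist (N2_D U) h0 hs
  have hle : ∀ x y : E, I.dist x y ≤ N2_D U x y := PseudoMetricSpace.dist_ofPreNNDist_le _ _ _
  have hge : ∀ x y : E, (N2_D U x y : ℝ) ≤ 2 * I.dist x y :=
    PseudoMetricSpace.le_two_mul_dist_ofPreNNDist _ _ _ (N2_tri hU h3)
  have hmap : ∀ (f : E → E), (∀ a b n, a - b ∈ U n → f a - f b ∈ U n) →
      ∀ x y : E, I.dist (f x) (f y) ≤ I.dist x y := fun f hf x y =>
    N2_dist_map (N2_D U) h0 hs f (fun a b => N2_map hU (hf a b)) x y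
  have hsm : ∀ (t : ℝ) (x : E), |t| ≤ 1 → I.dist (t • x) 0 ≤ I.dist x 0 := by
    intro t x ht
    have h4 := hmap (fun z => t • z) (fun a b n h => by
      show t • a - t • b ∈ U n
      rw [← smul_sub]
      exact hbal t ht n _ h) x 0
    simp only [smul_zero] at h4
    exact h4
  have hpow : ∀ n : ℕ, (((1 / 2 : NNReal) ^ n : NNReal) : ℝ) = (1 / 2) ^ n := by
    intro n
    push_cast
    rfl
  refine ⟨fun x => I.dist x 0, fun x => dist_nonneg, dist_self _, ?_, ?_, hsm, ?_, ?_⟩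
  · intro x
    have h4 := hsm (-1) x (by norm_num)
    have h5 := hsm (-1) (-x) (by norm_num)
    rw [neg_smul, one_smul] at h4
    rw [neg_smul, one_smul, neg_neg] at h5
    exact le_antisymm h4 h5
  · intro x y
    have h4 : I.dist (x + y) 0 ≤ I.dist (x + y) y + I.dist y 0 := dist_triangle _ _ _
    have h5 := hmap (fun z => z + y) (fun a b n h => by
      show a + y - (b + y) ∈ U n
      rwa [add_sub_add_right_eq_sub]) x 0
    simp only [zero_add] at h5
    exact h4.trans (add_le_add h5 le_rfl)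
  · intro n x hx
    have h4 : ¬ ((1 / 2 : NNReal) ^ n ≤ N2_D U x 0) := by
      rw [N2_le hU, sub_zero, not_not]
      exact hx
    have h5 : (N2_D U x 0 : ℝ) ≤ (1 / 2) ^ n := by
      rw [← hpow, NNReal.coe_le_coe]
      exact (not_le.1 h4).le
    exact (hle x 0).trans h5
  · intro n x hx
    by_contra h4
    have h5 : (1 / 2 : NNReal) ^ n ≤ N2_D U x 0 := by
      rw [N2_le hU, sub_zero]
      exact h4
    have h6 : (1 / 2 : ℝ) ^ n ≤ (N2_D U x 0 : ℝ) := by
      rw [← hpow, NNReal.coe_le_coe]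
      exact h5
    have h7 := hge x 0
    have h8 : I.dist x 0 < (1 / 2) ^ (n + 1) := hx
    rw [pow_succ] at h8
    linarith

end Pool.Agent.LibGC20
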