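import Pool.Agent.LibGC20.A3

/-!
[GC20 S1] (SMALL) CARATHEODORY for F-norms. `u` in the convex hull of `{u | ‖M (u, w)‖ < θ}` is a convex combination of at most `finrank ℝ X + 1` of its points (`eq_pos_convex_span_of_mem_convexHull`, `AffineIndependent.card_le_finrank_succ`), `M (u, w) = ∑ c i • M (u i, w)` because `∑ c i = 1`, and `norm_sum_smul_le` (A3).
-/

namespace Pool.Agent.LibGC20

theorem carath {X W E : Type*} [NormedAddCommGroup X] [NormedSpace ℝ X] [FiniteDimensional ℝ X] [AddCommGroup W] [Module ℝ W]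
    [NormedAddCommGroup E] [Module ℝ E] (hF : ∀ (t : ℝ) (x : E), |t| ≤ 1 → ‖t • x‖ ≤ ‖x‖) (M : X × W →ₗ[ℝ] E) {w : W} {θ : ℝ}
    (hθ : 0 ≤ θ) {u : X} (hu : u ∈ convexHull ℝ {u : X | ‖M (u, w)‖ < θ}) :
    ‖M (u, w)‖ ≤ (Module.finrank ℝ X + 1) * θ := by
  classical
  obtain ⟨ι, hι, z, c, hz, hz', hc, hc1, hcu⟩ := eq_pos_convex_span_of_mem_convexHull hu
  have hcard : Fintype.card ι ≤ Module.finrank ℝ X + 1 :=
    hz'.card_le_finrank_succ.trans (Nat.add_le_add_right (Submodule.finrank_le _) 1)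
  have hM : M (u, w) = ∑ i, c i • M (z i, w) := by
    have h1 : (u, w) = ∑ i, c i • ((z i, w) : X × W) := by
      apply Prod.ext
      · rw [Prod.fst_sum]
        simpa using hcu.symm
      · rw [Prod.snd_sum]
        simp only [Prod.smul_mk]
        rw [← Finset.sum_smul, hc1, one_smul]
    rw [h1, map_sum]
    simp only [map_smul]
  have hle : ∀ i ∈ (Finset.univ : Finset ι), |c i| ≤ 1 := by
    intro i _
    rw [abs_of_pos (hc i), ← hc1]
    exact Finset.single_le_sum (fun j _ => (hc j).le) (Finset.mem_univ i)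
  have hy : ∀ i ∈ (Finset.univ : Finset ι), ‖M (z i, w)‖ ≤ θ := fun i _ =>
    le_of_lt (hz (Set.mem_range_self i))
  have h2 := norm_sum_smul_le hF Finset.univ c (fun i => M (z i, w)) hle hy
  rw [← hM] at h2
  refine h2.trans (mul_le_mul_of_nonneg_right ?_ hθ)
  rw [Finset.card_univ]
  exact_mod_cast hcard

end Pool.Agent.LibGC20
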