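import Pool.Agent.LibGC20.B2
import Pool.Agent.LibGC20.H5
import Pool.Agent.LibGC20.L1

/-!
[GC20 Z1] (SMALL) THE THEOREM for F-norms. `banach_mazur` with `S = St A`, `U s = Metric.ball (St.P s) s.θ` (open, nonempty as `s.θ > 0`), `ini s = (s.n = 0)`, `ext = Ext`. For `K` in the residual set with branch `b`: `(b n).n = n` by induction, `d n = (b n).d` strictly increasing, `β n = (b n).β`, `f n = (b n).f`; `limit_homeo` (L1) for the compact set `K.1`; `c1`, `c2` from `hs_lt` and `(b n).θ ≤ (1/2)^n`.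
-/

namespace Pool.Agent.LibGC20

theorem generic_cube {E : Type*} [NormedAddCommGroup E] [Module ℝ E] [ContinuousSMul ℝ E]
    (hF : ∀ (t : ℝ) (x : E), |t| ≤ 1 → ‖t • x‖ ≤ ‖x‖) {A : Set E} (hA : Convex ℝ A)
    (hinf : ¬ FiniteDimensional ℝ (vectorSpan ℝ A)) :
    {K : HS A | Nonempty ((K.1 : Set E) ≃ₜ (ℕ → unitInterval))} ∈ residual (HS A) := by
  have hbm := banach_mazur (X := HS A) (S := St A) (fun s => Metric.ball (St.P s) s.θ)
    (fun s => Metric.isOpen_ball) (fun s => ⟨St.P s, Metric.mem_ball_self s.θpos⟩)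
    (fun s => s.n = 0) Ext (fun V hV hne => exists_initial hF hA hinf V hV hne)
    (fun s V hVs hV hne => exists_next hF hA hinf s V hVs hV hne)
  refine Filter.mem_of_superset hbm ?_
  rintro K ⟨b, b0, bs, bm⟩
  have hn : ∀ n, (b n).n = n := by
    intro n
    induction n with
    | zero => exact b0
    | succ n ih => rw [(bs n).lev, ih]
  have hθ : ∀ n, (b n).θ ≤ (1 / 2) ^ n := by
    intro n
    have h := (b n).θle
    rwa [hn n] at h
  have hb : ∀ n, (∀ x ∈ (K.1 : Set E), ∃ y ∈ ((St.P (b n)).1 : Set E), ‖x - y‖ < (b n).θ) ∧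
      ∀ y ∈ ((St.P (b n)).1 : Set E), ∃ x ∈ (K.1 : Set E), ‖x - y‖ < (b n).θ :=
    fun n => hs_lt (Metric.mem_ball.mp (bm n))
  refine limit_homeo (K := (K.1 : Set E)) K.1.isCompact (fun n => (b n).f) (fun n => (b n).cont)
    (fun n => (b n).d) (strictMono_nat_of_lt_succ fun n => (bs n).dim) (fun n => (b n).β)
    (fun n => (b n).βpos) (fun n => (bs n).half) ?_ ?_ (fun n u => (bs n).near u) ?_ ?_
  · intro n
    have h := (b n).βle
    rwa [hn n] at h
  · intro n u v h i hi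
    have h' := (b n).modu u v h i hi
    rwa [hn n] at h'
  · intro n u
    obtain ⟨z, hz, h⟩ := (hb n).2 ((b n).f u) (by rw [coe_P]; exact Set.mem_range_self u)
    refine ⟨z, hz, ?_⟩
    rw [norm_sub_rev]
    exact h.le.trans (hθ n)
  · intro n z hz
    obtain ⟨y, hy, h⟩ := (hb n).1 z hz
    rw [coe_P] at hy
    obtain ⟨u, rfl⟩ := hy
    refine ⟨u, ?_⟩
    rw [norm_sub_rev]
    exact h.le.trans (hθ n)

end Pool.Agent.LibGC20
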