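import Pool.Agent.LibGC20.Z1
import Pool.Agent.LibGC20.N1
import Pool.Agent.LibGC20.N2

/-!
[GC20 Z2] (MEDIUM) TRANSFER to metrizable topological vector spaces. N1 and N2 give `N`, `N x = 0 → x = 0`. Let `I : NormedAddCommGroup E := AddGroupNorm.toNormedAddCommGroup ⟨⟨N, ..⟩, ..⟩` (its additive group is the given one, definitionally); its topology is the given topology `t`: both are group topologies with the same neighbourhoods of `0` (`IsTopologicalAddGroup.ext`; `{x | N x < ε}` is a basis of `nhds 0` for `t` by the last two properties of N2 and N1). As `I` does not depend on `t`, one can `subst` `t` (a local variable) by the topology of `I`, then `generic_cube` (Z1) applies; `‖x‖ = N x` by `rfl`.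
-/

namespace Pool.Agent.LibGC20

private theorem Z2_nhds (E : Type*) [AddCommGroup E] (t : TopologicalSpace E)
    (G : AddGroupNorm E) (U : ℕ → Set E) (hUn : ∀ n, U n ∈ nhds (0 : E))
    (hV : ∀ V ∈ nhds (0 : E), ∃ n, U n ⊆ V)
    (hN1 : ∀ n x, x ∈ U n → G x ≤ (1 / 2) ^ n) (hN2 : ∀ n x, G x < (1 / 2) ^ (n + 1) → x ∈ U n) :
    @nhds E t 0 = @nhds E (G.toNormedAddCommGroup).toMetricSpace.toPseudoMetricSpace.toUniformSpace.toTopologicalSpace 0 := by
  letI I : NormedAddCommGroup E := G.toNormedAddCommGroup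
  have hnorm : ∀ x : E, ‖x‖ = G x := fun x => rfl
  apply Filter.ext
  intro V
  have hB : V ∈ @nhds E (G.toNormedAddCommGroup).toMetricSpace.toPseudoMetricSpace.toUniformSpace.toTopologicalSpace 0 ↔
      ∃ ε > 0, Metric.ball (0 : E) ε ⊆ V := Metric.mem_nhds_iff
  rw [hB]
  constructor
  · intro h
    obtain ⟨n, hn⟩ := hV V h
    refine ⟨(1 / 2) ^ (n + 1), by positivity, fun x hx => hn (hN2 n x ?_)⟩
    rw [Metric.mem_ball, dist_zero_right] at hx
    exact hx
  · rintro ⟨ε, hε, h⟩
    obtain ⟨n, hn⟩ := exists_pow_lt_of_lt_one hε (by norm_num : (1 / 2 : ℝ) < 1)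
    refine Filter.mem_of_superset (hUn n) fun x hx => h ?_
    rw [Metric.mem_ball, dist_zero_right]
    exact (hN1 n x hx).trans_lt hn

private theorem Z2_grp (E : Type*) [AddCommGroup E] (G : AddGroupNorm E) :
    @IsTopologicalAddGroup E
      (G.toNormedAddCommGroup).toMetricSpace.toPseudoMetricSpace.toUniformSpace.toTopologicalSpace _ :=
  @SeminormedAddCommGroup.toIsTopologicalAddGroup E G.toNormedAddCommGroup.toSeminormedAddCommGroup

private theorem Z2_top (E : Type*) [AddCommGroup E] (t : TopologicalSpace E)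
    (ht : IsTopologicalAddGroup E) (G : AddGroupNorm E)
    (h : @nhds E t 0 = @nhds E (G.toNormedAddCommGroup).toMetricSpace.toPseudoMetricSpace.toUniformSpace.toTopologicalSpace 0) :
    t = (G.toNormedAddCommGroup).toMetricSpace.toPseudoMetricSpace.toUniformSpace.toTopologicalSpace := by
  exact IsTopologicalAddGroup.ext ht (Z2_grp E G) h

private theorem Z2_aux (E : Type*) [AddCommGroup E] [Module ℝ E] (G : AddGroupNorm E)
    (hs : ∀ (t : ℝ) (x : E), |t| ≤ 1 → G (t • x) ≤ G x) (t : TopologicalSpace E)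
    (hG : t = (G.toNormedAddCommGroup).toMetricSpace.toPseudoMetricSpace.toUniformSpace.toTopologicalSpace)
    (hc : ContinuousSMul ℝ E) (A : Set E) (hA : Convex ℝ A)
    (hinf : ¬ FiniteDimensional ℝ (vectorSpan ℝ A)) :
    {K : {K : TopologicalSpace.NonemptyCompacts E // (K : Set E) ⊆ A ∧ Convex ℝ (K : Set E)} |
      Nonempty ((K.1 : Set E) ≃ₜ (ℕ → unitInterval))} ∈ residual _ := by
  subst hG
  exact @generic_cube E G.toNormedAddCommGroup _ hc hs A hA hinf

theorem generic_tvs (E : Type*) [AddCommGroup E] [Module ℝ E] [TopologicalSpace E] [IsTopologicalAddGroup E]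
    [ContinuousSMul ℝ E] [TopologicalSpace.MetrizableSpace E] (A : Set E) (hA : Convex ℝ A)
    (hinf : ¬ FiniteDimensional ℝ (vectorSpan ℝ A)) :
    {K : {K : TopologicalSpace.NonemptyCompacts E // (K : Set E) ⊆ A ∧ Convex ℝ (K : Set E)} |
      Nonempty ((K.1 : Set E) ≃ₜ (ℕ → unitInterval))} ∈ residual _ := by
  obtain ⟨U, hU0, hUn, hb, h3, hV, hsep⟩ := exists_balanced_seq E
  obtain ⟨N, hN0, hNz, hNn, hNa, hNs, hN1, hN2⟩ :=
    exists_fnorm U hU0 hb (fun n => mem_of_mem_nhds (hUn n)) h3
  have hNe : ∀ x, N x = 0 → x = 0 := fun x hx => hsep x fun n => hN2 n x (by rw [hx]; positivity)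
  let G : AddGroupNorm E :=
    { toFun := N, map_zero' := hNz, add_le' := hNa, neg' := hNn, eq_zero_of_map_eq_zero' := hNe }
  exact Z2_aux E G hNs _ (Z2_top E _ inferInstance G (Z2_nhds E _ G U hUn hV hN1 hN2)) inferInstance
    A hA hinf

end Pool.Agent.LibGC20
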